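import Pool.Agent.MP_adf6dd_al.lt.SpecA

/-! The signed sum over an apartment vanishes on every block. -/

set_option autoImplicit false

namespace Pool.Agent.MP_adf6dd_al.LT

open Subgroup

namespace Apa

variable {S : Type} [Group S] {B N : Subgroup S} {R : Set S}

theorem sign (H : BN B N R) {r n : S} (hr : r ∈ R) (hn : n ∈ N) :
    (-1 : ℚ) ^ len B R (n * r) = -(-1 : ℚ) ^ len B R n := by
  have a1 := H.len_r hr (H.dc_inv hr) n⁻¹
  have a2 := H.len_r' hr (H.dc_inv hr) n⁻¹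
  have a3 := H.len_ne hr (mul_mem (inv_mem (H.mem hr)) (inv_mem hn))
  rw [mul_inv_cancel_left] at a3
  rw [← mul_inv_rev, H.len_inv, H.len_inv] at a1 a2
  rw [← mul_inv_rev, H.len_inv, H.len_inv] at a3
  rcases (by omega : len B R (n * r) = len B R n + 1 ∨ len B R n = len B R (n * r) + 1) with e | e
  · rw [e, pow_succ]
    ring
  · rw [e, pow_succ]
    ring

theorem refl_mem (H : BN B N R) (Y : Subgroup S) (hB : B ≤ Y) {g : S} (hg : g ∈ Y) (hgB : g ∉ B) :
    ∃ r ∈ R, r ∈ Y := by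
  obtain ⟨n, hn, a⟩ := H.bruhat g
  have nB : n ∉ B := fun c => hgB (a.mem c)
  have nY : n ∈ Y := by
    obtain ⟨c, hc, d, hd, e⟩ := a.symm
    rw [e]
    exact mul_mem (mul_mem (hB hc) hg) (hB hd)
  obtain ⟨r, hr, l⟩ := H.desc hn nB
  obtain ⟨b, hb, c, hc, d, hd, e⟩ := H.exists_down hr hn (by omega)
  refine ⟨r, hr, ?_⟩
  have : r = c * n * d * n⁻¹ * b⁻¹ := by
    rw [← e]
    group
  rw [this]
  exact mul_mem (mul_mem (mul_mem (mul_mem (hB hc) nY) (hB hd)) (inv_mem nY)) (inv_mem (hB hb))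

end Apa

open Apa in
theorem apaS : ApaS := by
  intro S Ω _ _ _ B N R β ω H hA
  classical
  have := Fintype.ofFinite S
  let a : S →* Equiv.Perm Ω := β.comp MulAut.conj
  have ha : ∀ t, β (MulAut.conj t) = a t := fun _ => rfl
  have hm : ∀ s t x, a (s * t) x = a s (a t x) := fun s t x => by rw [map_mul]; rfl
  refine ⟨fun x => ∑ n : S, if n ∈ N ∧ a n ω = x then (-1 : ℚ) ^ len B R n else 0, ?_, ?_⟩
  · intro X hX
    obtain ⟨⟨x, hx, y, hy, hxy⟩, hb⟩ := hX
    simp only [ha] at hb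
    have e : ∀ n : S, (∑ z ∈ X, if n ∈ N ∧ a n ω = z then (-1 : ℚ) ^ len B R n else 0) =
        if n ∈ N ∧ a n ω ∈ X then (-1 : ℚ) ^ len B R n else 0 := fun n => by
      by_cases c : n ∈ N
      · simp [c]
      · simp [c]
    rw [Finset.sum_comm]
    simp only [e]
    by_cases h0 : ∃ n0, a n0 ω ∈ X
    swap
    · exact Finset.sum_eq_zero fun n _ => if_neg fun c => h0 ⟨n, c.2⟩
    obtain ⟨n0, h0⟩ := h0
    let Y0 : Submonoid S :=
      { carrier := {g | a (n0 * g) ω ∈ X}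
        one_mem' := by simpa using h0
        mul_mem' := fun {g h} hg hh => by
          have := hb (n0 * g * n0⁻¹) _ h0 (by
            rw [← hm, inv_mul_cancel_right]; exact hg) _ hh
          rw [← hm] at this
          simpa [mul_assoc] using this }
    let Y : Subgroup S :=
      { Y0 with
        inv_mem' := fun {g} hg => (Submonoid.powers_le.2 hg : Submonoid.powers g ≤ Y0)
          (mem_powers_iff_mem_zpowers.2 (inv_mem (mem_zpowers g))) }
    have hY : ∀ g, g ∈ Y ↔ a (n0 * g) ω ∈ X := fun _ => Iff.rfl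
    have hB : B ≤ Y := fun b hb' => by
      rw [hY, hm, ← ha b, (hA.st b).2 hb']
      exact h0
    obtain ⟨z, hz, hz0⟩ : ∃ z ∈ X, z ≠ a n0 ω := by
      by_cases c : x = a n0 ω
      · exact ⟨y, hy, fun d => hxy (c.trans d.symm)⟩
      · exact ⟨x, hx, c⟩
    obtain ⟨t, ht⟩ := hA.tr z
    rw [ha] at ht
    obtain ⟨r, hr, rY⟩ := refl_mem H Y hB (g := n0⁻¹ * t)
      (by rw [hY, mul_inv_cancel_left, ht]; exact hz) (fun c => hz0 (by
        have d := (hA.st _).2 c
        rw [ha] at d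
        have d2 := hm n0 (n0⁻¹ * t) ω
        rwa [mul_inv_cancel_left, d, ht] at d2))
    have key : ∀ n : S, (if n * r ∈ N ∧ a (n * r) ω ∈ X then (-1 : ℚ) ^ len B R (n * r) else 0) =
        -(if n ∈ N ∧ a n ω ∈ X then (-1 : ℚ) ^ len B R n else 0) := fun n => by
      have i1 : n * r ∈ N ↔ n ∈ N := N.mul_mem_cancel_right (H.mem hr)
      have i2 : a (n * r) ω ∈ X ↔ a n ω ∈ X := by
        have j := Y.mul_mem_cancel_right (y := n0⁻¹ * n) rY
        rw [hY, hY, mul_assoc, mul_inv_cancel_left, mul_inv_cancel_left] at j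
        exact j
      by_cases c : n ∈ N ∧ a n ω ∈ X
      · rw [if_pos c, if_pos ⟨i1.2 c.1, i2.2 c.2⟩, sign H hr c.1]
      · rw [if_neg c, if_neg fun d => c ⟨i1.1 d.1, i2.1 d.2⟩, neg_zero]
    have s1 := (Equiv.sum_comp (Equiv.mulRight r)
      fun n : S => if n ∈ N ∧ a n ω ∈ X then (-1 : ℚ) ^ len B R n else 0).symm.trans
        (Finset.sum_congr rfl fun n _ => key n)
    rw [Finset.sum_neg_distrib] at s1
    linarith
  · refine (Finset.sum_pos' (fun n _ => ?_) ⟨1, Finset.mem_univ _, ?_⟩).ne'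
    · split_ifs with c
      · rw [H.len_zero.2 ((hA.st n).1 c.2)]
        norm_num
      · exact le_rfl
    · rw [if_pos ⟨one_mem _, by simp⟩, H.len_zero.2 (one_mem _)]
      norm_num

end Pool.Agent.MP_adf6dd_al.LT
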