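import Mathlib
import Pool.Agent.MP_983df8_al.Defs5

/-! BN-pairs: double cosets, lengths, descents (text taken from the file LocB of the row 983df8). -/

set_option autoImplicit false

namespace Pool.Agent.MP_adf6dd_al.LT

open Subgroup Pool.Agent.MP_983df8_al

variable {S : Type*} [Group S] {B N : Subgroup S} {R : Set S} {g h n r s : S}

theorem mem_conjBy {H : Subgroup S} {x g : S} : g ∈ conjBy H x ↔ x * g * x⁻¹ ∈ H := by
  simp [conjBy, mem_comap]

/-- same double coset -/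
def DC (B : Subgroup S) (g h : S) : Prop := ∃ c ∈ B, ∃ d ∈ B, g = c * h * d

theorem DC.refl (g : S) : DC B g g := ⟨1, one_mem _, 1, one_mem _, by simp⟩

theorem DC.symm (a : DC B g h) : DC B h g := by
  obtain ⟨c, hc, d, hd, rfl⟩ := a
  exact ⟨c⁻¹, inv_mem hc, d⁻¹, inv_mem hd, by group⟩

theorem DC.trans {k : S} (a : DC B g h) (b : DC B h k) : DC B g k := by
  obtain ⟨c, hc, d, hd, rfl⟩ := a
  obtain ⟨c', hc', d', hd', rfl⟩ := b
  exact ⟨c * c', mul_mem hc hc', d' * d, mul_mem hd' hd, by group⟩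

theorem DC.inv (a : DC B g h) : DC B g⁻¹ h⁻¹ := by
  obtain ⟨c, hc, d, hd, rfl⟩ := a
  exact ⟨d⁻¹, inv_mem hd, c⁻¹, inv_mem hc, by group⟩

theorem DC.left (hb : h ∈ B) (g : S) : DC B (h * g) g := ⟨h, hb, 1, one_mem _, by simp⟩

theorem DC.right (hb : h ∈ B) (g : S) : DC B (g * h) g := ⟨1, one_mem _, h, hb, by simp⟩

theorem DC.of_mem (a : g⁻¹ * h ∈ B) : DC B h g := by simpa using DC.right a g

theorem DC.mem (a : DC B g h) (b : h ∈ B) : g ∈ B := by
  obtain ⟨c, hc, d, hd, rfl⟩ := a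
  exact mul_mem (mul_mem hc b) hd

/-- galleries -/
inductive Gal (B : Subgroup S) (R : Set S) : ℕ → S → Prop
  | base {b} : b ∈ B → Gal B R 0 b
  | step {k b r g} : b ∈ B → r ∈ R → Gal B R k g → Gal B R (k + 1) (b * r * g)

theorem Gal.left {k : ℕ} (a : Gal B R k g) (hb : h ∈ B) : Gal B R k (h * g) := by
  cases a with
  | base c => exact .base (mul_mem hb c)
  | step c d e => simpa [mul_assoc] using Gal.step (mul_mem hb c) d e

theorem Gal.mul {k m : ℕ} (a : Gal B R k g) (b : Gal B R m h) : Gal B R (m + k) (g * h) := by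
  induction a with
  | base c => exact b.left c
  | step c d _ e => simpa [mul_assoc, add_assoc] using Gal.step c d e

/-- the gallery length -/
noncomputable def len (B : Subgroup S) (R : Set S) (g : S) : ℕ := sInf {k | Gal B R k g}

/-- a BN-pair -/
structure BN (B N : Subgroup S) (R : Set S) : Prop where
  sup : B ⊔ N = ⊤
  norm : ∀ n ∈ N, B ⊓ N ≤ conjBy B n
  gen : closure R ⊔ B ⊓ N = N
  sq : ∀ r ∈ R, r * r ∈ B
  thick : ∀ r ∈ R, ¬ B ≤ conjBy B r
  bn : ∀ r ∈ R, ∀ b ∈ B, ∀ n ∈ N, DC B (r * b * n) (r * n) ∨ DC B (r * b * n) n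

namespace BN

variable (H : BN B N R)
include H

theorem mem (hr : r ∈ R) : r ∈ N := H.gen.le (mem_sup_left (subset_closure hr))

theorem not_mem (hr : r ∈ R) : r ∉ B := fun a =>
  H.thick r hr fun _ b => mem_conjBy.2 (mul_mem (mul_mem a b) (inv_mem a))

theorem dc_inv (hr : r ∈ R) : DC B r⁻¹ r := DC.of_mem (by simpa using inv_mem (H.sq r hr))

theorem gal_inv {k : ℕ} (a : Gal B R k g) : Gal B R k g⁻¹ := by
  induction a with
  | base c => exact .base (inv_mem c)
  | step c d _ e =>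
    simpa [mul_assoc, add_comm] using e.mul (Gal.step (one_mem _) d (.base (mul_mem (inv_mem (H.sq _ d))
      (inv_mem c))))

theorem gal (g : S) : Gal B R (len B R g) g := by
  let Y : Subgroup S :=
    { carrier := {g | ∃ k, Gal B R k g}
      one_mem' := ⟨0, .base (one_mem _)⟩
      mul_mem' := fun ⟨_, a⟩ ⟨_, b⟩ => ⟨_, a.mul b⟩
      inv_mem' := fun ⟨_, a⟩ => ⟨_, H.gal_inv a⟩ }
  have a : B ≤ Y := fun b hb => ⟨0, .base hb⟩
  exact Nat.sInf_mem (s := {k | Gal B R k g}) ((H.sup.ge.trans (sup_le a (H.gen.ge.trans (sup_le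
    ((closure_le Y).2 fun r hr => ⟨1, by simpa using Gal.step (one_mem B) hr (.base (one_mem _))⟩)
    (inf_le_left.trans a))))) (mem_top g))

omit H in
theorem len_le {k : ℕ} (a : Gal B R k g) : len B R g ≤ k := Nat.sInf_le a

theorem len_inv (g : S) : len B R g⁻¹ = len B R g :=
  le_antisymm (len_le (H.gal_inv (H.gal g))) (by simpa using len_le (H.gal_inv (H.gal g⁻¹)))

theorem len_mul (g h : S) : len B R (g * h) ≤ len B R g + len B R h :=
  add_comm (len B R h) _ ▸ len_le ((H.gal g).mul (H.gal h))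

theorem len_zero : len B R g = 0 ↔ g ∈ B :=
  ⟨fun a => by have := H.gal g; rw [a] at this; cases this; assumption,
    fun a => Nat.le_zero.1 (len_le (.base a))⟩

theorem len_dc (a : DC B g h) : len B R g = len B R h := by
  have : ∀ g h, DC B g h → len B R g ≤ len B R h := by
    rintro _ h ⟨c, hc, d, hd, rfl⟩
    have a1 := H.len_mul (c * h) d
    have a2 := H.len_mul c h
    rw [H.len_zero.2 hc] at a2
    rw [H.len_zero.2 hd] at a1
    omega
  exact le_antisymm (this _ _ a) (this _ _ a.symm)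

theorem len_one (hr : r ∈ R) (a : DC B g r) : len B R g = 1 := by
  have a1 := len_le (Gal.step (one_mem B) hr (.base (one_mem _)))
  have a2 := mt H.len_zero.1 (H.not_mem hr)
  rw [H.len_dc a]
  simp only [one_mul, mul_one] at a1
  omega

theorem len_r (hr : r ∈ R) (a : DC B h r) (g : S) : len B R (h * g) ≤ len B R g + 1 := by
  have := H.len_mul h g
  rw [H.len_one hr a] at this
  omega

theorem len_r' (hr : r ∈ R) (a : DC B h r) (g : S) : len B R g ≤ len B R (h * g) + 1 := by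
  simpa using H.len_r hr (a.inv.trans (H.dc_inv hr)) (h * g)

theorem bn' (hr : r ∈ R) (hn : n ∈ N) (a : DC B h r) (b : DC B g n) :
    DC B (h * g) (r * n) ∨ DC B (h * g) n := by
  obtain ⟨c, hc, d, hd, rfl⟩ := a
  obtain ⟨c', hc', d', hd', rfl⟩ := b
  have e : DC B (c * r * d * (c' * n * d')) (r * (d * c') * n) := ⟨c, hc, d', hd', by group⟩
  exact (H.bn r hr _ (mul_mem hd hc') n hn).imp e.trans e.trans

theorem bruhat (g : S) : ∃ n ∈ N, DC B g n := by
  have := H.gal g
  generalize len B R g = k at this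
  induction this with
  | base c => exact ⟨1, one_mem _, by simpa using DC.left c 1⟩
  | step c d _ e =>
    obtain ⟨n, hn, a⟩ := e
    exact (H.bn' d hn (DC.left c _) a).elim (fun b => ⟨_, mul_mem (H.mem d) hn, b⟩)
      fun b => ⟨_, hn, b⟩

theorem desc0 {k : ℕ} (a : len B R g = k + 1) :
    ∃ r ∈ R, ∃ m ∈ N, len B R m = k ∧ ∀ n ∈ N, DC B n g → DC B (r * n) m := by
  have := H.gal g
  rw [a] at this
  cases this with
  | @step _ b r g' c d e =>
    obtain ⟨m, hm, f⟩ := H.bruhat g'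
    have a1 := len_le e
    have a2 := H.len_r d (DC.left c r) g'
    have a3 := H.len_dc f
    refine ⟨r, d, m, hm, by omega, fun n hn l => ?_⟩
    have := H.bn' d hn ((DC.left c r).inv.trans (H.dc_inv d)) l.symm
    rw [inv_mul_cancel_left] at this
    refine (this.resolve_right fun o => ?_).symm.trans f
    have := H.len_dc o
    have := H.len_dc l
    omega

theorem uniq {n' : S} (hn : n ∈ N) (hn' : n' ∈ N) (a : DC B n' n) : n⁻¹ * n' ∈ B := by
  induction e : len B R n generalizing n n' with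
  | zero => exact mul_mem (inv_mem (H.len_zero.1 e)) (a.mem (H.len_zero.1 e))
  | succ k ih =>
    obtain ⟨r, hr, m, hm, b, c⟩ := H.desc0 e
    simpa [mul_assoc] using mul_mem (inv_mem (ih hm (mul_mem (H.mem hr) hn) (c n hn (DC.refl _)) b))
      (ih hm (mul_mem (H.mem hr) hn') (c n' hn' a) b)

theorem desc (hn : n ∈ N) (a : n ∉ B) : ∃ r ∈ R, len B R (r * n) + 1 = len B R n := by
  obtain ⟨k, e⟩ := Nat.exists_eq_succ_of_ne_zero (mt H.len_zero.1 a)
  obtain ⟨r, hr, m, hm, b, c⟩ := H.desc0 e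
  exact ⟨r, hr, by rw [H.len_dc (c n hn (DC.refl _)), b, e]⟩

theorem desc' (hn : n ∈ N) (a : n ∉ B) : ∃ r ∈ R, len B R (n * r⁻¹) + 1 = len B R n := by
  obtain ⟨r, hr, b⟩ := H.desc (inv_mem hn) (mt inv_mem_iff.1 a)
  exact ⟨r, hr, by rwa [← H.len_inv, H.len_inv n, mul_inv_rev, inv_inv] at b⟩

theorem swap {m : S} (hn : n ∈ N) (hm : m ∈ N) (a : n⁻¹ * m ∈ B) : m * n⁻¹ ∈ B := by
  simpa [mul_assoc] using mem_conjBy.1 (H.norm n hn ⟨a, N.mul_mem (inv_mem hn) hm⟩)

theorem bnr (hr : r ∈ R) (hn : n ∈ N) (a : DC B h r) (b : DC B g n) :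
    DC B (g * h) (n * r) ∨ DC B (g * h) n := by
  have := H.bn' hr (inv_mem hn) (a.inv.trans (H.dc_inv hr)) b.inv
  refine this.imp (fun c => ?_) fun c => by simpa using c.inv
  have d := c.inv
  simp only [mul_inv_rev, inv_inv] at d
  exact d.trans (DC.of_mem (by simpa [mul_assoc] using inv_mem (H.sq r hr)))

theorem ne_self (hr : r ∈ R) (hn : n ∈ N) : ¬ DC B (r * n) n := fun a =>
  H.not_mem hr (by simpa using H.swap hn (mul_mem (H.mem hr) hn) (H.uniq hn (mul_mem (H.mem hr) hn) a))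

theorem cell (hr : r ∈ R) (hn : n ∈ N) (l : len B R n ≤ len B R (r * n)) (a : DC B h r)
    (b : DC B g n) : DC B (h * g) (r * n) := by
  induction e : len B R n generalizing n g with
  | zero =>
    exact (DC.right (b.mem (H.len_zero.1 e)) h).trans (a.trans (DC.right (H.len_zero.1 e) r).symm)
  | succ k ih =>
    refine (H.bn' hr hn a b).elim id fun c => ?_
    obtain ⟨s, hs, d⟩ := H.desc' hn (mt H.len_zero.2 (by omega))
    have m := mul_mem hn (inv_mem (H.mem hs))
    obtain ⟨b1, f1, b2, f2, rfl⟩ := b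
    have l1 := H.len_mul (r * (n * s⁻¹)) s
    rw [H.len_one hs (DC.refl _), mul_assoc, inv_mul_cancel_right] at l1
    have i := ih m (g := b1 * (n * s⁻¹)) (by omega) (DC.left f1 _) (by omega)
    have j := H.bnr hs hn (H.dc_inv hs) ((DC.right (inv_mem f2) _).trans c)
    simp only [mul_assoc, mul_inv_cancel_left, mul_inv_cancel, mul_one] at i j
    rcases j with j | j
    · exact (H.ne_self hr m ((i.symm.trans j).trans (DC.of_mem (by
        simpa [mul_assoc] using H.sq s hs)))).elim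
    have k1 := H.swap hn (mul_mem (H.mem hr) m) (H.uniq hn (mul_mem (H.mem hr) m) (i.symm.trans j))
    have k2 := mem_conjBy.1 (H.norm _ (inv_mem (H.mem hr)) ⟨k1, N.mul_mem (mul_mem (H.mem hr) m)
      (inv_mem hn)⟩)
    have := H.len_dc (DC.left (mul_mem k2 (inv_mem (H.sq r hr))) (r * n))
    simp only [mul_assoc, inv_mul_cancel_left, inv_inv, mul_inv_rev, mul_inv_cancel_left,
      inv_mul_cancel, mul_one] at this
    omega

theorem exists_down (hr : r ∈ R) (hn : n ∈ N) (l : len B R (r * n) ≤ len B R n) :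
    ∃ b ∈ B, DC B (r * b * n) n := by
  obtain ⟨b, hb, a⟩ := SetLike.not_le_iff_exists.1 (H.thick r hr)
  have c := (H.bn' hr (H.mem hr) (DC.right hb r) (H.dc_inv hr)).resolve_left fun c =>
    a (mem_conjBy.2 (c.mem (H.sq r hr)))
  have d : DC B (r * (r * n)) n := mul_assoc r r n ▸ DC.left (H.sq r hr) n
  have := H.cell hr (mul_mem (H.mem hr) hn) (H.len_dc d ▸ l) c (DC.refl _)
  exact ⟨b, hb, by simpa [mul_assoc] using this.trans d⟩

theorem len_ne (hr : r ∈ R) (hn : n ∈ N) : len B R (r * n) ≠ len B R n := fun e => by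
  obtain ⟨b, hb, a⟩ := H.exists_down hr hn e.le
  exact H.ne_self hr hn ((H.cell hr hn e.ge (DC.right hb r) (DC.refl _)).symm.trans a)

theorem fold (hr : r ∈ R) (hs : s ∈ R) (hn : n ∈ N) (l : len B R n ≤ len B R (r * n))
    (l' : len B R (r * (n * s)) ≤ len B R (n * s)) : (r * n)⁻¹ * (n * s) ∈ B := by
  have m := mul_mem hn (H.mem hs)
  have m' := mul_mem (H.mem hr) hn
  obtain ⟨b, hb, a⟩ := H.exists_down hr m l'
  have := H.bnr hs m' (DC.refl _) (H.cell hr hn l (DC.right hb r) (DC.refl _))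
  simp only [mul_assoc] at this a
  exact H.uniq m' m (a.symm.trans (this.resolve_left fun c => H.ne_self hr m (c.symm.trans a)))

theorem exch (hr : r ∈ R) {v u : S} (hv : v ∈ N) (hu : u ∈ N) (l : len B R v ≤ len B R (r * v))
    (l1 : len B R v + len B R u ≤ len B R (v * u)) (l2 : len B R (r * (v * u)) ≤ len B R (v * u)) :
    ∃ u' ∈ N, len B R u' < len B R u ∧ v * u = r * v * u' := by
  induction e : len B R u generalizing u with
  | zero =>
    have a := H.len_dc (DC.right (H.len_zero.1 e) v)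
    have b := H.len_dc (DC.right (H.len_zero.1 e) (r * v))
    have := H.len_ne hr hv
    rw [mul_assoc] at b
    omega
  | succ k ih =>
    obtain ⟨s, hs, d⟩ := H.desc' hu (mt H.len_zero.2 (by omega))
    have m := mul_mem hu (inv_mem (H.mem hs))
    have a1 := H.len_mul (v * (u * s⁻¹)) s
    rw [H.len_one hs (DC.refl _), mul_assoc, inv_mul_cancel_right] at a1
    by_cases c : len B R (r * (v * (u * s⁻¹))) ≤ len B R (v * (u * s⁻¹))
    · obtain ⟨u', b1, b2, b3⟩ := ih m (by omega) c (by omega)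
      have a2 := H.len_mul u' s
      have a3 := H.len_mul (r * v) (u' * s)
      rw [H.len_one hs (DC.refl _)] at a2
      refine ⟨u' * s, mul_mem b1 (H.mem hs), by omega, by rw [← mul_assoc, ← b3]; group⟩
    have := H.fold hr hs (mul_mem hv m) (by omega) (by simpa [mul_assoc] using l2)
    refine ⟨u * s⁻¹ * _, mul_mem m (mul_mem (inv_mem (mul_mem (H.mem hr) (mul_mem hv m)))
      (mul_mem (mul_mem hv m) (H.mem hs))), ?_, by group⟩
    rw [H.len_dc (DC.right this _)]
    omega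

theorem longest (hn : n ∈ N) (l : ∀ r ∈ R, len B R (r * n) ≤ len B R n) {v : S} (hv : v ∈ N) :
    ∃ u ∈ N, len B R v + len B R u ≤ len B R n ∧ n = v * u := by
  induction e : len B R v generalizing v with
  | zero =>
    exact ⟨v⁻¹ * n, mul_mem (inv_mem hv) hn, by
      rw [H.len_dc (DC.left (inv_mem (H.len_zero.1 e)) n), zero_add], by group⟩
  | succ k ih =>
    obtain ⟨r, hr, d⟩ := H.desc hv (mt H.len_zero.2 (by omega))
    have a : DC B (r * (r * v)) v := mul_assoc r r v ▸ DC.left (H.sq r hr) v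
    have m := mul_mem (H.mem hr) hv
    have a1 := H.len_dc a
    obtain ⟨u, b1, b2, rfl⟩ := ih m (by omega)
    obtain ⟨u', c1, c2, c3⟩ := H.exch hr m b1 (by omega) (by omega) (l r hr)
    have t := mem_conjBy.1 (H.norm _ (inv_mem hv) ⟨H.sq r hr, N.mul_mem (H.mem hr) (H.mem hr)⟩)
    refine ⟨_ * u', mul_mem (mul_mem (mul_mem (inv_mem hv) (mul_mem (H.mem hr) (H.mem hr)))
      (inv_mem (inv_mem hv))) c1, ?_, by rw [c3]; group⟩
    rw [H.len_dc (DC.left t _)]
    omega


theorem conj_mem (hn : n ∈ N) (a : g ∈ B) (b : g ∈ N) : n * g * n⁻¹ ∈ B :=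
  mem_conjBy.1 (H.norm n hn ⟨a, b⟩)

/-- the minimal parabolic subgroups -/
def par (hr : r ∈ R) : Subgroup S where
  carrier := {g | g ∈ B ∨ DC B g r}
  one_mem' := Or.inl (one_mem _)
  mul_mem' := by
    rintro a b (c | c) (d | d)
    exacts [Or.inl (mul_mem c d), Or.inr ((DC.left c b).trans d), Or.inr ((DC.right d a).trans c),
      (H.bn' hr (H.mem hr) c d).imp_left fun e => e.mem (H.sq r hr)]
  inv_mem' := fun a => a.imp inv_mem fun b => b.inv.trans (H.dc_inv hr)

variable {β : MulAut S}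

omit H in
theorem aut_dc (hβ : ∀ g, β g ∈ B ↔ g ∈ B) (a : DC B g h) : DC B (β g) (β h) := by
  obtain ⟨c, hc, d, hd, rfl⟩ := a
  exact ⟨_, (hβ c).2 hc, _, (hβ d).2 hd, by simp⟩

omit H in
theorem aut_symm (hβ : ∀ g, β g ∈ B ↔ g ∈ B) (g : S) : β⁻¹ g ∈ B ↔ g ∈ B := by
  rw [← hβ]
  simp

theorem aut_cell (hβ : ∀ g, β g ∈ B ↔ g ∈ B) (hr : r ∈ R) : ∃ r' ∈ R, DC B (β r) r' := by
  obtain ⟨n, hn, a⟩ := H.bruhat (β r)
  obtain ⟨s, hs, b⟩ := H.desc hn fun c => H.not_mem hr ((hβ r).1 (a.mem c))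
  obtain ⟨d, hd, p, hp, q, hq, e⟩ := H.exists_down hs hn (by omega)
  have m : β⁻¹ n ∈ H.par hr := Or.inr (by simpa using aut_dc (aut_symm hβ) a.symm)
  have k : ∀ g ∈ B, β⁻¹ g ∈ H.par hr := fun g f => Or.inl ((aut_symm hβ g).2 f)
  have := mul_mem (mul_mem (mul_mem (mul_mem (k p hp) m) (k q hq)) (inv_mem m)) (inv_mem (k d hd))
  rw [← map_mul, ← map_mul, ← e, map_mul, map_mul, mul_inv_cancel_right, mul_inv_cancel_right] at this
  exact ⟨s, hs, by simpa using (aut_dc hβ (this.resolve_left fun f =>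
    H.not_mem hs ((aut_symm hβ s).1 f))).symm⟩

theorem aut_len (hβ : ∀ g, β g ∈ B ↔ g ∈ B) (g : S) : len B R (β g) = len B R g := by
  have : ∀ β : MulAut S, (∀ g, β g ∈ B ↔ g ∈ B) → ∀ k g, Gal B R k g → len B R (β g) ≤ k :=
    fun β hβ k g a => by
      induction a with
      | base c => exact (H.len_zero.2 ((hβ _).2 c)).le
      | step c d _ e =>
        obtain ⟨s, hs, f⟩ := H.aut_cell hβ d
        rw [map_mul, map_mul]
        exact (H.len_r hs ((DC.left ((hβ _).2 c) _).trans f) _).trans (by omega)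
  exact le_antisymm (this β hβ _ _ (H.gal g)) (by simpa using this _ (aut_symm hβ) _ _ (H.gal (β g)))

end BN

theorem BN.of_tits (h : IsTits B N R) : BN B N R :=
  ⟨h.1, h.2.1, h.2.2.1, fun r a => (h.2.2.2 r a).1, fun r a => (h.2.2.2 r a).2.1,
    fun r a b c n d => by
      obtain ⟨x, x1, y, y1, e⟩ := (h.2.2.2 r a).2.2 b c n d
      exact e.imp (fun e => ⟨x, x1, y, y1, e⟩) fun e => ⟨x, x1, y, y1, e⟩⟩

end Pool.Agent.MP_adf6dd_al.LT
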