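import Pool.Agent.MP_adf6dd_al.lt.SpecA

set_option autoImplicit false

namespace Pool.Agent.MP_adf6dd_al.LT

open Subgroup

namespace BlkL

variable {S Ω : Type} [Group S] {B N : Subgroup S} {R : Set S}
  {β : MulAut S →* Equiv.Perm Ω} {ω : Ω}

theorem act_mul (β : MulAut S →* Equiv.Perm Ω) (s t : S) (a : Ω) :
    β (MulAut.conj (s * t)) a = β (MulAut.conj s) (β (MulAut.conj t) a) := by
  rw [map_mul, map_mul, Equiv.Perm.mul_apply]

theorem act_aut (β : MulAut S →* Equiv.Perm Ω) (α : MulAut S) (t : S) (a : Ω) :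
    β (MulAut.conj t) (β α a) = β α (β (MulAut.conj (α⁻¹ t)) a) := by
  have e : MulAut.conj t * α = α * MulAut.conj (α⁻¹ t) := by
    ext x
    simp
  rw [← Equiv.Perm.mul_apply, ← map_mul, e, map_mul, Equiv.Perm.mul_apply]

theorem blk_map (α : MulAut S) {X : Finset Ω} (h : Blk β X) :
    Blk β (X.map (β α).toEmbedding) := by
  obtain ⟨⟨a, ha, b, hb, hab⟩, h2⟩ := h
  refine ⟨⟨_, Finset.mem_map_of_mem _ ha, _, Finset.mem_map_of_mem _ hb,
    fun e => hab ((β α).injective e)⟩, ?_⟩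
  intro t x hx hx' y hy
  obtain ⟨x, hx0, rfl⟩ := Finset.mem_map.1 hx
  obtain ⟨y, hy0, rfl⟩ := Finset.mem_map.1 hy
  obtain ⟨z, hz, e⟩ := Finset.mem_map.1 hx'
  simp only [Equiv.coe_toEmbedding] at e ⊢
  rw [act_aut] at e ⊢
  have e' := (β α).injective e
  exact Finset.mem_map.2 ⟨_, h2 (α⁻¹ t) x hx0 (e' ▸ hz) y hy0, rfl⟩

theorem eq_iff (A : Act B β ω) (g h : S) :
    β (MulAut.conj g) ω = β (MulAut.conj h) ω ↔ h⁻¹ * g ∈ B := by
  rw [← A.st, act_mul, map_inv, map_inv, Equiv.Perm.inv_eq_iff_eq]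

theorem exists_blk [Finite Ω] (H : BN B N R) (A : Act B β ω) {r : S} (hr : r ∈ R) (n : S) :
    ∃ X : Finset Ω, Blk β X ∧
      ∀ a, a ∈ X ↔ ∃ g ∈ H.par hr, a = β (MulAut.conj (n * g)) ω := by
  have hB : ∀ g ∈ B, g ∈ H.par hr := fun g hg => Or.inl hg
  let X : Finset Ω := (Set.toFinite {a | ∃ g ∈ H.par hr, a = β (MulAut.conj (n * g)) ω}).toFinset
  have hX : ∀ a, a ∈ X ↔ ∃ g ∈ H.par hr, a = β (MulAut.conj (n * g)) ω := fun a =>
    Set.Finite.mem_toFinset _
  refine ⟨X, ⟨⟨_, (hX _).2 ⟨r, Or.inr (DC.refl r), rfl⟩, _, (hX _).2 ⟨1, one_mem _, rfl⟩,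
    fun e => H.not_mem hr ?_⟩, ?_⟩, hX⟩
  · have := (eq_iff A _ _).1 e
    simpa using this
  · intro t a ha ha' b hb
    obtain ⟨g, hg, rfl⟩ := (hX _).1 ha
    obtain ⟨g', hg', e⟩ := (hX _).1 ha'
    obtain ⟨h, hh, rfl⟩ := (hX _).1 hb
    rw [← act_mul] at e
    have h1 := hB _ ((eq_iff A _ _).1 e)
    have h2 := mul_mem (mul_mem (mul_mem hg' h1) (inv_mem hg)) hh
    refine (hX _).2 ⟨_, h2, ?_⟩
    rw [← act_mul]
    congr 3
    group

end BlkL

open BlkL in
theorem blkS : BlkS := by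
  intro S Ω _ _ _ B N R β ω H hR A hex
  refine ⟨Ω, inferInstance, β, VV β, ω, ?_, A.tr, ?_, ?_, ?_⟩
  · intro α f hf X hX
    have := hf _ (blk_map α hX)
    rwa [Finset.sum_map] at this
  · obtain ⟨f, hf, h0⟩ := hex
    intro e
    rw [e, Submodule.mem_bot] at hf
    exact h0 (by rw [hf]; rfl)
  · intro f hf hinv h0
    have dc : ∀ g m, DC B g m → f (β (MulAut.conj g) ω) = f (β (MulAut.conj m) ω) := by
      rintro _ m ⟨c, hc, d, hd, rfl⟩
      rw [act_mul, act_mul, (A.st d).2 hd, hinv c ((A.st c).2 hc)]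
    have step : ∀ r ∈ R, ∀ n ∈ N, f (β (MulAut.conj n) ω) = 0 →
        f (β (MulAut.conj (n * r)) ω) = 0 := by
      intro r hr n hn h1
      obtain ⟨X, hX, hm⟩ := exists_blk H A hr n
      have h2 : ∑ a ∈ X, f a * f (β (MulAut.conj (n * r)) ω) = 0 := by
        rw [← Finset.sum_mul, hf X hX, zero_mul]
      have h3 : ∀ a ∈ X, 0 ≤ f a * f (β (MulAut.conj (n * r)) ω) := by
        intro a ha
        obtain ⟨g, hg, rfl⟩ := (hm a).1 ha
        rcases hg with hg | hg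
        · rw [dc _ _ (DC.right hg n), h1, zero_mul]
        · rcases H.bnr hr hn hg (DC.refl n) with e | e
          · rw [dc _ _ e]
            exact mul_self_nonneg _
          · rw [dc _ _ e, h1, zero_mul]
      exact mul_self_eq_zero.1 ((Finset.sum_eq_zero_iff_of_nonneg h3).1 h2 _
        ((hm _).2 ⟨r, Or.inr (DC.refl r), rfl⟩))
    have all : ∀ k, ∀ n ∈ N, len B R n = k → f (β (MulAut.conj n) ω) = 0 := by
      intro k
      induction k with
      | zero =>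
        intro n _ e
        rw [(A.st n).2 (H.len_zero.1 e), h0]
      | succ k ih =>
        intro n hn e
        obtain ⟨r, hr, d⟩ := H.desc' hn (mt H.len_zero.2 (by omega))
        have m := mul_mem hn (inv_mem (H.mem hr))
        have := step r hr _ m (ih _ m (by omega))
        rwa [inv_mul_cancel_right] at this
    funext a
    obtain ⟨t, rfl⟩ := A.tr a
    obtain ⟨n, hn, e⟩ := H.bruhat t
    rw [dc _ _ e]
    exact all _ n hn rfl
  · intro f hf hc
    obtain ⟨r, hr⟩ := hR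
    obtain ⟨X, hX, -⟩ := exists_blk H A hr 1
    have h1 := hf X hX
    obtain ⟨⟨a, ha, -⟩, -⟩ := hX
    rw [Finset.sum_congr rfl fun b _ => hc b a, Finset.sum_const, nsmul_eq_mul] at h1
    have h2 : (X.card : ℚ) ≠ 0 := by exact_mod_cast (Finset.card_pos.2 ⟨a, ha⟩).ne'
    funext b
    rw [hc b a]
    exact (mul_eq_zero.1 h1).resolve_left h2

end Pool.Agent.MP_adf6dd_al.LT
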