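import Pool.Agent.MP_adf6dd_al.lt.SpecB

set_option autoImplicit false

namespace Pool.Agent.MP_adf6dd_al.LT

open Pool.Agent.MP_983df8_al.CH

theorem cntS2 (h : GroS) : CntS := by
  intro ι Λ _ D Q F hQ k hk
  classical
  have := D.fin
  have := Fintype.ofFinite ι
  by_contra hn
  obtain ⟨l, l0, l1⟩ := F.len
  have sy : ∀ a c, D.cv a (D.rt c) ≠ 0 → D.cv c (D.rt a) ≠ 0 := fun a c e f => by
    have := l1 a c
    rw [f, zero_mul] at this
    exact mul_ne_zero e (l0 a).ne' this.symm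
  have nb : ∀ a, (Finset.univ.filter fun c => D.cv a (D.rt c) ≠ 0).card ≤ (14 * (k + 1)) ^ 2 := by
    intro a
    refine (Finset.card_le_mul_card_image_of_maps_to
      (f := fun c => (D.cv a (D.rt c), D.cv c (D.rt a)))
      (t := Finset.Icc (-3) 3 ×ˢ Finset.Icc (-3) 3) (fun c _ => ?_) (2 * k ^ 2 + 4)
      fun b _ => ?_).trans ?_
    · simp only [Finset.mem_product, Finset.mem_Icc]
      exact ⟨F.bound a c, F.bound c a⟩
    · by_contra g
      obtain ⟨c, hc⟩ := Finset.card_pos.1 ((Nat.zero_le _).trans_lt (not_le.1 g))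
      simp only [Finset.mem_filter, Finset.mem_univ, true_and] at hc
      refine hn (h ι Λ D Q F hQ k a b.1 b.2 _ (hc.2 ▸ hc.1) (fun d hd => ?_) (not_le.1 g).le)
      exact Prod.ext_iff.1 (Finset.mem_filter.1 hd).2
    · have : (Finset.Icc (-3 : ℤ) 3 ×ˢ Finset.Icc (-3 : ℤ) 3).card = 49 := by simp
      rw [this]
      nlinarith [Nat.zero_le k]
  obtain ⟨o, -⟩ := F.top
  have st : ∀ d d', D.cv d (D.rt d') ≠ 0 → (∃ c, D.cv o (D.rt c) ≠ 0 ∧ D.cv c (D.rt d) ≠ 0) →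
      ∃ c, D.cv o (D.rt c) ≠ 0 ∧ D.cv c (D.rt d') ≠ 0 := by
    rintro d d' e ⟨c, c1, c2⟩
    by_cases a1 : D.cv o (D.rt d) = 0
    · by_cases a2 : D.cv c (D.rt d') = 0
      · refine ⟨D.rf d c, ?_, ?_⟩
        · simpa [D.rt_rf, a1] using c1
        · simpa [D.cv_rf, a2] using ⟨c2, e⟩
      · exact ⟨c, c1, a2⟩
    · exact ⟨d, a1, e⟩
  have all : ∀ d, ∃ c, D.cv o (D.rt c) ≠ 0 ∧ D.cv c (D.rt d) ≠ 0 := fun d => by
    have := F.cls (fun d => if ∃ c, D.cv o (D.rt c) ≠ 0 ∧ D.cv c (D.rt d) ≠ 0 then 1 else 0)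
      (fun a c e => if_congr ⟨st a c e, st c a (sy _ _ e)⟩ rfl rfl) o d
    by_contra g
    simp only [if_neg g] at this
    rw [if_pos ⟨o, by simp [D.two], by simp [D.two]⟩] at this
    exact one_ne_zero this
  refine hk.not_ge ?_
  rw [Nat.card_eq_fintype_card, ← Finset.card_univ]
  refine (Finset.card_le_card (t := (Finset.univ.filter fun c => D.cv o (D.rt c) ≠ 0).biUnion
    fun c => Finset.univ.filter fun d => D.cv c (D.rt d) ≠ 0) fun d _ => ?_).trans ?_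
  · obtain ⟨c, c1, c2⟩ := all d
    simp only [Finset.mem_biUnion, Finset.mem_filter, Finset.mem_univ, true_and]
    exact ⟨c, c1, c2⟩
  · refine (Finset.card_biUnion_le_card_mul _ _ _ fun c _ => nb c).trans ?_
    exact (Nat.mul_le_mul_right _ (nb o)).trans_eq (by ring)

end Pool.Agent.MP_adf6dd_al.LT
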