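import Pool.Agent.MP_adf6dd_al.lt.SpecA

/-! Row COR: the scalars are roots of the characteristic polynomial of a conjugation. -/

set_option autoImplicit false

namespace Pool.Agent.MP_adf6dd_al.LT

open Subgroup Multiplicative

namespace Cor

/-- a filtration for commuting nilpotent elements -/
theorem fil {A F : Type} [Ring A] [Finite A] (y : F → A) (hc : ∀ s t, y s * y t = y t * y s)
    (hn : ∀ s, IsNilpotent (y s)) : ∃ (J : ℕ → AddSubgroup A) (M : ℕ),
      (∀ x, x ∈ J 0) ∧ (∀ x ∈ J M, x = 0) ∧ ∀ k s, ∀ x ∈ J k, y s * x ∈ J (k + 1) := by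
  have hm : IsMulCommutative (Subring.closure (Set.range y)) :=
    Subring.isMulCommutative_closure (by
      rintro _ ⟨s, rfl⟩ _ ⟨t, rfl⟩
      exact hc s t)
  let _ : CommRing (Subring.closure (Set.range y)) :=
    { (Subring.closure (Set.range y)).toRing with mul_comm := hm.is_comm.comm }
  obtain ⟨M, hM⟩ := IsNoetherianRing.isNilpotent_nilradical (Subring.closure (Set.range y))
  refine ⟨fun k => (nilradical (Subring.closure (Set.range y)) ^ k •
    (⊤ : Submodule (Subring.closure (Set.range y)) A)).toAddSubgroup, M, fun x => ?_,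
    fun x hx => ?_, fun k s x hx => ?_⟩
  · simp
  · simpa [hM] using hx
  · obtain ⟨n, h⟩ := hn s
    have h1 : (⟨y s, Subring.subset_closure ⟨s, rfl⟩⟩ : Subring.closure (Set.range y)) ∈
        nilradical (Subring.closure (Set.range y)) := ⟨n, Subtype.ext h⟩
    have h2 := Submodule.smul_mem_smul h1 ((Submodule.mem_toAddSubgroup _).1 hx)
    rw [← Submodule.mul_smul, ← pow_succ'] at h2
    exact h2

/-- conjugation by a unit -/
def cj (p : ℕ) {A : Type} [Ring A] [Algebra (ZMod p) A] (u : Aˣ) : Module.End (ZMod p) A where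
  toFun x := u * x * (u⁻¹ : Aˣ)
  map_add' x y := by rw [mul_add, add_mul]
  map_smul' c x := by simp

end Cor

theorem corS : CorS := by
  intro p _ A _ _ _ F _ _ u
  let _ := ZMod.algebra A p
  have hp : p.Prime := Fact.out
  let P := (Cor.cj p u).charpoly
  have hP : P.Monic := LinearMap.charpoly_monic _
  refine ⟨P.map (ZMod.castHom dvd_rfl F), (hP.map _).ne_zero, ?_, fun j ν hj hν => ?_⟩
  · rw [hP.natDegree_map, LinearMap.charpoly_natDegree,
      Module.natCard_eq_pow_finrank (K := ZMod p) (V := A), Nat.card_zmod]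
    exact Nat.pow_le_pow_left hp.two_le _
  by_contra hr
  let y : F → A := fun t => j (ofAdd t) - 1
  have ya : ∀ s t, y (s + t) = y s + y t + y s * y t := fun s t => by
    simp only [y, ofAdd_add, map_mul]
    noncomm_ring
  obtain ⟨J, M, h0, hM, hJ⟩ := Cor.fil y (fun s t => by
      have := ya s t
      rw [add_comm s, ya, add_comm (y t)] at this
      exact (add_left_cancel this).symm) fun s => ⟨p, by
    simp only [y]
    rw [sub_pow_char_of_commute p (Commute.one_right _), ← map_pow, ← ofAdd_nsmul, nsmul_eq_mul,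
      CharP.cast_eq_zero, zero_mul, ofAdd_zero, map_one, one_pow, sub_self]⟩
  have yc : ∀ (i : ℕ) t, (Cor.cj p u ^ i) (y t) = y (ν ^ i * t) := fun i t => by
    induction i with
    | zero => simp
    | succ i ih =>
      rw [pow_succ', Module.End.mul_apply, ih, pow_succ', mul_assoc]
      change u * (j _ - 1) * (u⁻¹ : Aˣ) = j _ - 1
      rw [mul_sub, sub_mul, hν, mul_one, Units.mul_inv]
  have key : ∀ k t, y t ∈ J k := by
    intro k
    induction k with
    | zero => exact fun t => h0 _
    | succ k ih =>
      let f : F →+ A ⧸ J (k + 1) := AddMonoidHom.mk' (fun t => QuotientAddGroup.mk (y t))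
        fun s t => by
          rw [ya, QuotientAddGroup.mk_add, QuotientAddGroup.mk_add,
            (QuotientAddGroup.eq_zero_iff _).2 (hJ k s _ (ih t)), add_zero]
      have h1 : ∀ t, f ((P.map (ZMod.castHom dvd_rfl F)).eval ν * t) = 0 := fun t => by
        have e := LinearMap.congr_fun (LinearMap.aeval_self_charpoly (Cor.cj p u)) (y t)
        rw [Polynomial.aeval_eq_sum_range, LinearMap.sum_apply, LinearMap.zero_apply] at e
        rw [Polynomial.eval_map, Polynomial.eval₂_eq_sum_range, Finset.sum_mul, map_sum,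
          ← map_zero (QuotientAddGroup.mk' (J (k + 1))), ← e, map_sum]
        refine Finset.sum_congr rfl fun i _ => ?_
        rw [← ZMod.natCast_zmod_val (P.coeff i), map_natCast, mul_assoc, ← nsmul_eq_mul, map_nsmul,
          LinearMap.smul_apply, Nat.cast_smul_eq_nsmul, map_nsmul, yc]
        rfl
      intro t
      have h2 := h1 (((P.map (ZMod.castHom dvd_rfl F)).eval ν)⁻¹ * t)
      rw [mul_inv_cancel_left₀ hr] at h2
      exact (QuotientAddGroup.eq_zero_iff _).1 h2
  have h3 : j (ofAdd 1) = j 1 := (sub_eq_zero.1 (hM _ (key M 1))).trans (map_one j).symm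
  exact one_ne_zero (ofAdd_eq_one.1 (hj h3))

end Pool.Agent.MP_adf6dd_al.LT
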