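import Mathlib
import Pool.Agent.MP_983df8_al.Defs12

set_option autoImplicit false

namespace Pool.Agent.MP_adf6dd_al

open Pool.Agent.MP_983df8_al

/-- `H` is a group, and `T` is the group of fixed points of an involution of `H` that permutes the
root subgroups, fixing none; the root elements are the `x a t`, and `r a` is the root -/
def IsRee {ι M K A : Type} [AddCommGroup M] [Field K] [Monoid A] (r : ι → M) (pos : ι → Prop)
    (x : ι → K → A) (H : Submonoid A) (T : Type) [Group T] : Prop :=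
  ∃ (S : Type) (_ : Group S) (φ : S ≃* H) (σ : MulAut S) (ρ : Equiv.Perm ι) (ψ : ι → K → K),
    σ * σ = 1 ∧ (∀ a t g, (φ g).1 = x a t → (φ (σ g)).1 = x (ρ a) (ψ a t)) ∧
    (∀ a, ρ a ≠ a ∧ (pos (ρ a) ↔ pos a) ∧ ∀ c, r c = -r a →
      r (ρ c) = -r (ρ a) ∧ ∀ t, t ≠ 0 → ψ a t * ψ c (-t⁻¹) = -1) ∧
    Nonempty (T ≃* σ.toMonoidHom.eqLocus (MonoidHom.id S))

/-- an irreducible root system of rank at least two, a Chevalley basis of `L` with the divided
powers of its adjoint maps, a graph and a field automorphism of one order, at most three; `H` is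
the Chevalley or Steinberg group of these data, and `T` is `H` or, for untwisted `H` of rank at
most four, the group of fixed points of an involution as in `IsRee` -/
def LieOn (ι M N L K : Type) [Finite ι] [AddCommGroup M] [Module ℚ M] [AddCommGroup N] [Module ℚ N]
    [LieRing L] [Field K] (T : Type) [Group T] : Prop :=
  ∃ (P : RootPairing ι ℚ M N) (_ : P.IsCrystallographic) (b : P.Base) (e h : ι → L)
    (d : ι → ℕ → Module.End ℤ L) (τ : Equiv.Perm ι) (γ : L ≃ₗ⁅ℤ⁆ L) (θ : RingAut K)
    (H : Submonoid (Module.End K (TensorProduct ℤ K L))),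
    P.IsRootSystem ∧ P.IsReduced ∧ P.IsIrreducible ∧ 1 < b.support.card ∧ IsChevBasis P b e h ∧
    (∀ a k, k.factorial • d a k = LieAlgebra.ad ℤ L (e a) ^ k) ∧
    (∀ a, γ (e a) = e (τ a) ∨ γ (e a) = -e (τ a)) ∧
    (∀ i ∈ b.support, τ i ∈ b.support ∧ γ (e i) = e (τ i)) ∧
    orderOf τ = orderOf θ ∧ orderOf θ ≤ 3 ∧
    H = twisted (fun a => xr K (d a)) b.IsPos
      (TensorProduct.map θ.toAddMonoidHom.toIntLinearMap γ.toLinearMap) ∧
    (Nonempty (T ≃* H) ∨
      θ = 1 ∧ b.support.card ≤ 4 ∧ IsRee P.root b.IsPos (fun a => xr K (d a)) H T)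

/-- `T` is a Chevalley, Steinberg, Suzuki or Ree group, for an irreducible root system of rank at
least two over a finite field -/
def LieT (T : Type) [Group T] : Prop :=
  ∃ (ι M N L K : Type) (_ : Finite ι) (_ : AddCommGroup M) (_ : Module ℚ M) (_ : AddCommGroup N)
    (_ : Module ℚ N) (_ : LieRing L) (_ : Field K) (_ : Finite K), LieOn ι M N L K T

end Pool.Agent.MP_adf6dd_al
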