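import Pool.Agent.MP_adf6dd_al.lt.SpecB

/-! A root of the same length meets all but a few members of a clique at one angle. -/

set_option autoImplicit false

namespace Pool.Agent.MP_adf6dd_al.LT

open Finset Pool.Agent.MP_983df8_al Pool.Agent.MP_983df8_al.CH

namespace Exc

variable {ι Λ : Type} [AddCommGroup Λ] {D : RD ι Λ} {Q : Λ →+ Λ →+ ℤ} {X : Finset ι} {d : ι}

lemma pair [DecidableEq ι] (hF : Form D Q) (hX : Cq D X)
    (hd : ∀ i ∈ X, Q (D.rt d) (D.rt d) = Q (D.rt i) (D.rt i)) {A B : Finset ι} (hA : A ⊆ X)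
    (hB : B ⊆ X) : 2 * Q (∑ i ∈ A, D.rt i) (∑ j ∈ B, D.rt j) =
      (A.card * B.card + (A ∩ B).card) * Q (D.rt d) (D.rt d) := by
  have e : ∀ i ∈ A, 2 * Q (D.rt i) (∑ j ∈ B, D.rt j) =
      (B.card + if i ∈ B then 1 else 0) * Q (D.rt d) (D.rt d) := by
    intro i hi
    rw [hF.rt, ← hd i (hA hi), map_sum, sum_congr rfl
      (g := fun j => 1 + if i = j then (1 : ℤ) else 0) fun j hj => by
        split_ifs with r
        · rw [← r, D.two]
          rfl
        · rw [hX i (hA hi) j (hB hj) r]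
          rfl]
    simp [sum_add_distrib]
  rw [map_sum Q, AddMonoidHom.finset_sum_apply, mul_sum, sum_congr rfl e, ← sum_mul,
    sum_add_distrib]
  simp [filter_mem_eq_inter]

lemma ang (hF : Form D Q) (hd : ∀ i ∈ X, Q (D.rt d) (D.rt d) = Q (D.rt i) (D.rt i))
    {A : Finset ι} (hA : A ⊆ X) {α : ℤ} (h : ∀ i ∈ A, D.cv i (D.rt d) = α) :
    2 * Q (∑ i ∈ A, D.rt i) (D.rt d) = A.card * α * Q (D.rt d) (D.rt d) := by
  rw [map_sum Q, AddMonoidHom.finset_sum_apply, mul_sum, sum_congr rfl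
    (g := fun _ => α * Q (D.rt d) (D.rt d)) fun i hi => by rw [hF.rt, h i hi, ← hd i (hA hi)]]
  simp [mul_assoc]

lemma two (hF : Form D Q) (hX : Cq D X)
    (hd : ∀ i ∈ X, Q (D.rt d) (D.rt d) = Q (D.rt i) (D.rt i)) {α β : ℤ}
    (ha : 5 ≤ (X.filter fun i => D.cv i (D.rt d) = α).card)
    (hb : 5 ≤ (X.filter fun i => D.cv i (D.rt d) = β).card) : α = β := by
  classical
  by_contra ne
  obtain ⟨I, i1, i2⟩ := exists_subset_card_eq ha
  obtain ⟨J, j1, j2⟩ := exists_subset_card_eq hb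
  have iX := i1.trans (filter_subset _ _)
  have jX := j1.trans (filter_subset _ _)
  have dj : I ∩ J = ∅ := eq_empty_of_forall_notMem fun i hi =>
    ne ((mem_filter.1 (i1 (mem_inter.1 hi).1)).2.symm.trans (mem_filter.1 (j1 (mem_inter.1 hi).2)).2)
  have a1 := pair hF hX hd iX iX
  have a2 := pair hF hX hd jX jX
  have a3 := pair hF hX hd iX jX
  have a4 := ang hF hd iX fun i hi => (mem_filter.1 (i1 hi)).2
  have a5 := ang hF hd jX fun i hi => (mem_filter.1 (j1 hi)).2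
  have a6 := hF.symm (∑ i ∈ J, D.rt i) (∑ i ∈ I, D.rt i)
  have a7 := hF.cs (∑ i ∈ I, D.rt i - ∑ i ∈ J, D.rt i) (D.rt d)
  have a8 := hF.pos d
  rw [inter_self, i2] at a1
  rw [inter_self, j2] at a2
  rw [dj, i2, j2, card_empty] at a3
  rw [i2] at a4
  rw [j2] at a5
  simp only [map_sub, AddMonoidHom.sub_apply] at a7
  push_cast at a1 a2 a3 a4 a5
  generalize Q (D.rt d) (D.rt d) = L at *
  generalize Q (∑ i ∈ I, D.rt i) (D.rt d) = p at *
  generalize Q (∑ i ∈ J, D.rt i) (D.rt d) = q at *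
  have b1 : (2 * p - 2 * q) ^ 2 ≤ 20 * (L * L) := by nlinarith
  have b2 : 1 ≤ (α - β) ^ 2 := by
    have := sq_pos_of_ne_zero (sub_ne_zero.2 ne)
    omega
  have b3 := mul_pos a8 a8
  rw [a4, a5] at b1
  nlinarith

end Exc

theorem excS : ExcS := by
  intro ι Λ _ D Q hR hF X d hX hd
  obtain ⟨c, c1, c2⟩ : ∃ c ∈ Icc (-3 : ℤ) 3, ∀ b, b ≠ c →
      (X.filter fun i => D.cv i (D.rt d) = b).card ≤ 4 := by
    by_cases e : ∃ c, 5 ≤ (X.filter fun i => D.cv i (D.rt d) = c).card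
    · obtain ⟨c, hc⟩ := e
      obtain ⟨i, hi⟩ := card_pos.1 (lt_of_lt_of_le (by norm_num) hc)
      refine ⟨c, mem_Icc.2 ((mem_filter.1 hi).2 ▸ hR.bound i d), fun b hb => ?_⟩
      by_contra k
      exact hb (Exc.two hF hX hd (by omega) hc)
    · refine ⟨0, by simp, fun b _ => ?_⟩
      by_contra k
      exact e ⟨b, by omega⟩
  refine ⟨c, (mem_Icc.1 c1).1, (mem_Icc.1 c1).2, ?_⟩
  refine (card_le_mul_card_image_of_maps_to (f := fun i => D.cv i (D.rt d))
    (t := (Icc (-3 : ℤ) 3).erase c) (fun i hi => mem_erase.2 ⟨(mem_filter.1 hi).2,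
      mem_Icc.2 (hR.bound i d)⟩) 4 fun b hb => ?_).trans ?_
  · refine le_trans (card_le_card fun i hi => ?_) (c2 b (mem_erase.1 hb).1)
    exact mem_filter.2 ⟨(mem_filter.1 (mem_filter.1 hi).1).1, (mem_filter.1 hi).2⟩
  · rw [card_erase_of_mem c1]
    simp

end Pool.Agent.MP_adf6dd_al.LT
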