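import Pool.Agent.MP_adf6dd_al.lt.SpecA

/-! The fixed points of an involution of a BN-pair form a BN-pair. -/

set_option autoImplicit false

namespace Pool.Agent.MP_adf6dd_al.LT

open Subgroup

namespace FixAux

variable {S : Type} [Group S] {B N : Subgroup S} {R J : Set S} {σ : MulAut S} {r : S}

theorem nj_le (H : BN B N R) (hJ : J ⊆ R) : closure J ⊔ B ⊓ N ≤ N :=
  sup_le ((closure_le N).2 fun _ a => H.mem (hJ a)) inf_le_right

theorem in_nj (h : ParS) (H : BN B N R) (hJ : J ⊆ R) {n : S} (hn : n ∈ N)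
    (a : n ∈ closure J ⊔ B) : n ∈ closure J ⊔ B ⊓ N := by
  obtain ⟨m, hm, c⟩ := (h S B N R J H hJ).1 n a 1 (one_mem _) 1 (DC.refl _)
  rw [mul_one, mul_one] at c
  have m1 := nj_le H hJ hm
  have e : m⁻¹ * n ∈ B ⊓ N := ⟨H.uniq m1 hn c, N.mul_mem (N.inv_mem m1) hn⟩
  simpa using mul_mem hm (mem_sup_right e)

theorem key (H : BN B N R) (hB : ∀ g, σ g ∈ B ↔ g ∈ B) (hN : ∀ g, σ g ∈ N ↔ g ∈ N)
    (hr : r ∈ R) : ∃ J ⊆ R, closure {r, σ r} ⊔ B ≤ closure J ⊔ B ∧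
      (∀ n ∈ N, σ n = n → ∀ s ∈ J, len B R (s * n) = len B R (r * n)) ∧
      closure J ⊔ B ≤ closure {r, σ r} ⊔ B := by
  obtain ⟨r', hr', a⟩ := H.aut_cell hB hr
  have s1 : σ r ∈ N := (hN r).2 (H.mem hr)
  have t := H.uniq (H.mem hr') s1 a
  refine ⟨{r, r'}, ?_, sup_le ((closure_le _).2 ?_) le_sup_right, ?_,
    sup_le ((closure_le _).2 ?_) le_sup_right⟩
  · rintro s (rfl | rfl) <;> assumption
  · rintro s (rfl | rfl)
    · exact mem_sup_left (subset_closure (Or.inl rfl))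
    · have b : r' ∈ closure ({r, r'} : Set S) := subset_closure (Or.inr rfl)
      simpa using mul_mem (mem_sup_left (T := B) b) (mem_sup_right t)
  · rintro n hn e s (rfl | rfl)
    · rfl
    · have c := H.conj_mem (inv_mem hn) t (N.mul_mem (N.inv_mem (H.mem hr')) s1)
      have d := H.len_dc (DC.right c (s * n))
      have f : s * n * (n⁻¹ * (s⁻¹ * σ r) * n⁻¹⁻¹) = σ (r * n) := by
        rw [map_mul, e]
        group
      rw [← d, f, H.aut_len hB]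
  · rintro s (rfl | rfl)
    · exact mem_sup_left (subset_closure (Or.inl rfl))
    · have b : σ r ∈ closure ({r, σ r} : Set S) := subset_closure (Or.inr rfl)
      have c := H.swap (H.mem hr') s1 t
      simpa using mul_mem (inv_mem (mem_sup_right c)) (mem_sup_left (T := B) b)

theorem same (h : ParS) (H : BN B N R) (hB : ∀ g, σ g ∈ B ↔ g ∈ B)
    (hN : ∀ g, σ g ∈ N ↔ g ∈ N) (hr : r ∈ R) {m m' : S} (a1 : m ∈ N) (a2 : σ m = m)
    (a3 : m ∈ closure {r, σ r} ⊔ B) (a4 : m ∉ B) (b1 : m' ∈ N) (b2 : σ m' = m')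
    (b3 : m' ∈ closure {r, σ r} ⊔ B) (b4 : m' ∉ B) : m'⁻¹ * m ∈ B := by
  obtain ⟨J, hJ, k1, k2, -⟩ := key H hB hN hr
  obtain ⟨-, p2, p3⟩ := h S B N R J H hJ
  have d : ∀ x ∈ N, σ x = x → x ∈ closure {r, σ r} ⊔ B → x ∉ B →
      ∀ s ∈ J, len B R (s * x) ≤ len B R x := fun x c1 c2 c3 c4 s hs => by
    obtain ⟨s', hs', e⟩ := p2 x (in_nj h H hJ c1 (k1 c3)) c4
    have := k2 x c1 c2 s hs
    have := k2 x c1 c2 s' hs'
    omega
  obtain ⟨u, -, l1, e1⟩ := p3 m a1 (d m a1 a2 a3 a4) m' (in_nj h H hJ b1 (k1 b3))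
  obtain ⟨u', -, l2, -⟩ := p3 m' b1 (d m' b1 b2 b3 b4) m (in_nj h H hJ a1 (k1 a3))
  have : u ∈ B := H.len_zero.1 (by omega)
  rw [e1]
  simpa using this

end FixAux

open FixAux

theorem fixS (h : ParS) : FixS := by
  intro S _ B N R σ H _ hB hN h1 h2 h3 ne
  have fm : ∀ {g : S}, σ g = g → g ∈ fx σ := fun a => a
  have mf : ∀ g : fx σ, σ g = g := fun g => g.2
  have ex : ∀ r ∈ R, ∃ n ∈ N, σ n = n ∧ n ∉ B ∧ n ∈ closure {r, σ r} ⊔ B := fun r hr => by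
    obtain ⟨v, v1, v2, v3⟩ := h2 r hr
    obtain ⟨b, b1, n, n1, c, c1, -, n2, -, e⟩ := h1 v v2
    refine ⟨n, n1, n2, fun a => v3 (e ▸ mul_mem (mul_mem b1 a) c1), ?_⟩
    have := mul_mem (mul_mem (inv_mem (mem_sup_right b1)) v1) (inv_mem (mem_sup_right c1))
    rw [e] at this
    simpa [mul_assoc] using this
  refine ⟨{x | (x : S) ∈ N ∧ (x : S) ∉ B ∧ ∃ r ∈ R, (x : S) ∈ closure {r, σ r} ⊔ B}, ?_,
    ?_, ?_, ?_, ?_, ?_, ?_⟩
  · obtain ⟨r, hr⟩ := ne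
    obtain ⟨n, n1, n2, n3, n4⟩ := ex r hr
    exact ⟨⟨n, fm n2⟩, n1, n3, r, hr, n4⟩
  · refine eq_top_iff.2 fun g _ => ?_
    obtain ⟨b, b1, n, n1, c, c1, b2, n2, c2, e⟩ := h1 g (mf g)
    have : g = ⟨b, fm b2⟩ * ⟨n, fm n2⟩ * ⟨c, fm c2⟩ := Subtype.ext e
    rw [this]
    exact mul_mem (mul_mem (mem_sup_left (mem_subgroupOf.2 b1)) (mem_sup_right
      (mem_subgroupOf.2 n1))) (mem_sup_left (mem_subgroupOf.2 c1))
  · intro n hn x hx
    exact mem_conjBy.2 (mem_subgroupOf.2 (H.conj_mem (mem_subgroupOf.1 hn)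
      (mem_subgroupOf.1 hx.1) (mem_subgroupOf.1 hx.2)))
  · refine le_antisymm (sup_le ((closure_le _).2 fun x a => mem_subgroupOf.2 a.1) inf_le_right) ?_
    intro n hn
    rw [mem_subgroupOf] at hn
    induction e : len B R (n : S) using Nat.strong_induction_on generalizing n with
    | _ k ih =>
      by_cases c : (n : S) ∈ B
      · exact mem_sup_right ⟨mem_subgroupOf.2 c, mem_subgroupOf.2 hn⟩
      obtain ⟨r, hr, d⟩ := H.desc hn c
      obtain ⟨m, m1, m2, m3, m4⟩ := ex r hr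
      obtain ⟨J, hJ, k1, k2, -⟩ := key H hB hN hr
      obtain ⟨u, u1, l, e1⟩ := (h S B N R J H hJ).2.2 n hn (fun s hs => by
        have := k2 n hn (mf n) s hs
        omega) m (in_nj h H hJ m1 (k1 m4))
      have z := mt H.len_zero.1 m3
      have f : (((⟨m, fm m2⟩ : fx σ)⁻¹ * n : fx σ) : S) = u := by
        simp [e1]
      have i := ih (len B R u) (by omega) (n := (⟨m, fm m2⟩ : fx σ)⁻¹ * n) (f ▸ u1) (by rw [f])
      have j : (⟨m, fm m2⟩ : fx σ) ∈ closure {x : fx σ | (x : S) ∈ N ∧ (x : S) ∉ B ∧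
          ∃ r ∈ R, (x : S) ∈ closure {r, σ r} ⊔ B} := subset_closure ⟨m1, m3, r, hr, m4⟩
      simpa only [mul_inv_cancel_left] using mul_mem (mem_sup_left j) i
  · rintro x ⟨x1, x2, r, hr, x3⟩
    have := same h H hB hN hr x1 (mf x) x3 x2 (inv_mem x1) (mf x⁻¹) (inv_mem x3)
      (mt inv_mem_iff.1 x2)
    rw [inv_inv] at this
    exact mem_subgroupOf.2 this
  · rintro x ⟨x1, x2, -⟩ a
    obtain ⟨u, u1, u2, u3⟩ := h3 x x1 (mf x) x2
    exact u3 (mem_subgroupOf.1 (mem_conjBy.1 (a (x := ⟨u, fm u2⟩) (mem_subgroupOf.2 u1))))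
  · rintro x ⟨x1, x2, r, hr, x3⟩ b hb n hn
    rw [mem_subgroupOf] at hb hn
    obtain ⟨c, c1, n', n1, d, d1, c2, n2, d2, e⟩ := h1 _ (mf (x * b * n))
    obtain ⟨J, hJ, k1, -, k3⟩ := key H hB hN hr
    have e' : (x : S) * b * n = c * n' * d := e
    obtain ⟨m, hm, o⟩ := (h S B N R J H hJ).1 _ (mul_mem (k1 x3) (mem_sup_right hb)) n hn n
      (DC.refl _)
    have m1 := mul_mem (nj_le H hJ hm) hn
    have o1 : DC B n' (m * n) := (DC.symm ⟨c, c1, d, d1, e'⟩).trans o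
    have o2 := H.swap m1 n1 (H.uniq m1 n1 o1)
    have m2 : m ∈ closure J ⊔ B :=
      (sup_le le_sup_left (inf_le_left.trans le_sup_right) : closure J ⊔ B ⊓ N ≤ closure J ⊔ B) hm
    have w1 : n' * (n : S)⁻¹ ∈ closure {r, σ r} ⊔ B := by
      simpa [mul_assoc] using mul_mem (mem_sup_right o2) (k3 m2)
    have w2 : n' * (n : S)⁻¹ ∈ N := mul_mem n1 (inv_mem hn)
    have w3 : σ (n' * (n : S)⁻¹) = n' * (n : S)⁻¹ := by rw [map_mul, map_inv, n2, mf n]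
    by_cases w : n' * (n : S)⁻¹ ∈ B
    · refine Or.inr ⟨⟨c, fm c2⟩ * ⟨_, fm w3⟩, mem_subgroupOf.2 (mul_mem c1 w), ⟨d, fm d2⟩,
        mem_subgroupOf.2 d1, Subtype.ext ?_⟩
      show (x : S) * b * n = c * (n' * (n : S)⁻¹) * n * d
      rw [e']
      group
    · have y := H.swap x1 w2 (same h H hB hN hr w2 w3 w1 w x1 (mf x) x3 x2)
      refine Or.inl ⟨⟨c, fm c2⟩ * (⟨_, fm w3⟩ * x⁻¹), mem_subgroupOf.2 (mul_mem c1 y), ⟨d, fm d2⟩,
        mem_subgroupOf.2 d1, Subtype.ext ?_⟩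
      show (x : S) * b * n = c * (n' * (n : S)⁻¹ * (x : S)⁻¹) * (x * n) * d
      rw [e']
      group

end Pool.Agent.MP_adf6dd_al.LT
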