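import Pool.Agent.MP_adf6dd_al.lt.SpecB

/-! The frame of root subgroups when the clique is fixed by the symmetry. -/

set_option autoImplicit false

namespace Pool.Agent.MP_adf6dd_al.LT

open Subgroup Module Pool.Agent.MP_983df8_al Pool.Agent.MP_983df8_al.CH

namespace Frf

variable {ι Λ K V : Type} [AddCommGroup Λ] [Field K] [LieRing V] [LieAlgebra K V] {D : RD ι Λ}
  {C : CG D K V}

theorem fix {c : ι} {t : K} (h : C.τ c = c) (e : C.ε c * C.θ t = t) : C.x c t ∈ C.Fix := by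
  rw [C.mem_Fix, C.σ_x, h, e]

theorem mem (F : Fa C) {c : ι} {t : K} (h : C.τ c = c) (e : C.ε c * C.θ t = t) :
    C.x c t ∈ C.G1 := by
  by_cases hp : D.pos c
  · exact mem_sup_left (mem_inf.2 ⟨C.x_mem (Ψ := {a | 1 ≤ D.ht (D.rt a)}) hp t, fix h e⟩)
  · exact mem_sup_right (mem_inf.2 ⟨C.x_mem (Ψ := {a | 1 ≤ (-D.ht) (D.rt a)})
      ((F.r.r.neg_ht c).2 hp) t, fix h e⟩)

theorem scal {c : ι} {w s : K} (e : C.ε c * C.θ w = w) (hs : C.θ s = s) :
    C.ε c * C.θ (w * s) = w * s := by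
  rw [map_mul, ← mul_assoc, e, hs]

theorem unfix (F : Fa C) {c : ι} {t : K} (h : C.τ c = c) (e : C.x c t ∈ C.Fix) :
    C.ε c * C.θ t = t := by
  rw [C.mem_Fix, C.σ_x, h] at e
  exact F.u1.x_inj _ _ _ e

theorem quo {c : ι} {w z : K} (e : C.ε c * C.θ w = w) (e' : C.ε c * C.θ z = z) :
    C.θ (w / z) = w / z := by
  have h : C.ε c ≠ 0 := by rcases C.ε_val c with h | h <;> simp [h]
  rw [map_div₀, ← mul_div_mul_left _ _ h, e, e']

end Frf

open Frf

theorem frfS : FrfS := by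
  intro ι Λ K V _ _ _ _ D C F S _ f hf p _ k b hb hr hτ
  have := C.fin
  let K0 : Subfield K := RingHom.eqLocusField (C.θ : K →+* K) (RingHom.id K)
  have hK : ∀ s : K0, C.θ (s : K) = s := fun s => s.2
  have lift : ∀ (c : ι) (t : K), C.τ c = c → C.ε c * C.θ t = t → ∃ g, f g = C.x c t :=
    fun c t h e => MonoidHom.mem_range.1 (hf.range ▸ mem F h e)
  choose w w0 hw using fun i => F.b1.fixr (b i) (hτ i)
  choose ξ hξ using fun (i : Fin k) (s : K0) => lift (b i) (w i * s) (hτ i) (scal (hw i) (hK s))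
  refine ⟨K0, inferInstance, inferInstance, K0.subtype.charP K0.subtype_injective p, ξ,
    fun i s t => hf.inj ?_, fun i j s t => hf.inj ?_, fun i h => w0 i ?_, fun i j hij t => ?_⟩
  · rw [map_mul, hξ, hξ, hξ, ← C.x_add, Subfield.coe_add, mul_add]
  · rw [map_mul, map_mul, hξ, hξ]
    exact hr.bb i j _ _
  · have e := hξ i 1
    rw [h, map_one, ← C.x_zero (b i), Subfield.coe_one, mul_one] at e
    exact (F.u1.x_inj _ _ _ e).symm
  have e1 : D.rt (b i) = D.rt (D.rf (b j) (b i)) + D.rt (b j) := by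
    rw [D.rt_rf, hb j i hij.symm, one_smul, sub_add_cancel]
  have hτr : C.τ (D.rf (b j) (b i)) = D.rf (b j) (b i) := D.inj (by
    have e2 := F.r.s.add _ _ _ e1
    rw [hτ, hτ, e1] at e2
    exact (add_right_cancel e2).symm)
  obtain ⟨v, v0, hv⟩ := F.b1.fixr _ hτr
  obtain ⟨ν, n1, n2⟩ := hr.rj i j hij
  have n0 : ν ≠ 0 := fun h => by simp [h] at n1
  have hz : C.ε (b i) * C.θ (ν * v * w j) = ν * v * w j := unfix F (hτ i) (by
    rw [← mul_inv_eq_iff_eq_mul.2 (n2 v (w j))]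
    exact mul_mem (mul_mem (mul_mem (fix hτr hv) (fix (hτ j) (hw j))) (inv_mem (fix hτr hv)))
      (inv_mem (fix (hτ j) (hw j))))
  obtain ⟨y, hy⟩ := lift _ (v * (w i / (ν * v * w j) * t)) hτr
    (scal hv (by rw [map_mul, quo (hw i) hz, hK]))
  refine ⟨y, fun u => hf.inj ?_, fun m hm u => hf.inj ?_⟩
  · rw [map_mul, map_mul, map_mul, map_inv, hy, hξ, hξ, n2, Subfield.coe_mul]
    congr 2
    have := w0 j
    field_simp
  · rw [map_mul, map_mul, map_inv, hy, hξ, (hr.rm i j m hij hm _ _).eq, mul_inv_cancel_right]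

end Pool.Agent.MP_adf6dd_al.LT
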