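import Pool.Agent.MP_adf6dd_al.lt.SpecB

/-! The invariant form, the count of roots in small rank, and disjoint root subgroups. -/

set_option autoImplicit false

namespace Pool.Agent.MP_adf6dd_al.LT

open Subgroup Module Pool.Agent.MP_983df8_al Pool.Agent.MP_983df8_al.CH

namespace Frmx

variable {ι Λ : Type} [AddCommGroup Λ]

/-- the sum of the products of all coroots -/
def QQ (D : RD ι Λ) [Fintype ι] : Λ →+ Λ →+ ℤ :=
  AddMonoidHom.mk' (fun x => AddMonoidHom.mk' (fun y => ∑ d, D.cv d x * D.cv d y)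
    (fun a b => by simp [mul_add, Finset.sum_add_distrib]))
    (fun a b => AddMonoidHom.ext fun y => by simp [add_mul, Finset.sum_add_distrib])

theorem QQ_apply (D : RD ι Λ) [Fintype ι] (x y : Λ) : QQ D x y = ∑ d, D.cv d x * D.cv d y := rfl

theorem form (D : RD ι Λ) : ∃ Q, Form D Q := by
  have := D.fin
  have := Fintype.ofFinite ι
  refine ⟨QQ D, fun x y => ?_, fun x y => ?_, fun a x => ?_, fun a => ?_, fun τ h a => ?_⟩ <;>
    simp only [QQ_apply]
  · exact Finset.sum_congr rfl fun d _ => mul_comm _ _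
  · simpa only [sq] using
      Finset.sum_mul_sq_le_sq_mul_sq Finset.univ (fun d => D.cv d x) fun d => D.cv d y
  · have h := Equiv.sum_comp (D.sr a) fun d => D.cv d (D.rt a) * D.cv d x
    rw [two_mul, Finset.mul_sum]
    nth_rewrite 1 [← h]
    rw [← Finset.sum_add_distrib]
    refine Finset.sum_congr rfl fun d _ => ?_
    simp only [RD.sr_apply, D.cv_rf, AddMonoidHom.sub_apply, AddMonoidHom.smul_apply, D.two,
      smul_eq_mul]
    ring
  · refine Finset.sum_pos' (fun d _ => mul_self_nonneg _) ⟨a, Finset.mem_univ a, ?_⟩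
    rw [D.two]; omega
  · rw [← Equiv.sum_comp τ fun d => D.cv d (D.rt (τ a)) * D.cv d (D.rt (τ a))]
    simp only [h.cv]

theorem count (D : RD ι Λ) (F : RDF D) : Nat.card ι ≤ 7 ^ D.Δ.card := by
  let f : ι → D.Δ → Finset.Icc (-3 : ℤ) 3 := fun a i =>
    ⟨D.cv i (D.rt a), Finset.mem_Icc.2 (F.bound i a)⟩
  have hf : Function.Injective f := fun a c e => D.inj (sub_eq_zero.1 (D.nd _ fun i hi => by
    have := congrArg Subtype.val (congrFun e ⟨i, hi⟩)
    rw [map_sub, sub_eq_zero]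
    exact this))
  have h := Nat.card_le_card_of_injective f hf
  rwa [Nat.card_fun, Nat.card_eq_finsetCard, Nat.card_eq_finsetCard, Int.card_Icc] at h

/-- positive multiples -/
def Pm (l : Λ) : Set Λ := {m | ∃ n : ℤ, 1 ≤ n ∧ m = n • l}

theorem Pm_add (l : Λ) : ∀ a ∈ Pm l, ∀ b ∈ Pm l, a + b ∈ Pm l := by
  rintro _ ⟨n, h, rfl⟩ _ ⟨m, h', rfl⟩
  exact ⟨n + m, by omega, (add_smul _ _ _).symm⟩

theorem Pm_eq {D : RD ι Λ} (F : RDF D) {a c : ι} {l : Λ} (h : l ∈ Pm (D.rt a))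
    (h' : l ∈ Pm (D.rt c)) : a = c := by
  obtain ⟨n, hn, e⟩ := h
  obtain ⟨m, hm, e'⟩ := h'
  have e1 : n • D.rt a = m • D.rt c := e.symm.trans e'
  obtain ⟨η, hη⟩ := F.prim a
  obtain ⟨ζ, hζ⟩ := F.prim c
  have h1 := congrArg η e1
  have h2 := congrArg ζ e1
  simp only [map_zsmul, smul_eq_mul, hη, hζ, mul_one] at h1 h2
  have nm : n = m := Int.dvd_antisymm (by omega) (by omega) ⟨_, h2.symm⟩ ⟨_, h1⟩
  subst nm
  refine D.inj (sub_eq_zero.1 (D.nd _ fun i _ => ?_))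
  have h3 := congrArg (D.cv i) e1
  simp only [map_zsmul, smul_eq_mul] at h3
  rw [map_sub, sub_eq_zero]
  exact mul_left_cancel₀ (by omega) h3

theorem disj {K V : Type} [Field K] [LieRing V] [LieAlgebra K V] {D : RD ι Λ} (F : RDF D)
    (C : CL D K V) (U : UF0 C) (a c : ι) (t u : K) (ne : a ≠ c) (e : C.x a t = C.x c u) :
    t = 0 := by
  have h : ∀ (b : ι) (s : K), (C.x b s).1 - 1 ∈ C.sp (Pm (D.rt b)) := fun b s =>
    U.ux_sp (Pm (D.rt b)) {b} (Pm_add _)
      (fun d hd => ⟨1, le_rfl, by rw [Set.mem_singleton_iff.1 hd, one_smul]⟩) _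
      (C.x_mem (Set.mem_singleton b) s)
  have h1 := h c u
  rw [← e] at h1
  have h0 : (C.x a t).1 - 1 = 0 :=
    Sp.eq_zero (Sp.inter (h a t) h1) fun i j hh => ne (Pm_eq F hh.1 hh.2)
  refine U.x_inj a t 0 ?_
  rw [C.x_zero]
  exact Units.ext (sub_eq_zero.1 h0)

end Frmx

theorem frmS : FrmS := by
  refine ⟨fun _ _ _ D => Frmx.form D, fun _ _ _ D F => Frmx.count D F, ?_⟩
  intro ι Λ K V _ _ _ _ D C F a c t u ne e
  exact Frmx.disj F.r.r C.toCL F.u1.toUF0 a c t u ne e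

end Pool.Agent.MP_adf6dd_al.LT
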