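import Pool.Agent.MP_adf6dd_al.lt.SpecB

/-! The orthogonal case: a clique orthogonal to its image under the symmetry. -/

set_option autoImplicit false

namespace Pool.Agent.MP_adf6dd_al.LT

open Subgroup Module Pool.Agent.MP_983df8_al Pool.Agent.MP_983df8_al.CH

namespace FrsX

variable {ι Λ K V : Type} [AddCommGroup Λ] [Field K] [LieRing V] [LieAlgebra K V] {D : RD ι Λ}

/-- the clique and the differences of its members -/
def Ps (D : RD ι Λ) {k : ℕ} (b : Fin k → ι) : Set ι :=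
  {a | (∃ i, a = b i) ∨ ∃ i j, i ≠ j ∧ a = D.rf (b j) (b i)}

theorem rt_r {k : ℕ} {b : Fin k → ι} (hb : Cf D b) {i j : Fin k} (h : i ≠ j) :
    D.rt (D.rf (b j) (b i)) = D.rt (b i) - D.rt (b j) := by
  rw [D.rt_rf, hb j i h.symm, one_smul]

theorem cv_r {k : ℕ} {b : Fin k → ι} (hb : Cf D b) {i j : Fin k} (h : i ≠ j) :
    D.cv (D.rf (b j) (b i)) = D.cv (b i) - D.cv (b j) := by
  rw [D.cv_rf, hb i j h, one_smul]

theorem zero_symm (hD : RDF D) {a c : ι} (h : D.cv a (D.rt c) = 0) : D.cv c (D.rt a) = 0 := by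
  obtain ⟨l, l0, l1⟩ := hD.len
  have e := l1 a c
  rw [h, zero_mul] at e
  exact (mul_eq_zero.1 e).resolve_right (l0 c).ne'

theorem orth {τ : Equiv.Perm ι} (hs : SymF D τ) {k : ℕ} {b : Fin k → ι} (hb : Cf D b)
    (ho : ∀ i j, D.cv (b i) (D.rt (τ (b j))) = 0) :
    ∀ a ∈ Ps D b, ∀ c ∈ Ps D b, D.cv a (D.rt (τ c)) = 0 := by
  obtain ⟨φ, hφ, -⟩ := hs.lin
  have h1 : ∀ i, ∀ c ∈ Ps D b, D.cv (b i) (D.rt (τ c)) = 0 := by
    rintro m c (⟨i, rfl⟩ | ⟨i, j, h, rfl⟩)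
    · exact ho m i
    · rw [hφ, rt_r hb h, map_sub, ← hφ, ← hφ, map_sub, ho, ho, sub_zero]
  rintro a (⟨i, rfl⟩ | ⟨i, j, h, rfl⟩) c hc
  · exact h1 i c hc
  · rw [cv_r hb h, AddMonoidHom.sub_apply, h1 i c hc, h1 j c hc, sub_zero]

theorem wit {k : ℕ} (hk : 4 ≤ k) {b : Fin k → ι} (hb : Cf D b) :
    ∀ a ∈ Ps D b, ∃ a' ∈ Ps D b, D.cv a' (D.rt a) * D.cv a (D.rt a') = 1 := by
  rintro a (⟨i, rfl⟩ | ⟨i, j, h, rfl⟩)
  · have : Nontrivial (Fin k) := Fin.nontrivial_iff_two_le.2 (by omega)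
    obtain ⟨j, h⟩ := exists_ne i
    exact ⟨b j, Or.inl ⟨j, rfl⟩, by rw [hb j i h, hb i j h.symm, one_mul]⟩
  · refine ⟨b i, Or.inl ⟨i, rfl⟩, ?_⟩
    rw [rt_r hb h, cv_r hb h, map_sub, AddMonoidHom.sub_apply, D.two, hb i j h, hb j i h.symm]
    norm_num

theorem comm_up (C : CG D K V) (Ψ : Set ι) (g : (End K V)ˣ →* (End K V)ˣ)
    (h : ∀ a ∈ Ψ, ∀ c ∈ Ψ, ∀ t u, Commute (C.x a t) (g (C.x c u))) :
    ∀ y ∈ C.Ux Ψ, ∀ z ∈ C.Ux Ψ, Commute y (g z) := by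
  intro y hy z hz
  refine C.Ux_induction (p := fun y => Commute y (g z)) hy (Commute.one_left _) ?_
    fun _ _ p q => p.mul_left q
  intro a ha t
  refine C.Ux_induction (p := fun z => Commute (C.x a t) (g z)) hz ?_ (fun c hc u => h a ha c hc t u)
    fun _ _ p q => ?_
  · rw [map_one]
    exact Commute.one_right _
  · rw [map_mul]
    exact p.mul_right q

theorem side {C : CG D K V} (F : Fa C) (a : ι) (t : K) : ∃ W : Subgroup (End K V)ˣ,
    C.x a t ∈ W ∧ (∀ y ∈ W, C.σ y ∈ W) ∧ ∀ y ∈ W, C.σ y = y → y ∈ C.G1 := by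
  by_cases p : D.pos a
  · refine ⟨C.U, C.x_mem p t, F.u2.σ_ux _ _ fun c hc => ?_, fun y hy e =>
      mem_sup_left (mem_inf.2 ⟨hy, e⟩)⟩
    show 1 ≤ D.ht (D.rt (C.τ c))
    rw [F.r.s.ht]
    exact hc
  · refine ⟨C.Um, C.x_mem ((F.r.r.neg_ht a).2 p) t, F.u2.σ_ux _ _ fun c hc => ?_, fun y hy e =>
      mem_sup_right (mem_inf.2 ⟨hy, e⟩)⟩
    show 1 ≤ -D.ht (D.rt (C.τ c))
    rw [F.r.s.ht]
    exact hc

theorem ne_one {C : CG D K V} (F : Fa C) (a : ι) (η : Λ →+ ℤ) (h : 1 ≤ η (D.rt a))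
    (w : (End K V)ˣ) (hw : w ∈ C.Ue (-η)) : C.x a 1 * w ≠ 1 := by
  intro e
  have e1 : C.x a 1 = w⁻¹ := eq_inv_of_mul_eq_one_left e
  have e2 : C.x a 1 = 1 := F.u1.disj η _ (C.x_mem h 1) (e1 ▸ inv_mem hw)
  exact one_ne_zero (F.u1.x_inj a 1 0 (e2.trans (C.x_zero a).symm))

theorem phi (h : OrtS) {C : CG D K V} (F : Fa C) {k : ℕ} (hk : 4 ≤ k) {b : Fin k → ι}
    (hb : Cf D b) (ho : ∀ i j, D.cv (b i) (D.rt (C.τ (b j))) = 0) :
    ∃ Φ : (End K V)ˣ → (End K V)ˣ,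
      (∀ y ∈ C.Ux (Ps D b), ∀ z ∈ C.Ux (Ps D b), Φ (y * z) = Φ y * Φ z) ∧
      (∀ a ∈ Ps D b, ∀ t, Φ (C.x a t) ∈ C.G1) ∧ ∀ i, Φ (C.x (b i) 1) ≠ 1 := by
  have o1 := orth F.r.s hb ho
  have c1 : ∀ y ∈ C.Ux (Ps D b), ∀ z ∈ C.Ux (Ps D b), Commute y (C.σ z) := by
    refine comm_up C _ _ fun a ha c hc t u => ?_
    obtain ⟨a', ha', e⟩ := wit hk hb a ha
    rw [C.σ_x]
    exact h _ _ _ _ D C F a _ a' (o1 a ha c hc) e (o1 a' ha' c hc) _ _
  have tp := C.τ_pow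
  have sp := C.s_pow
  rcases C.dd_val with d | d | d <;> rw [d] at tp sp
  · have e := ho ⟨0, by omega⟩ ⟨0, by omega⟩
    rw [pow_one] at tp
    rw [tp, Equiv.Perm.one_apply, D.two] at e
    omega
  · have s2 : ∀ y, C.σ (C.σ y) = y := fun y => Units.ext (LinearMap.ext fun v => by
      have e : ∀ v, C.s (C.s v) = v := sp
      conv_lhs => rw [← e v, C.σ_apply, C.σ_apply, e])
    refine ⟨fun z => z * C.σ z, fun y hy z hz => ?_, fun a ha t => ?_, fun i => ?_⟩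
    · have e := (c1 z hz y hy).eq
      simp only [map_mul, mul_assoc]
      rw [← mul_assoc z, e, mul_assoc]
    · obtain ⟨W, w1, w2, w3⟩ := side F a t
      refine w3 _ (mul_mem w1 (w2 _ w1)) ?_
      rw [map_mul, s2]
      exact (c1 _ (C.x_mem ha t) _ (C.x_mem ha t)).eq.symm
    · have e := ho i i
      have e' := zero_symm F.r.r e
      refine ne_one F (b i) (D.cv (b i) - D.cv (C.τ (b i))) ?_ _ ?_
      · simp [e', D.two]
      · rw [C.σ_x]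
        refine C.x_mem ?_ _
        simp [e, D.two]
  · have s3 : ∀ y, C.σ (C.σ (C.σ y)) = y := fun y => Units.ext (LinearMap.ext fun v => by
      have e : ∀ v, C.s (C.s (C.s v)) = v := sp
      conv_lhs => rw [← e v, C.σ_apply, C.σ_apply, C.σ_apply, e])
    have t3 : ∀ c, C.τ (C.τ (C.τ c)) = c := fun c => by
      simpa [pow_succ] using congrArg (fun e : Equiv.Perm ι => e c) tp
    have c2 : ∀ y ∈ C.Ux (Ps D b), ∀ z ∈ C.Ux (Ps D b), Commute y (C.σ (C.σ z)) := by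
      intro y hy z hz
      have e := ((c1 z hz y hy).map C.σ).map C.σ
      rw [s3] at e
      exact e.symm
    refine ⟨fun z => z * (C.σ z * C.σ (C.σ z)), fun y hy z hz => ?_, fun a ha t => ?_, fun i => ?_⟩
    · have e1 := (c1 z hz y hy).eq
      have e2 := (c2 z hz y hy).eq
      have e3 := ((c1 z hz y hy).map C.σ).eq
      simp only [map_mul, mul_assoc]
      rw [← mul_assoc z (C.σ y), e1, mul_assoc, ← mul_assoc (C.σ z) (C.σ (C.σ y)), e3, mul_assoc,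
        ← mul_assoc z (C.σ (C.σ y)), e2, mul_assoc]
    · obtain ⟨W, w1, w2, w3⟩ := side F a t
      refine w3 _ (mul_mem w1 (mul_mem (w2 _ w1) (w2 _ (w2 _ w1)))) ?_
      have m := C.x_mem ha t
      rw [map_mul, map_mul, s3, ← mul_assoc]
      exact ((c1 _ m _ m).mul_right (c2 _ m _ m)).eq.symm
    · have e := ho i i
      have e' := zero_symm F.r.r e
      have e1 : D.cv (C.τ (C.τ (b i))) (D.rt (b i)) = 0 := by
        have := C.sym.cv (C.τ (C.τ (b i))) (b i)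
        rw [t3, e] at this
        exact this.symm
      have e1' := zero_symm F.r.r e1
      refine ne_one F (b i) (D.cv (b i) - D.cv (C.τ (b i)) - D.cv (C.τ (C.τ (b i)))) ?_ _ ?_
      · simp [e', e1, D.two]
      · rw [C.σ_x, C.σ_x]
        refine mul_mem (C.x_mem ?_ _) (C.x_mem ?_ _)
        · simp [e, e', D.two, C.sym.cv]
        · simp [e, e1', D.two, C.sym.cv]

end FrsX

open FrsX in
theorem frsS (h : OrtS) : FrsS := by
  intro ι Λ K V _ _ _ _ D C F S _ f E k b hk hb R ho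
  obtain ⟨Φ, pm, pg, pn⟩ := phi h F hk hb ho
  have ex : ∀ a ∈ Ps D b, ∀ t, ∃ g, f g = Φ (C.x a t) := fun a ha t => by
    have := pg a ha t
    rw [← E.range] at this
    exact this
  have mb : ∀ i, b i ∈ Ps D b := fun i => Or.inl ⟨i, rfl⟩
  have xb : ∀ i s, C.x (b i) s ∈ C.Ux (Ps D b) := fun i s => C.x_mem (mb i) s
  choose ξ hξ using fun i s => ex (b i) (mb i) s
  refine ⟨ξ, fun i s t => E.inj ?_, fun i j s t => E.inj ?_, fun i e => pn i ?_, fun i j e t => ?_⟩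
  · rw [map_mul, hξ, hξ, hξ, C.x_add, pm _ (xb i s) _ (xb i t)]
  · rw [map_mul, map_mul, hξ, hξ, ← pm _ (xb i s) _ (xb j t), ← pm _ (xb j t) _ (xb i s),
      (R.bb i j s t).eq]
  · rw [← hξ, e, map_one]
  · obtain ⟨ν, n1, n2⟩ := R.rj i j e
    have mr : D.rf (b j) (b i) ∈ Ps D b := Or.inr ⟨i, j, e, rfl⟩
    have xr := C.x_mem mr (ν * t)
    obtain ⟨y, hy⟩ := ex _ mr (ν * t)
    refine ⟨y, fun u => ?_, fun m hm u => ?_⟩ <;> rw [mul_inv_eq_iff_eq_mul] <;> refine E.inj ?_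
    · have e1 := n2 (ν * t) u
      rw [mul_inv_eq_iff_eq_mul, ← mul_assoc ν, n1, one_mul] at e1
      rw [map_mul, map_mul, map_mul, hξ, hξ, hy, ← pm _ xr _ (xb j u), e1,
        pm _ (mul_mem (xb i _) (xb j u)) _ xr, pm _ (xb i _) _ (xb j u)]
    · rw [map_mul, map_mul, hξ, hy, ← pm _ xr _ (xb m u), ← pm _ (xb m u) _ xr,
        (R.rm i j m e hm (ν * t) u).eq]

end Pool.Agent.MP_adf6dd_al.LT
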