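import Pool.Agent.MP_adf6dd_al.lt.SpecA
import Pool.Agent.MP_adf6dd_al.ap.Gen

/-! Composition factors inside a small ring: the size bound and the induction. -/

set_option autoImplicit false

namespace Pool.Agent.MP_adf6dd_al.LT

open AP Multiplicative

/-- what the chain gives for a group of Lie type -/
def Gd (k : ℕ) (T : Type) [Group T] : Prop := RatRep T ∧ Lin k T

/-- the condition on the nonabelian composition factors -/
def FamL (b : ℕ) (k : ℕ × ℕ) (G : Type) [Group G] : Prop :=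
  ∀ (H : Subgroup G) (T : Type) [Group T] [IsSimpleGroup T] (φ : H →* T), H.IsSubnormal →
    Function.Surjective φ → ¬ IsMulCommutative T →
      Nat.card T ≤ b ∨ (InF T ∨ Good k.1 T) ∨ Gd k.2 T

namespace LinM

theorem two {T : Type} [Group T] [Finite T] (h : RatRep T) : 2 ≤ (Ext T).ncard := by
  obtain ⟨n, M, h1, h2⟩ := h
  have := Fintype.ofFinite T
  rw [finsum_eq_sum_of_fintype] at h1 h2
  have e : ∀ α, (((Rat.castHom ℂ).mapMatrix.toMonoidHom.comp M) α).trace =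
      ((M α).trace : ℚ) := fun α => by
    simp [Matrix.trace]
  have c1 : IsChar fun α : MulAut T => (((M α).trace : ℚ) : ℂ) :=
    ⟨n, (Rat.castHom ℂ).mapMatrix.toMonoidHom.comp M, fun α => (e α).symm⟩
  have m1 : (fun t : T => (((M (MulAut.conj t)).trace : ℚ) : ℂ)) ∈ Ext T :=
    ⟨isIrr_iff.2 ⟨c1.comp MulAut.conj, by exact_mod_cast h1⟩, _, c1,
      fun τ α => map_ratCast τ _, fun _ => rfl⟩
  have m0 : (fun _ : T => (1 : ℂ)) ∈ Ext T :=
    ⟨isIrr_hom 1, _, isChar_hom 1, fun τ α => by simp, fun _ => rfl⟩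
  refine (Set.one_lt_ncard (isIrr_finite.subset fun _ h => h.1)).2 ⟨_, m1, _, m0, fun k => ?_⟩
  have e2 : ∑ t : T, (((M (MulAut.conj t)).trace : ℚ) : ℂ) = ∑ _t : T, (1 : ℂ) := by rw [k]
  rw [← Rat.cast_sum, h2] at e2
  simp only [Rat.cast_zero, Finset.sum_const, Finset.card_univ, nsmul_eq_mul, mul_one] at e2
  exact Fintype.card_ne_zero (Nat.cast_eq_zero.1 e2.symm)

open SizM in
theorem lin (hc : CorS) (k : ℕ) : ∃ K' : ℕ, ∀ (T : Type) [Group T] [Finite T] (m : ℕ), Lin k T →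
    (∀ (c : ℕ) (x : T), c.Coprime (orderOf x) →
      ∃ t, 0 < t ∧ t ≤ m ∧ ∃ α : MulAut T, α x = x ^ c ^ t) → Nat.card T ≤ 2 ^ sz K' m := by
  classical
  obtain ⟨K', h2⟩ := DivM.second k
  refine ⟨K', fun T _ _ m hL c2 => ?_⟩
  obtain ⟨p, _, A, _, _, _, ρ, n, r1, ⟨F, _, _, _, j, x, μ, j1, j2, j3⟩, r2⟩ := hL
  have pw : ∀ (e : ℕ) (t : F), x ^ e * j (ofAdd t) * (x ^ e)⁻¹ = j (ofAdd (μ ^ e * t)) := by
    intro e
    induction e with
    | zero => simp
    | succ e ih =>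
      intro t
      rw [pow_succ, pow_succ, mul_assoc (μ ^ e : F), ← ih, ← j2]
      group
  have x0 := orderOf_pos x
  have m0 := orderOf_pos μ
  have : NeZero (orderOf x) := ⟨x0.ne'⟩
  have : NeZero (orderOf μ) := ⟨m0.ne'⟩
  have dv : orderOf μ ∣ orderOf x := by
    refine orderOf_dvd_of_pow_eq_one (Units.ext ?_)
    have := pw (orderOf x) 1
    rw [pow_orderOf_eq_one, one_mul, inv_one, mul_one, mul_one] at this
    rw [Units.val_pow_eq_pow_val]
    exact (ofAdd.injective (j1 this)).symm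
  obtain ⟨g, g0, g1, g2⟩ := hc p A F (ρ.toHomUnits x)
  have l1 : (Nat.log 2 n + 1) ^ k ≤ (Nat.log 2 (orderOf μ) + 1) ^ k :=
    Nat.pow_le_pow_left (Nat.add_le_add_right (Nat.log_mono_right j3) 1) k
  have g3 : g.natDegree ≤ (Nat.log 2 (orderOf μ) + 1) ^ k :=
    ((Nat.pow_le_pow_iff_right one_lt_two).1 (g1.trans r2)).trans l1
  have rt : ∀ c ∈ (ex x).map (ZMod.unitsMap dv),
      ((μ ^ (c : ZMod (orderOf μ)).val : Fˣ) : F) ∈ g.roots.toFinset := by
    rintro _ ⟨c, ⟨α, hα⟩, rfl⟩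
    rw [Multiset.mem_toFinset, Polynomial.mem_roots g0]
    have e1 : μ ^ ((ZMod.unitsMap dv c : (ZMod (orderOf μ))ˣ) : ZMod (orderOf μ)).val =
        μ ^ (c : ZMod (orderOf x)).val := by
      rw [ZMod.unitsMap_val, ZMod.cast_eq_val, ZMod.val_natCast, pow_mod_orderOf]
    rw [e1]
    refine g2 (ρ.comp ((α⁻¹ : MulAut T).toMonoidHom.comp j)) _
      (r1.comp ((α⁻¹ : MulAut T).injective.comp j1)) fun t => ?_
    have e2 : (α⁻¹ : MulAut T) (x ^ (c : ZMod (orderOf x)).val) = x := by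
      rw [← hα, MulAut.inv_apply_self]
    rw [← map_inv, MonoidHom.coe_toHomUnits, MonoidHom.coe_toHomUnits, Units.val_pow_eq_pow_val]
    simp only [MonoidHom.comp_apply, MulEquiv.coe_toMonoidHom]
    rw [← pw, map_mul (α⁻¹ : MulAut T), map_mul (α⁻¹ : MulAut T), map_inv (α⁻¹ : MulAut T), e2,
      map_mul, map_mul]
  obtain ⟨E, e1, e2, e3⟩ := DivM.num _ m _ ((ex x).map (ZMod.unitsMap dv)) m0 (le_trans (by
    refine le_trans ?_ ((Multiset.toFinset_card_le _).trans (Polynomial.card_roots' g))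
    rw [← Fintype.card_coe, ← Nat.card_eq_fintype_card]
    refine Nat.card_le_card_of_injective (fun c => ⟨_, rt c.1 c.2⟩)
      fun c d k => Subtype.ext (Units.ext (ZMod.val_injective _ ?_))
    exact pow_injOn_Iio_orderOf (ZMod.val_lt _) (ZMod.val_lt _)
      (Units.ext (congrArg Subtype.val k))) g3)
    fun c' => by
      obtain ⟨c, rfl⟩ := ZMod.unitsMap_surjective dv c'
      obtain ⟨t, t1, t2, α, hα⟩ := c2 _ x (ZMod.val_coe_unit_coprime c)
      refine ⟨t, t1, t2, c ^ t, ⟨α, hα.trans ?_⟩, map_pow _ _ _⟩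
      rw [Units.val_pow_eq_pow_val, ← pow_mod_orderOf, ← ZMod.val_natCast, Nat.cast_pow,
        ZMod.natCast_zmod_val]
  exact ((Nat.card_le_card_of_injective ρ r1).trans r2).trans (Nat.pow_le_pow_right two_pos
    (l1.trans (h2 _ m _ E m0 e1 e2 le_rfl e3)))

theorem siz (hc : CorS) (K : ℕ × ℕ) : ∃ K' : ℕ, ∀ (G : Type) [Group G] [Finite G] (V : Subgroup G)
    [V.Normal] (T : Type) [Group T] (φ : V →* T) (m : ℕ), Ch V φ → FB m G →
    (InF T ∨ Good K.1 T) ∨ Gd K.2 T →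
    Nat.card T ≤ K' ∨ (2 * nr (G ⧸ V) ≤ nr G ∧ Nat.card T ≤ 2 ^ sz K' m) := by
  obtain ⟨K1, h1⟩ := GenM.siz K.1
  obtain ⟨K2, h2⟩ := lin hc K.2
  have mono : ∀ {a b m : ℕ}, a ≤ b → 2 ^ sz a m ≤ 2 ^ sz b m := fun h =>
    Nat.pow_le_pow_right two_pos (by unfold sz; gcongr)
  refine ⟨K1 + K2, fun G _ _ V _ T _ φ m h hm hF => ?_⟩
  rcases hF with hF | hF
  · exact (h1 G V T φ m h hm hF).imp (fun k => k.trans (Nat.le_add_right _ _))
      fun k => ⟨k.1, k.2.trans (mono (Nat.le_add_right _ _))⟩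
  have : Finite T := Finite.of_surjective _ h.surj
  obtain ⟨c1, c2⟩ := chfT G V _ _ h
  exact Or.inr ⟨le_trans (Nat.mul_le_mul_right _ (two hF.1)) c1,
    (h2 T m hF.2 fun c x => c2 m c x hm).trans (mono (Nat.le_add_left _ _))⟩

theorem fam_quot {b : ℕ} {K : ℕ × ℕ} {G : Type} [Group G] (h : FamL b K G) (V : Subgroup G) [V.Normal] :
    FamL b K (G ⧸ V) := fun H T _ _ φ h1 h2 h3 =>
  h (H.comap (QuotientGroup.mk' V)) T (φ.comp ((QuotientGroup.mk' V).subgroupComap H))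
    (h1.comap _) (h2.comp (MonoidHom.subgroupComap_surjective_of_surjective _ _
      (QuotientGroup.mk'_surjective V))) h3

open IndM in
theorem ind (hc0 : CorS) (k : ℕ × ℕ) : ∃ K : ℕ, ∀ (b m : ℕ) (G : Type) [Group G] [Finite G],
    FB m G → FamL b k G →
    ∃ P : Finset ℕ, P.card ≤ b + K + 1 + Nat.log 2 m * sz K m ∧ Ok (b + K + sz K m) P G := by
  obtain ⟨K, hK⟩ := siz hc0 k
  have hP := powS
  have hS := strS
  refine ⟨K, fun b m => ?_⟩
  have key : ∀ (n : ℕ) (G : Type) [Group G] [Finite G], Nat.card G = n → FB m G → FamL b k G →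
      ∃ (t : ℕ) (P : Finset ℕ), 2 ^ t ≤ nr G ∧ P.card ≤ b + K + 1 + t * sz K m ∧
        Finset.range (b + K + 1) ⊆ P ∧ Ok (b + K + sz K m) P G := by
    intro n
    induction n using Nat.strong_induction_on with
    | _ n ih =>
      intro G _ _ hn h1 h2
      by_cases h0 : (⊤ : Subgroup G) = ⊥
      · refine ⟨0, _, (hP G).2.2.2.1, by simp, Finset.Subset.refl _, fun H T _ _ φ _ a c => ?_⟩
        have : Subsingleton G := Subgroup.subsingleton_iff.1 (subsingleton_of_bot_eq_top h0.symm)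
        exact (c ⟨⟨Red.Sec.comm φ a fun _ _ => Subsingleton.elim _ _⟩⟩).elim
      obtain ⟨V, -, hV⟩ := exists_minN (inferInstance : (⊤ : Subgroup G).Normal) h0
      have := hV.nor
      obtain ⟨t, P, p1, p2, p3, p4⟩ := ih _ (hn ▸ hV.card_lt) (G ⧸ V) rfl
        (h1.quot _ (QuotientGroup.mk'_surjective V)) (LinM.fam_quot h2 V)
      have q1 := p1.trans ((hP G).2.2.2.2 V)
      by_cases hc : ∀ a b : V, a * b = b * a
      · exact ⟨t, P, q1, p2, p3, step V p4 fun L S _ _ _ j ψ j1 j2 j3 =>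
          (j3 (Red.Sec.comm ψ j2 fun x y => j1 (by rw [map_mul, map_mul, hc]))).elim⟩
      obtain ⟨T, _, _, φ, f1, f2, f3⟩ := Red.Lay.nab hV hc
      have ch : Ch V φ := ⟨inferInstance, f1, f2, f3⟩
      have : Finite T := Finite.of_surjective φ f1
      have pos : 0 < Nat.card T := Nat.card_pos
      have small : Nat.card T ≤ b + K → ∃ (t : ℕ) (P : Finset ℕ), 2 ^ t ≤ nr G ∧
          P.card ≤ b + K + 1 + t * sz K m ∧ Finset.range (b + K + 1) ⊆ P ∧
          Ok (b + K + sz K m) P G := fun k =>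
        ⟨t, P, q1, p2, p3, step V p4 fun L S _ _ _ j ψ j1 j2 j3 => by
          have d := (Nat.le_of_dvd pos ((hS G V T φ ch).2 L S j ψ j1 j2 j3)).trans k
          exact ⟨(d.trans (Nat.le_add_right _ _)).trans Nat.lt_two_pow_self.le, fun q hq =>
            p3 (Finset.mem_range.2 (Nat.lt_succ_of_le ((Nat.le_of_mem_primeFactors hq).trans d)))⟩⟩
      rcases h2 V T φ hV.nor.isSubnormal f1 (fun c => f2 c.is_comm.comm) with k | k
      · exact small (by omega)
      rcases hK G V T φ m ch h1 k with k | ⟨k1, k2⟩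
      · exact small (by omega)
      refine ⟨t + 1, P ∪ (Nat.card T).primeFactors, by rw [pow_succ]; omega,
        (Finset.card_union_le _ _).trans ?_, p3.trans Finset.subset_union_left,
        step V (p4.mono Finset.subset_union_left) fun L S _ _ _ j ψ j1 j2 j3 => ?_⟩
      · have := (Nat.pow_le_pow_iff_right (by norm_num)).1 ((Red.Pri.two_pow_le pos.ne').trans k2)
        rw [add_mul, one_mul]
        omega
      · have d := (hS G V T φ ch).2 L S j ψ j1 j2 j3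
        exact ⟨((Nat.le_of_dvd pos d).trans k2).trans
          (Nat.pow_le_pow_right (by norm_num) (Nat.le_add_left _ _)),
          (Nat.primeFactors_mono d pos.ne').trans Finset.subset_union_right⟩
  intro G _ _ h1 h2
  obtain ⟨t, P, p1, p2, -, p4⟩ := key _ G rfl h1 h2
  exact ⟨P, p2.trans (Nat.add_le_add_left (Nat.mul_le_mul_right _ (Nat.le_log_of_pow_le
    (by norm_num) (p1.trans ((hP G).2.2.1 m h1)))) _), p4⟩

open FinM in
theorem quant (hc : CorS) (b : ℕ) (k : ℕ × ℕ) : ∃ D, ∀ (G : Type) [Group G] [Finite G],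
    FamL b k G →
    Nat.card G ≤ 2 ^ 2 ^ (D * w (fieldMult G)) := by
  obtain ⟨K, hK⟩ := ind hc k
  obtain ⟨C, c, hC⟩ := Red.main Red.secS Red.soc2T Red.priT Red.sizeT Red.minT
  refine ⟨C + c * (b + 2 * K) + c * (b + 2 * K + 2), fun G _ _ hG => ?_⟩
  obtain ⟨P, h1, h2⟩ := hK b (fieldMult G) G fb_fieldMult hG
  exact (hC G P _ h2).trans (Nat.pow_le_pow_right two_pos (expo C c b K _ _ h1))

end LinM

theorem finL (hc : CorS) (b : ℕ) (K : ℕ × ℕ) (a : ℝ) (ha : a < 2) : ∃ B : ℕ,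
    ∀ (G : Type) [Group G] [Finite G], B ≤ Nat.card G → FamL b K G →
    Real.logb 2 (Real.logb 2 (Nat.card G)) ^ a ≤ fieldMult G := by
  obtain ⟨D, hD⟩ := LinM.quant hc b K
  obtain ⟨B, hB⟩ := toPow D a ha
  exact ⟨B, fun G _ _ h1 h2 => hB _ _ h1 (hD G h2)⟩

end Pool.Agent.MP_adf6dd_al.LT
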