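import Pool.Agent.MP_adf6dd_al.lt.SpecB
import Pool.Agent.MP_adf6dd_al.lt.Defs
import Pool.Agent.MP_adf6dd_al.lt.Lins
import Pool.Agent.MP_983df8_al.ch.CG2

/-! From the definition of the groups of Lie type to the size bound. -/

set_option autoImplicit false

namespace Pool.Agent.MP_adf6dd_al.LT

open Subgroup Module Pool.Agent.MP_983df8_al Pool.Agent.MP_983df8_al.CH Multiplicative

theorem glue {T : Type} [Group T] (hT : LieT T) : ∃ (ι Λ K V : Type) (_ : AddCommGroup Λ)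
    (_ : Field K) (_ : LieRing V) (_ : LieAlgebra K V) (D : RD ι Λ) (C : CG D K V),
    (∃ f : T →* (End K V)ˣ, Emb C f) ∨ D.Δ.card ≤ 4 ∧ ∃ (S : Type) (_ : Group S)
      (f : S →* (End K V)ˣ) (σ : MulAut S) (ρ : Equiv.Perm ι) (ψ : ι → K → K), RG C f σ ρ ψ ∧
        Nonempty (T ≃* fx σ) := by
  obtain ⟨ι, M, N, L, K, _, _, _, _, _, _, _, _, P, _, b, e, h, d, τ, γ, θ, H,
    _, _, _, hr, ⟨l1, l2, l3⟩, hd, g1, g2, o1, o2, hH, hT⟩ := hT
  obtain ⟨Λ, _, D, d1, d2, d3, d4, d5, d6⟩ := rdm ι M N P b hr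
  have F := rdf ι Λ D
  rw [← d1] at l1 l2 g2 hT
  let B : Basis (D.Δ ⊕ ι) ℤ L := Basis.mk l1 l2.ge
  have hB : ∀ a, B (.inr a) = e a := fun a => Basis.mk_apply l1 l2.ge _
  let Z : ZD D L :=
    { B := B
      h := h
      d := d
      h_B := fun i => Basis.mk_apply l1 l2.ge _
      hh := fun a c => (l3 a c).1
      he := fun a c => by rw [hB, d2, (l3 a c).2.1]
      eng := fun a => by rw [hB, hB, (l3 a _).2.2.1 (d5 a)]
      ee := fun a c c' k => by rw [hB, hB, hB, d3]; exact (l3 a c).2.2.2 c' (d6 a c c' k)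
      fac := fun a k => by rw [hB, hd] }
  have zF := zf ι Λ L D Z F
  obtain ⟨o, ho⟩ := F.top
  obtain ⟨g, zG⟩ := zg ι Λ L D Z F zF o (topf ι Λ D F o ho)
  obtain ⟨ε, zS⟩ := zs ι Λ L D Z τ γ F zF (fun a => by simpa only [Z, hB] using g1 a)
    fun i a => by simpa only [Z, hB] using g2 i a
  obtain ⟨C₀, r⟩ := bc ι Λ L D Z zF K
  obtain ⟨C, rfl, rfl, c⟩ := mk ι Λ L K D Z τ γ ε θ o g C₀ zF zG zS ho r
    (lead uf0 bc ι Λ L D Z F zF K C₀ r) o1 o2
  have k := fun y => Cg.mem_tw C (x := fun a => xr K (d a)) r.x F d4 c (y := y)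
  rw [← hH] at k
  have em : ∀ (S : Type) [Group S] (φ : S ≃* H),
      Emb C ((Submonoid.subtype _).comp φ.toMonoidHom).toHomUnits := fun S _ φ => by
    refine ⟨fun s t a => φ.injective (Subtype.ext (congrArg Units.val a)), ?_⟩
    ext y
    rw [← k]
    exact ⟨by rintro ⟨s, rfl⟩; exact (φ s).2,
      fun a => ⟨φ.symm ⟨_, a⟩, Units.ext (congrArg Subtype.val (φ.apply_symm_apply ⟨_, a⟩))⟩⟩
  refine ⟨ι, Λ, K, _, _, _, _, _, D, C, ?_⟩
  rcases hT with ⟨⟨φ⟩⟩ | ⟨t1, t2, S, _, φ, σ, ρ, ψ, s1, s2, s3, s4⟩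
  · exact Or.inl ⟨_, em T φ⟩
  refine Or.inr ⟨t2, S, _, _, σ, ρ, ψ, ⟨em S φ, fun v => ?_, fun g => ?_, fun a t g e => ?_,
    fun a => (s3 a).1, fun a => ?_, fun a => ?_, fun a => ((s3 a).2.2 _ (d5 a)).2⟩, s4⟩
  · have := C.s_pow v
    rwa [← C.θ_ord, t1, orderOf_one] at this
  · exact congrArg (fun α : MulAut S => α g) s1
  · exact Units.ext ((s2 a t g ((congrArg Units.val e).trans (r.x a t))).trans (r.x _ _).symm)
  · rw [d4, d4]
    exact (s3 a).2.1
  · exact P.root.injective (((s3 a).2.2 _ (d5 a)).1.trans (d5 _).symm)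

theorem RatRep.of {T T' : Type} [Group T] [Group T'] (e : T ≃* T') (h : RatRep T') :
    RatRep T := by
  obtain ⟨n, M, h1, h2⟩ := h
  have c : ∀ t, MulAut.congr e (MulAut.conj t) = MulAut.conj (e t) := fun t => by
    ext x
    simp
  refine ⟨n, M.comp (MulAut.congr e).toMonoidHom, ?_, ?_⟩
  · rw [Nat.card_congr e.toEquiv, ← h1, ← finsum_comp_equiv e.toEquiv]
    refine finsum_congr fun t => ?_
    change (M (MulAut.congr e _)).trace * (M (MulAut.congr e _)).trace = _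
    rw [c, c, map_inv e]
    rfl
  · rw [← h2, ← finsum_comp_equiv e.toEquiv]
    simp [c]

theorem Fb.of {T T' : Type} [Group T] [Group T'] (e : T ≃* T') {p n : ℕ} (h : Fb T' p n) :
    Fb T p n := by
  obtain ⟨F, _, _, _, j, x, μ, j1, j2, j3⟩ := h
  refine ⟨F, _, inferInstance, inferInstance, e.symm.toMonoidHom.comp j, e.symm x, μ,
    e.symm.injective.comp j1, fun t => e.injective ?_, j3⟩
  simp [j2]

/-- all rows -/
structure Rows : Prop where
  syl : SylS
  apa : ApaS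
  blk : BlkS
  rep : RepS
  slk : SlkS
  ari : AriS
  frm : FrmS
  cnt : CntS
  hom : HomS
  rel : RelS
  frf : FrfS
  frs : FrsS
  tor : TorS
  rea : ReaS
  reb : RebS
  rec' : RecS

theorem Rows.st (h : Rows) {T : Type} [Group T] [Finite T] {p : ℕ} [Fact p.Prime]
    (k : HasSB p T) : RatRep T := by
  obtain ⟨B, N, U, R, k⟩ := k
  obtain ⟨Ω, _, β, ω, a⟩ := h.syl T p B N U R k
  exact h.rep T (h.blk T Ω B N R β ω k.toBN k.ne a (h.apa T Ω B N R β ω k.toBN a))

section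

variable {ι Λ K V : Type} [AddCommGroup Λ] [Field K] [LieRing V] [LieAlgebra K V] {D : RD ι Λ}
  (C : CG D K V)

include C

theorem fa : Fa C :=
  have h := all_facts C
  ⟨h.1, h.2.1, h.2.2.1, h.2.2.2.1, h.2.2.2.2.1, h.2.2.2.2.2⟩

theorem finE : Finite (End K V) := by
  have := D.fin
  have := C.fin
  have := Module.Finite.of_basis C.B
  exact Module.finite_of_finite K

theorem cardE : Nat.card (End K V) ≤ Nat.card K ^ (2 * Nat.card ι) ^ 2 := by
  have := D.fin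
  have := C.fin
  have := Module.Finite.of_basis C.B
  rw [Module.natCard_eq_pow_finrank (K := K), Module.finrank_linearMap,
    Module.finrank_eq_nat_card_basis C.B, ← sq, Nat.card_sum, two_mul]
  exact Nat.pow_le_pow_right Nat.card_pos (Nat.pow_le_pow_left (Nat.add_le_add_right
    (Nat.card_le_card_of_injective _ Subtype.val_injective) _) 2)

theorem charE (p : ℕ) [CharP K p] : CharP (End K V) p := by
  have : Nontrivial V := nontrivial_of_ne _ _ (C.B.ne_zero (.inr C.o))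
  exact charP_of_injective_algebraMap (algebraMap K (End K V)).injective p

end

theorem Rows.lie (h : Rows) : ∃ b k : ℕ, ∀ (T : Type) [Group T], LieT T →
    Nat.card T ≤ b ∨ Gd k T := by
  obtain ⟨k0, b0, hA⟩ := h.ari (14 * 2402) (by norm_num)
  refine ⟨b0, k0, fun T _ hT => ?_⟩
  obtain ⟨ι, Λ, K, V, _, _, _, _, D, C, hT⟩ := glue hT
  have := C.fin
  have := finE C
  obtain ⟨p, _⟩ := CharP.exists K
  have : Fact p.Prime := ⟨CharP.char_is_prime K p⟩
  have := charE C p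
  have F := fa C
  have key : ∀ (ρ : T →* (End K V)ˣ) (m : ℕ), Function.Injective ρ → RatRep T → Fb T p m →
      Nat.card K ≤ (2 * m + 1) ^ 3 →
      (∀ k, 4 ≤ k → (14 * 2402 * (k + 1)) ^ 4 < Nat.card ι → Fb T p (2 ^ (k - 1))) →
      Nat.card T ≤ b0 ∨ Gd k0 T := fun ρ m r1 r2 r3 r4 r5 => by
    have i : Function.Injective ((Units.coeHom _).comp ρ) := Units.val_injective.comp r1
    rcases hA (Nat.card ι) _ m r4 with a | a | ⟨k, k1, k2, a⟩
    · exact Or.inl (((Nat.card_le_card_of_injective _ i).trans (cardE C)).trans a)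
    · exact Or.inr ⟨r2, p, inferInstance, End K V, _, inferInstance, inferInstance, _, m, i, r3,
        (cardE C).trans a⟩
    · exact Or.inr ⟨r2, p, inferInstance, End K V, _, inferInstance, inferInstance, _, _, i, r5 k k1 k2,
        (cardE C).trans a⟩
  rcases hT with ⟨f, E⟩ | ⟨t, S, _, f, σ, ρ, ψ, G, ⟨e⟩⟩
  · have : Finite T := Finite.of_injective f E.inj
    obtain ⟨⟨m, m1, m2⟩, sb⟩ := h.tor _ _ _ _ D C F T f E p
    refine key f m E.inj (h.st ⟨_, _, _, _, sb⟩) m1 m2 fun k k1 k2 => ?_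
    obtain ⟨Q, hQ⟩ := h.frm.1 _ _ D
    obtain ⟨Y, y1, y2⟩ := h.cnt _ _ D Q F.r.r hQ (2401 * (k + 1))
      (lt_of_le_of_lt (Nat.pow_le_pow_left (by omega) 4) k2)
    obtain ⟨b, b1, b2⟩ := h.hom _ _ D Q C.τ F.r.r hQ C.sym F.r.s k Y y2 y1.ge
    have rl := h.rel _ _ _ _ D C F k b k1 b1
    rcases b2 with b2 | b2
    · obtain ⟨K0, _, _, _, fr⟩ := h.frf _ _ _ _ D C F T f E p k b b1 rl b2
      exact h.slk T p K0 k (by omega) fr
    · exact h.slk T p K k (by omega) (h.frs _ _ _ _ D C F T f E k b k1 b1 rl b2)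
  · have : Finite S := Finite.of_injective f G.emb.inj
    have rp := h.rea _ _ _ _ D C F S f σ ρ ψ G
    obtain ⟨m, m1, m2⟩ := h.rec' _ _ _ _ D C F S f σ ρ ψ G rp p
    have sb := h.reb _ _ _ _ D C F S f σ ρ ψ G rp p (h.tor _ _ _ _ D C F S f G.emb p).2
    refine key (f.comp ((fx σ).subtype.comp e.toMonoidHom)) m
      (G.emb.inj.comp (Subtype.val_injective.comp e.injective)) ((h.st sb).of e) (m1.of e) m2
      fun k _ k2 => ?_
    have := (h.frm.2.1 _ _ D F.r.r).trans (Nat.pow_le_pow_right (by norm_num) t)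
    have := Nat.pow_le_pow_left (show 7 ≤ 14 * 2402 * (k + 1) by omega) 4
    omega

theorem Rows.fin (h : Rows) (hc : CorS) (b K : ℕ) (a : ℝ) (ha : a < 2) : ∃ B : ℕ,
    ∀ (G : Type) [Group G] [Finite G], B ≤ Nat.card G →
    (∀ (H : Subgroup G) (T : Type) [Group T] [IsSimpleGroup T] (φ : H →* T), H.IsSubnormal →
      Function.Surjective φ → ¬ IsMulCommutative T →
        Nat.card T ≤ b ∨ AP.InF T ∨ LieT T ∨ AP.Good K T) →
    Real.logb 2 (Real.logb 2 (Nat.card G)) ^ a ≤ fieldMult G := by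
  obtain ⟨b0, k, h0⟩ := h.lie
  obtain ⟨B, hB⟩ := finL hc (b + b0) (K, k) a ha
  refine ⟨B, fun G _ _ h1 h2 => hB G h1 fun H T _ _ φ x y z => ?_⟩
  rcases h2 H T φ x y z with c | c | c | c
  · exact Or.inl (c.trans (Nat.le_add_right _ _))
  · exact Or.inr (Or.inl (Or.inl c))
  · exact (h0 T c).imp (fun d => d.trans (Nat.le_add_left _ _)) Or.inr
  · exact Or.inr (Or.inl (Or.inr c))

end Pool.Agent.MP_adf6dd_al.LT
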