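import Pool.Agent.MP_adf6dd_al.lt.SpecB

/-! Row GRO: many roots at one angle to a root contain a large clique. -/

set_option autoImplicit false

namespace Pool.Agent.MP_adf6dd_al.LT

open Pool.Agent.MP_983df8_al Pool.Agent.MP_983df8_al.CH Finset

namespace Gro

variable {ι Λ : Type} [AddCommGroup Λ]

theorem qsum (Q : Λ →+ Λ →+ ℤ) (v : ι → Λ) (Z : Finset ι) (y : Λ) :
    2 * Q (∑ c ∈ Z, v c) y = ∑ c ∈ Z, 2 * Q (v c) y := by
  rw [map_sum, AddMonoidHom.finsetSum_apply, mul_sum]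

theorem qsum' (Q : Λ →+ Λ →+ ℤ) (v : ι → Λ) (Z : Finset ι) (y : Λ) :
    2 * Q y (∑ c ∈ Z, v c) = ∑ c ∈ Z, 2 * Q y (v c) := by
  rw [map_sum, mul_sum]

theorem avg (Q : Λ →+ Λ →+ ℤ) (cs : ∀ x y, Q x y ^ 2 ≤ Q x x * Q y y) (v : ι → Λ)
    (g : ι → ι → ℤ) (L : ℤ) (hL : 0 < L) (Z : Finset ι) (hZ : Z.Nonempty)
    (hg : ∀ c ∈ Z, ∀ c' ∈ Z, 2 * Q (v c) (v c') = g c c' * L) (h2 : ∀ c ∈ Z, g c c = 2)
    (h1 : ∀ c ∈ Z, ∀ c' ∈ Z, c ≠ c' → g c c' ≤ 1) (y : Λ) (s : ℤ)
    (hy : ∀ c ∈ Z, 2 * Q (v c) y = s * L) (h0 : 0 ≤ Q y y) :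
    ∃ c ∈ Z, (Z.card : ℤ) * s ^ 2 * L ≤
      2 * Q y y * (2 + ((Z.filter fun c' => g c c' = 1).card : ℤ)) := by
  classical
  obtain ⟨c, hc, hmax⟩ := exists_max_image Z (fun c => (Z.filter fun c' => g c c' = 1).card) hZ
  refine ⟨c, hc, ?_⟩
  set d : ℤ := ((Z.filter fun c' => g c c' = 1).card : ℤ) with hd
  have hrow : ∀ e ∈ Z, ∑ c' ∈ Z, g e c' ≤ 2 + d := by
    intro e he
    have a1 : ∑ c' ∈ Z, g e c' ≤
        ∑ c' ∈ Z, ((if c' = e then (2 : ℤ) else 0) + if g e c' = 1 then 1 else 0) := by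
      refine sum_le_sum fun c' hc' => ?_
      by_cases h : c' = e
      · subst h
        rw [h2 _ he]
        simp
      · have := h1 e he c' hc' (Ne.symm h)
        rw [if_neg h]
        split_ifs with h' <;> omega
    rw [sum_add_distrib, sum_ite_eq' Z e, if_pos he, sum_boole] at a1
    have a2 : ((Z.filter fun c' => g e c' = 1).card : ℤ) ≤ d := by
      rw [hd]
      exact_mod_cast hmax e he
    omega
  set w := ∑ c ∈ Z, v c with hw
  have e1 : 2 * Q w y = Z.card * (s * L) := by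
    rw [hw, qsum, sum_congr rfl hy, sum_const, nsmul_eq_mul]
  have e2 : 2 * Q w w ≤ Z.card * ((2 + d) * L) := by
    rw [hw, qsum, ← nsmul_eq_mul, ← sum_const]
    refine sum_le_sum fun e he => ?_
    rw [qsum', sum_congr rfl (hg e he), ← sum_mul]
    exact mul_le_mul_of_nonneg_right (hrow e he) hL.le
  have hN : (0 : ℤ) < Z.card := by exact_mod_cast hZ.card_pos
  have e3 : (2 * Q w y) ^ 2 ≤ (2 * Q w w) * (2 * Q y y) := by nlinarith [cs w y]
  have e4 : (2 * Q w w) * (2 * Q y y) ≤ Z.card * ((2 + d) * L) * (2 * Q y y) :=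
    mul_le_mul_of_nonneg_right e2 (by omega)
  rw [e1] at e3
  have e5 : (Z.card * L) * (Z.card * s ^ 2 * L) ≤ (Z.card * L) * (2 * Q y y * (2 + d)) := by
    nlinarith
  exact le_of_mul_le_mul_left e5 (mul_pos hN hL)

end Gro

theorem groS : GroS := by
  classical
  intro ι Λ _ D Q _ hF k a α β X hα hX hk
  rcases Nat.eq_zero_or_pos k with rfl | hk0
  · exact ⟨∅, rfl, fun i hi => by simp at hi⟩
  have hXne : X.Nonempty := card_pos.1 (by omega)
  obtain ⟨c0, hc0⟩ := hXne
  set L := Q (D.rt c0) (D.rt c0) with hLd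
  set A := Q (D.rt a) (D.rt a) with hAd
  have hL : 0 < L := hF.pos c0
  have hA : 0 < A := hF.pos a
  have hab : ∀ c ∈ X, α * A = β * Q (D.rt c) (D.rt c) := by
    intro c hc
    have h1 := hF.rt a (D.rt c)
    have h2 := hF.rt c (D.rt a)
    rw [(hX c hc).1] at h1
    rw [(hX c hc).2, hF.symm] at h2
    rw [← h1, h2]
  have hβ : β ≠ 0 := by
    rintro rfl
    have := hab c0 hc0
    rw [zero_mul] at this
    rcases mul_eq_zero.1 this with h | h
    · exact hα h
    · omega
  have hLc : ∀ c ∈ X, Q (D.rt c) (D.rt c) = L := fun c hc =>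
    mul_left_cancel₀ hβ ((hab c hc).symm.trans (hab c0 hc0))
  have hg : ∀ c ∈ X, ∀ y, 2 * Q (D.rt c) y = D.cv c y * L := fun c hc y => by
    rw [hF.rt, hLc c hc]
  have hs : ∀ c ∈ X, ∀ c' ∈ X, D.cv c (D.rt c') = D.cv c' (D.rt c) := fun c hc c' hc' =>
    mul_right_cancel₀ hL.ne' (by rw [← hg c hc, ← hg c' hc', hF.symm])
  have h1 : ∀ c ∈ X, ∀ c' ∈ X, c ≠ c' → D.cv c (D.rt c') ≤ 1 := by
    intro c hc c' hc' hne
    by_cases hn : c' = D.ng c
    · rw [hn, D.rt_ng, map_neg, D.two]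
      omega
    · have hp := D.pair c c' hne.symm hn
      rw [← hs c hc c' hc'] at hp
      simp only [Set.mem_insert_iff, Set.mem_singleton_iff, Prod.mk.injEq] at hp
      omega
  have av : ∀ Z ⊆ X, Z.Nonempty → ∀ (y : Λ) (s : ℤ), (∀ c ∈ Z, D.cv c y = s) → 0 ≤ Q y y →
      ∃ c ∈ Z, (Z.card : ℤ) * s ^ 2 * L ≤
        2 * Q y y * (2 + ((Z.filter fun c' => D.cv c (D.rt c') = 1).card : ℤ)) :=
    fun Z hZ hne y s hy h0 => Gro.avg Q hF.cs D.rt (fun c c' => D.cv c (D.rt c')) L hL Z hne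
      (fun c hc c' _ => hg c (hZ hc) _) (fun c _ => D.two c)
      (fun c hc c' hc' => h1 c (hZ hc) c' (hZ hc')) y s
      (fun c hc => by rw [hg c (hZ hc), hy c hc]) h0
  have key : ∀ j : ℕ, j + 1 ≤ k → ∃ S ⊆ X, S.card = j + 1 ∧ Cq D S ∧ ∃ Z ⊆ X,
      (∀ c ∈ Z, ∀ i ∈ S, D.cv i (D.rt c) = 1) ∧
        (k : ℤ) ^ 2 + 2 ≤ (j + 1) * Z.card + (j + 1) * (j + 2) := by
    intro j
    induction j with
    | zero =>
      intro _
      obtain ⟨c, hc, h⟩ := av X subset_rfl ⟨c0, hc0⟩ (D.rt a) β (fun c hc => (hX c hc).2) hA.le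
      refine ⟨{c}, by simpa using hc, by simp, ?_, X.filter fun c' => D.cv c (D.rt c') = 1,
        filter_subset _ _, ?_, ?_⟩
      · intro i hi j hj hne
        rw [mem_singleton] at hi hj
        exact absurd (hi.trans hj.symm) hne
      · intro c' hc' i hi
        rw [mem_singleton.1 hi]
        exact (mem_filter.1 hc').2
      · set d : ℤ := ((X.filter fun c' => D.cv c (D.rt c') = 1).card : ℤ) with hd
        have hd0 : 0 ≤ d := Int.natCast_nonneg _
        have b1 : A ≤ β ^ 2 * L := by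
          have b2 : |α| * A = |β| * L := by
            have := congrArg abs (hab c0 hc0)
            rwa [abs_mul, abs_mul, abs_of_pos hA, abs_of_pos hL] at this
          have b3 : 1 ≤ |α| := Int.one_le_abs hα
          have b4 : 1 ≤ |β| := Int.one_le_abs hβ
          rw [← sq_abs β]
          nlinarith [mul_pos (lt_of_lt_of_le one_pos b4) hL]
        have b5 : 0 < β ^ 2 * L := mul_pos (sq_pos_of_ne_zero hβ) hL
        have b6 : (β ^ 2 * L) * X.card ≤ (β ^ 2 * L) * (2 * (2 + d)) := by nlinarith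
        have b7 := le_of_mul_le_mul_left b6 b5
        have b8 : 2 * (k : ℤ) ^ 2 + 4 ≤ X.card := by exact_mod_cast hk
        push_cast
        omega
    | succ j ih =>
      intro hj
      obtain ⟨S, hS, hc, hq, Z, hZ, hn, hi⟩ := ih (by omega)
      have hjk : (j : ℤ) + 2 ≤ k := by exact_mod_cast hj
      have hj0 : (0 : ℤ) ≤ j := Int.natCast_nonneg _
      have hne : Z.Nonempty := by
        rw [← card_pos]
        by_contra h
        have : Z.card = 0 := by omega
        rw [this] at hi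
        push_cast at hi
        nlinarith
      have hy : ∀ c ∈ Z, D.cv c (∑ i ∈ S, D.rt i) = (j : ℤ) + 1 := by
        intro c hc'
        rw [map_sum, sum_congr rfl fun i hi' => (hs c (hZ hc') i (hS hi')).trans (hn c hc' i hi'),
          sum_const, hc]
        simp
      have hyy : 2 * Q (∑ i ∈ S, D.rt i) (∑ i ∈ S, D.rt i) = ((j : ℤ) + 1) * ((j + 2) * L) := by
        have : ∀ i ∈ S, 2 * Q (D.rt i) (∑ i ∈ S, D.rt i) = (j + 2) * L := by
          intro i hi'
          rw [hg i (hS hi'), map_sum, ← add_sum_erase S _ hi', D.two,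
            sum_congr rfl fun e he => hq i hi' e (mem_of_mem_erase he) (ne_of_mem_erase he).symm,
            sum_const, card_erase_of_mem hi', hc, Nat.add_sub_cancel, nsmul_eq_mul]
          ring
        rw [Gro.qsum, sum_congr rfl this, sum_const, hc]
        simp
      have h0 : 0 ≤ Q (∑ i ∈ S, D.rt i) (∑ i ∈ S, D.rt i) := by
        have : 0 ≤ ((j : ℤ) + 1) * ((j + 2) * L) := by positivity
        omega
      obtain ⟨c, hcZ, h⟩ := av Z hZ hne _ _ hy h0
      rw [hyy] at h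
      have hcS : c ∉ S := fun hcS => by
        have := hn c hcZ c hcS
        rw [D.two] at this
        omega
      refine ⟨insert c S, insert_subset (hZ hcZ) hS, by rw [card_insert_of_notMem hcS, hc], ?_,
        Z.filter fun c' => D.cv c (D.rt c') = 1, (filter_subset _ _).trans hZ, ?_, ?_⟩
      · intro i hi' e he hne'
        rcases mem_insert.1 hi' with u | u <;> rcases mem_insert.1 he with u' | u'
        · exact absurd (u.trans u'.symm) hne'
        · rw [u]
          exact (hs _ (hZ hcZ) e (hS u')).trans (hn _ hcZ e u')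
        · rw [u']
          exact hn _ hcZ i u
        · exact hq i u e u' hne'
      · intro c' hc' i hi'
        rcases mem_insert.1 hi' with rfl | hi'
        · exact (mem_filter.1 hc').2
        · exact hn c' (mem_filter.1 hc').1 i hi'
      · set d : ℤ := ((Z.filter fun c' => D.cv c (D.rt c') = 1).card : ℤ) with hd
        have b5 : 0 < ((j : ℤ) + 1) * L := by positivity
        have b6 : (((j : ℤ) + 1) * L) * ((j + 1) * Z.card) ≤
            (((j : ℤ) + 1) * L) * ((j + 2) * (2 + d)) := by nlinarith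
        have b7 := le_of_mul_le_mul_left b6 b5
        push_cast
        nlinarith
  obtain ⟨S, -, hc, hq, -⟩ := key (k - 1) (by omega)
  exact ⟨S, by omega, hq⟩

end Pool.Agent.MP_adf6dd_al.LT
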