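import Pool.Agent.MP_adf6dd_al.lt.SpecB

/-! A clique of roots that is fixed by the symmetry or orthogonal to its image. -/

set_option autoImplicit false

namespace Pool.Agent.MP_adf6dd_al.LT

open Subgroup Module Pool.Agent.MP_983df8_al Pool.Agent.MP_983df8_al.CH

namespace Hom

variable {ι Λ : Type} [AddCommGroup Λ] {D : RD ι Λ} {Q : Λ →+ Λ →+ ℤ} {τ : Equiv.Perm ι}

theorem one_len (hQ : Form D Q) {X : Finset ι} (hX : Cq D X) {i j : ι} (hi : i ∈ X) (hj : j ∈ X) :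
    Q (D.rt j) (D.rt j) = Q (D.rt i) (D.rt i) := by
  by_cases h : i = j
  · rw [h]
  have h1 := hQ.rt i (D.rt j)
  have h2 := hQ.rt j (D.rt i)
  rw [hX i hi j hj h, one_mul] at h1
  rw [hX j hj i hi (Ne.symm h), one_mul, hQ.symm] at h2
  exact h2.symm.trans h1

theorem fixed (hR : RDF D) (hQ : Form D Q) (hs : D.Sym τ) (hf : SymF D τ) {b : ι} {g : ℤ}
    (hg : g ≠ 0) (h : D.cv b (D.rt (τ b)) = 2 * g) : τ b = b := by
  by_contra h1
  have h2 : τ b ≠ D.ng b := fun e => by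
    have a1 := hf.ht b
    have a2 := hR.pos_ng b
    unfold RD.pos at a2
    rw [← e, a1] at a2
    exact iff_not_self a2
  have h3 := hQ.rt b (D.rt (τ b))
  have h4 := hQ.rt (τ b) (D.rt b)
  rw [hQ.sym τ hs b, hQ.symm, h3] at h4
  have h5 := mul_right_cancel₀ (hQ.pos b).ne' h4
  have h6 := D.pair b (τ b) h1 h2
  rw [← h5, h] at h6
  simp only [Set.mem_insert_iff, Set.mem_singleton_iff, Prod.mk.injEq] at h6
  omega

end Hom

theorem homS (h1 : ExcS) (h2 : IdpS) : HomS := by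
  classical
  intro ι Λ _ D Q τ hR hQ hs hf k X hX hk
  have hc : ∀ j ∈ X, ∃ c : ℤ, -3 ≤ c ∧ c ≤ 3 ∧
      (X.filter fun i => D.cv i (D.rt (τ j)) ≠ c).card ≤ 24 := fun j hj =>
    h1 ι Λ D Q hR hQ X (τ j) hX fun i hi => (hQ.sym τ hs j).trans (Hom.one_len hQ hX hi hj)
  choose! c c1 c2 c3 using hc
  obtain ⟨⟨c0, γ⟩, -, hy⟩ := Finset.exists_le_card_fiber_of_mul_le_card_of_maps_to
    (f := fun j => (c j, D.cv j (D.rt (τ j)))) (s := X)
    (t := Finset.Icc (-3 : ℤ) 3 ×ˢ Finset.Icc (-3 : ℤ) 3) (n := 49 * (k + 1))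
    (fun j hj => Finset.mem_product.2 ⟨Finset.mem_Icc.2 ⟨c1 j hj, c2 j hj⟩,
      Finset.mem_Icc.2 (hR.bound j (τ j))⟩) ⟨(0, 0), by simp⟩ (by
        rw [Finset.card_product, Int.card_Icc]
        show 7 * 7 * (49 * (k + 1)) ≤ X.card
        omega)
  obtain ⟨Y, y1, y2, y3⟩ := h2 ι (fun i j => D.cv i (D.rt (τ j)) ≠ c0) 24
    (X.filter fun j => (c j, D.cv j (D.rt (τ j))) = (c0, γ)) (fun j hj => by
      obtain ⟨a1, a2⟩ := Finset.mem_filter.1 hj
      refine le_trans (Finset.card_le_card ?_) (c3 j a1)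
      rw [(Prod.mk.inj a2).1]
      exact Finset.filter_subset_filter _ (Finset.filter_subset _ _))
  have hY : k + 1 ≤ Y.card := by omega
  obtain ⟨e⟩ := Function.Embedding.nonempty_of_card_le (α := Fin (k + 1)) (β := Y) (by simpa)
  have eX : ∀ i, (e i : ι) ∈ X := fun i => (Finset.mem_filter.1 (y1 (e i).2)).1
  have eg : ∀ i, D.cv (e i) (D.rt (τ (e i))) = γ := fun i =>
    (Prod.mk.inj (Finset.mem_filter.1 (y1 (e i).2)).2).2
  have en : ∀ i j, i ≠ j → (e i : ι) ≠ e j := fun i j h a => h (e.injective (Subtype.ext a))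
  have e1 : ∀ i j, i ≠ j → D.cv (e i) (D.rt (e j)) = 1 := fun i j h =>
    hX _ (eX i) _ (eX j) (en i j h)
  have ec : ∀ i j, i ≠ j → D.cv (e i) (D.rt (τ (e j))) = c0 := fun i j h =>
    not_not.1 (y3 _ (e i).2 _ (e j).2 (en i j h))
  have br : ∀ i : Fin k, D.rt (D.rf (e i.succ) (e 0)) = D.rt (e 0) - D.rt (e i.succ) := fun i => by
    rw [D.rt_rf, e1 _ _ (Fin.succ_ne_zero i), one_smul]
  have bc : ∀ (i : Fin k) (x : Λ),
      D.cv (D.rf (e i.succ) (e 0)) x = D.cv (e 0) x - D.cv (e i.succ) x := fun i x => by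
    rw [D.cv_rf, e1 _ _ (Fin.succ_ne_zero i).symm, one_smul, AddMonoidHom.sub_apply]
  have bt : ∀ i : Fin k, D.rt (τ (D.rf (e i.succ) (e 0))) =
      D.rt (τ (e 0)) - D.rt (τ (e i.succ)) := fun i =>
    eq_sub_of_add_eq (hf.add _ _ _ (by rw [br, sub_add_cancel])).symm
  have bv : ∀ i j : Fin k, D.cv (D.rf (e i.succ) (e 0)) (D.rt (τ (D.rf (e j.succ) (e 0)))) =
      γ - c0 - (c0 - D.cv (e i.succ) (D.rt (τ (e j.succ)))) := fun i j => by
    rw [bc, bt, map_sub, map_sub, eg, ec _ _ (Fin.succ_ne_zero j).symm,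
      ec _ _ (Fin.succ_ne_zero i)]
  refine ⟨fun i => D.rf (e i.succ) (e 0), fun i j h => ?_, ?_⟩
  · rw [bc, br, map_sub, map_sub, D.two, e1 _ _ (Fin.succ_ne_zero j).symm,
      e1 _ _ (Fin.succ_ne_zero i), e1 _ _ fun a => h (Fin.succ_injective _ a)]
    rfl
  by_cases hg : γ = c0
  · refine Or.inr fun i j => ?_
    rw [bv]
    by_cases h : i = j
    · rw [h, eg]
      omega
    · rw [ec _ _ fun a => h (Fin.succ_injective _ a)]
      omega
  · refine Or.inl fun i => Hom.fixed hR hQ hs hf (sub_ne_zero.2 hg) ?_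
    rw [bv, eg]
    ring

end Pool.Agent.MP_adf6dd_al.LT
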