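import Pool.Agent.MP_adf6dd_al.lt.SpecA

/-! Rows IDP and ARI: an independent set in a digraph of bounded in-degree, and arithmetic. -/

set_option autoImplicit false

namespace Pool.Agent.MP_adf6dd_al.LT

namespace Idp

theorem small_out {α : Type} (r : α → α → Prop) [DecidableRel r] (E : ℕ) (X : Finset α)
    (hne : X.Nonempty) (h : ∀ j ∈ X, (X.filter fun i => r i j).card ≤ E) :
    ∃ v ∈ X, (X.filter fun j => r v j).card ≤ E := by
  refine Finset.exists_le_of_sum_le (f := fun v => (X.filter fun j => r v j).card)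
    (g := fun _ => E) hne ?_
  calc ∑ v ∈ X, (X.filter fun j => r v j).card
      = ∑ j ∈ X, (X.filter fun i => r i j).card := by
        simp only [Finset.card_filter]
        exact Finset.sum_comm
    _ ≤ ∑ _j ∈ X, E := Finset.sum_le_sum h

theorem expo (c t l k n : ℕ) (ht : 2 ≤ t) (hl : l ≤ t) (hk : k + 2 ≤ t ^ 3)
    (hn : n ≤ (c * (k + 2)) ^ 4) : 3 * (l + 1) * (2 * n) ^ 2 ≤ t ^ (8 * c + 30) := by
  have h1 : c ≤ t ^ c := (Nat.lt_two_pow_self).le.trans (Nat.pow_le_pow_left ht c)
  have h2 : n ≤ (t ^ c * t ^ 3) ^ 4 := hn.trans (Nat.pow_le_pow_left (Nat.mul_le_mul h1 hk) 4)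
  have h3 : l + 1 ≤ t ^ 2 := by nlinarith
  have h4 : 12 ≤ t ^ 4 := le_trans (by norm_num) (Nat.pow_le_pow_left ht 4)
  calc 3 * (l + 1) * (2 * n) ^ 2 = 12 * (l + 1) * n ^ 2 := by ring
    _ ≤ t ^ 4 * t ^ 2 * ((t ^ c * t ^ 3) ^ 4) ^ 2 :=
        Nat.mul_le_mul (Nat.mul_le_mul h4 h3) (Nat.pow_le_pow_left h2 2)
    _ = t ^ (8 * c + 30) := by ring

end Idp

theorem idpS : IdpS := by
  intro α _ r _ E X
  induction X using Finset.strongInduction with
  | H X ih =>
    intro h
    rcases X.eq_empty_or_nonempty with rfl | hne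
    · exact ⟨∅, Finset.Subset.refl _, by simp, by simp⟩
    obtain ⟨v, hv, hout⟩ := Idp.small_out r E X hne h
    set X' : Finset α := X.filter fun x => x ≠ v ∧ ¬ r v x ∧ ¬ r x v with hX'
    have hsub : X' ⊆ X := Finset.filter_subset _ _
    have hvn : v ∉ X' := by simp [hX']
    have hss : X' ⊂ X := (Finset.ssubset_iff_of_subset hsub).2 ⟨v, hv, hvn⟩
    obtain ⟨Y, hY, hc, hi⟩ := ih X' hss fun j hj =>
      (Finset.card_le_card (Finset.filter_subset_filter _ hsub)).trans (h j (hsub hj))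
    have hvY : v ∉ Y := fun hy => hvn (hY hy)
    refine ⟨insert v Y, Finset.insert_subset hv (hY.trans hsub), ?_, ?_⟩
    · have hcov : X ⊆ insert v (X' ∪ ((X.filter fun j => r v j) ∪ (X.filter fun i => r i v))) := by
        intro x hx
        simp only [hX', Finset.mem_insert, Finset.mem_union, Finset.mem_filter]
        by_cases h1 : x = v
        · exact Or.inl h1
        by_cases h2 : r v x
        · exact Or.inr (Or.inr (Or.inl ⟨hx, h2⟩))
        by_cases h3 : r x v
        · exact Or.inr (Or.inr (Or.inr ⟨hx, h3⟩))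
        exact Or.inr (Or.inl ⟨hx, h1, h2, h3⟩)
      have e1 := Finset.card_le_card hcov
      have e2 := Finset.card_insert_le v
        (X' ∪ ((X.filter fun j => r v j) ∪ (X.filter fun i => r i v)))
      have e3 := Finset.card_union_le X' ((X.filter fun j => r v j) ∪ (X.filter fun i => r i v))
      have e4 := Finset.card_union_le (X.filter fun j => r v j) (X.filter fun i => r i v)
      have e5 := h v hv
      rw [Finset.card_insert_of_notMem hvY, Nat.mul_add_one]
      omega
    · intro i hi' j hj' hij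
      rcases Finset.mem_insert.1 hi' with e1 | h1
      · rcases Finset.mem_insert.1 hj' with e2 | h2
        · exact absurd (e1.trans e2.symm) hij
        · rw [e1]
          exact (Finset.mem_filter.1 (hY h2)).2.2.1
      · rcases Finset.mem_insert.1 hj' with e2 | h2
        · rw [e2]
          exact (Finset.mem_filter.1 (hY h1)).2.2.2
        · exact hi i h1 j h2 hij

theorem ariS : AriS := by
  intro c hc
  refine ⟨8 * c + 30, 2 ^ (6 * (2 * (c * 5) ^ 4) ^ 2), fun n Q m hQ => ?_⟩
  set l := Nat.log 2 m + 1 with hl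
  have hm : m < 2 ^ l := Nat.lt_pow_succ_log_self (by norm_num) m
  have hm2 : 2 * m + 1 ≤ 2 ^ (l + 1) := by rw [pow_succ]; omega
  have hQ2 : Q ^ (2 * n) ^ 2 ≤ 2 ^ (3 * (l + 1) * (2 * n) ^ 2) := by
    calc Q ^ (2 * n) ^ 2 ≤ ((2 ^ (l + 1)) ^ 3) ^ (2 * n) ^ 2 :=
          Nat.pow_le_pow_left (hQ.trans (Nat.pow_le_pow_left hm2 3)) _
      _ = 2 ^ (3 * (l + 1) * (2 * n) ^ 2) := by
          rw [← pow_mul, ← pow_mul]; congr 1; ring
  have hex : ∃ k, n ≤ (c * (k + 2)) ^ 4 := by
    refine ⟨n, ?_⟩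
    have h1 : n + 2 ≤ c * (n + 2) := Nat.le_mul_of_pos_left _ hc
    have h2 : c * (n + 2) ≤ (c * (n + 2)) ^ 4 := Nat.le_self_pow (by norm_num) _
    omega
  classical
  have hk := Nat.find_spec hex
  have hmin : ∀ j, j < Nat.find hex → ¬ n ≤ (c * (j + 2)) ^ 4 := fun j hj => Nat.find_min hex hj
  generalize Nat.find hex = k at hk hmin
  by_cases hA : 4 ≤ k ∧ l ≤ k
  · refine Or.inr (Or.inr ⟨k, hA.1, ?_, ?_⟩)
    · have := hmin (k - 1) (by omega)
      rw [show k - 1 + 2 = k + 1 by omega] at this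
      omega
    · rw [Nat.log_pow (by norm_num), show k - 1 + 1 = k by omega]
      refine hQ2.trans (Nat.pow_le_pow_right (by norm_num) ?_)
      refine Idp.expo c k l k n (by omega) hA.2 ?_ hk
      have h4 := hA.1
      have : 4 * 4 * k ≤ k * k * k := Nat.mul_le_mul_right k (Nat.mul_le_mul h4 h4)
      have e : k ^ 3 = k * k * k := by ring
      omega
  by_cases hB : 2 ≤ l
  · refine Or.inr (Or.inl ?_)
    refine hQ2.trans (Nat.pow_le_pow_right (by norm_num) ?_)
    refine Idp.expo c l l k n hB le_rfl ?_ hk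
    have : 2 * 2 * l ≤ l * l * l := Nat.mul_le_mul_right l (Nat.mul_le_mul hB hB)
    have e : l ^ 3 = l * l * l := by ring
    omega
  · refine Or.inl (hQ2.trans (Nat.pow_le_pow_right (by norm_num) ?_))
    have h1 : l = 1 := by omega
    have h2 : n ≤ (c * 5) ^ 4 :=
      hk.trans (Nat.pow_le_pow_left (Nat.mul_le_mul_left c (by omega)) 4)
    rw [h1]
    exact Nat.mul_le_mul (by norm_num) (Nat.pow_le_pow_left (Nat.mul_le_mul_left 2 h2) 2)

end Pool.Agent.MP_adf6dd_al.LT
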