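import Pool.Agent.MP_adf6dd_al.lt.SpecA

/-! Parabolic subgroups of a BN-pair. -/

set_option autoImplicit false

namespace Pool.Agent.MP_adf6dd_al.LT

open Subgroup

namespace Par

variable {S : Type} [Group S] {B N : Subgroup S} {R J : Set S} (H : BN B N R) (hJ : J ⊆ R)
include H hJ

theorem le_N : closure J ⊔ B ⊓ N ≤ N :=
  sup_le ((closure_le N).2 fun _ hr => H.mem (hJ hr)) inf_le_right

theorem one {g : S} (hg : g ∈ closure J ⊔ B) : ∀ n ∈ N, ∀ h, DC B h n →
    ∃ m ∈ closure J ⊔ B ⊓ N, DC B (g * h) (m * n) := by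
  have k1 : ∀ g ∈ B, ∀ n ∈ N, ∀ h, DC B h n → ∃ m ∈ closure J ⊔ B ⊓ N, DC B (g * h) (m * n) :=
    fun g hg n _ h a => ⟨1, one_mem _, by simpa using (DC.left hg h).trans a⟩
  have k2 : ∀ r ∈ J, ∀ g, DC B g r → ∀ n ∈ N, ∀ h, DC B h n →
      ∃ m ∈ closure J ⊔ B ⊓ N, DC B (g * h) (m * n) := fun r hr g e n hn h a =>
    (H.bn' (hJ hr) hn e a).elim (fun b => ⟨r, mem_sup_left (subset_closure hr), b⟩)
      fun b => ⟨1, one_mem _, by simpa using b⟩
  rw [← closure_eq B, ← Subgroup.closure_union] at hg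
  induction hg using closure_induction'' with
  | mem x hx => exact hx.elim (fun a => k2 x a x (DC.refl _)) (k1 x)
  | inv_mem x hx => exact hx.elim (fun a => k2 x a _ (H.dc_inv (hJ a))) fun a => k1 _ (inv_mem a)
  | one => exact k1 1 (one_mem _)
  | mul x y _ _ a b =>
    intro n hn h e
    obtain ⟨m, hm, c⟩ := b n hn h e
    obtain ⟨m', hm', d⟩ := a _ (mul_mem (le_N H hJ hm) hn) _ c
    exact ⟨m' * m, mul_mem hm' hm, by simpa only [mul_assoc] using d⟩

theorem sub : BN (B.subgroupOf (closure J ⊔ B)) ((closure J ⊔ B ⊓ N).subgroupOf (closure J ⊔ B))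
    ((↑) ⁻¹' J) := by
  have l : closure J ⊔ B ⊓ N ≤ closure J ⊔ B := sup_le_sup_left inf_le_left _
  have dc : ∀ g h : ↥(closure J ⊔ B), DC B g h → DC (B.subgroupOf (closure J ⊔ B)) g h :=
    fun g h ⟨c, hc, d, hd, e⟩ =>
      ⟨⟨c, mem_sup_right hc⟩, hc, ⟨d, mem_sup_right hd⟩, hd, Subtype.ext e⟩
  refine ⟨?_, fun n hn g hg => mem_conjBy.2 (H.conj_mem (le_N H hJ hn) hg.1 (le_N H hJ hg.2)), ?_,
    fun r hr => H.sq r (hJ hr), fun r hr a => H.thick r (hJ hr) fun b hb => mem_conjBy.2 ?_,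
    fun r hr b hb n hn => (H.bn r (hJ hr) b hb n (le_N H hJ hn)).imp (dc _ _) (dc _ _)⟩
  · rw [← subgroupOf_sup le_sup_right l, subgroupOf_eq_top]
    exact sup_le (le_sup_left.trans le_sup_right) le_sup_left
  · apply map_injective (closure J ⊔ B).subtype_injective
    rw [Subgroup.map_sup, MonoidHom.map_closure, Subgroup.map_inf _ _ _ (closure J ⊔ B).subtype_injective,
      map_subgroupOf_eq_of_le le_sup_right, map_subgroupOf_eq_of_le l, coe_subtype,
      Set.image_preimage_eq_of_subset fun r hr => ⟨⟨r, mem_sup_left (subset_closure hr)⟩, rfl⟩]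
    exact le_antisymm (sup_le le_sup_left inf_le_right)
      (sup_le_sup_left (le_inf inf_le_left le_sup_right) _)
  · exact mem_conjBy.1 (a (x := ⟨b, mem_sup_right hb⟩) hb)

theorem two {v : S} (hv : v ∈ closure J ⊔ B ⊓ N) (a : v ∉ B) :
    ∃ s ∈ J, len B R (s * v) + 1 = len B R v := by
  have l : closure J ⊔ B ⊓ N ≤ closure J ⊔ B := sup_le_sup_left inf_le_left _
  obtain ⟨r, hr, e⟩ := (sub H hJ).desc (n := ⟨v, l hv⟩) hv a
  obtain ⟨b, hb, c, hc, d, hd, f⟩ := (sub H hJ).exists_down (n := ⟨v, l hv⟩) hr hv (by omega)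
  have g : DC B (r * b * v) v := ⟨c, hc, d, hd, congrArg Subtype.val f⟩
  have h1 := H.len_r' (hJ hr) (DC.refl _) v
  refine ⟨r, hr, le_antisymm (Nat.succ_le_of_lt (lt_of_not_ge fun k => ?_)) h1⟩
  exact H.ne_self (hJ hr) (le_N H hJ hv)
    ((H.cell (hJ hr) (le_N H hJ hv) k (DC.right (B := B) (h := b) hb _) (DC.refl _)).symm.trans g)

theorem three {n : S} (hn : n ∈ N) (l : ∀ s ∈ J, len B R (s * n) ≤ len B R n) {v : S}
    (hv : v ∈ closure J ⊔ B ⊓ N) : ∃ u ∈ N, len B R v + len B R u ≤ len B R n ∧ n = v * u := by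
  induction e : len B R v generalizing v with
  | zero =>
    exact ⟨v⁻¹ * n, mul_mem (inv_mem (le_N H hJ hv)) hn, by
      rw [H.len_dc (DC.left (inv_mem (H.len_zero.1 e)) n), zero_add], by group⟩
  | succ k ih =>
    obtain ⟨r, hr0, d⟩ := two H hJ hv (mt H.len_zero.2 (by omega))
    have hr := hJ hr0
    have a : DC B (r * (r * v)) v := mul_assoc r r v ▸ DC.left (H.sq r hr) v
    have m := mul_mem (mem_sup_left (subset_closure hr0)) hv
    replace hv := le_N H hJ hv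
    have a1 := H.len_dc a
    obtain ⟨u, b1, b2, rfl⟩ := ih m (by omega)
    obtain ⟨u', c1, c2, c3⟩ := H.exch hr (le_N H hJ m) b1 (by omega) (by omega) (l r hr0)
    have t := mem_conjBy.1 (H.norm _ (inv_mem hv) ⟨H.sq r hr, N.mul_mem (H.mem hr) (H.mem hr)⟩)
    refine ⟨_ * u', mul_mem (mul_mem (mul_mem (inv_mem hv) (mul_mem (H.mem hr) (H.mem hr)))
      (inv_mem (inv_mem hv))) c1, ?_, by rw [c3]; group⟩
    rw [H.len_dc (DC.left t _)]
    omega

end Par

theorem parS : ParS := fun _ _ _ _ _ _ H hJ =>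
  ⟨fun _ hg => Par.one H hJ hg, fun _ hv => Par.two H hJ hv, fun _ hn l _ hv => Par.three H hJ hn l hv⟩

end Pool.Agent.MP_adf6dd_al.LT
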