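import Pool.Agent.MP_adf6dd_al.lt.SpecB
import Mathlib.GroupTheory.FixedPointFree

/-! What an involution that permutes the root subgroups preserves. -/

set_option autoImplicit false

namespace Pool.Agent.MP_adf6dd_al.LT

open Subgroup Module Pool.Agent.MP_983df8_al Pool.Agent.MP_983df8_al.CH

namespace Rea

variable {ι Λ : Type} [AddCommGroup Λ] {K V : Type} [Field K] [LieRing V] [LieAlgebra K V]
  {D : RD ι Λ} {C : CG D K V} {S : Type} [Group S] {f : S →* (End K V)ˣ} {σ : MulAut S}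
  {ρ : Equiv.Perm ι} {ψ : ι → K → K}

theorem xs (hF : Fa C) (R : RG C f σ ρ ψ) (a : ι) (t : K) : ∃ g, f g = C.x a t := by
  have hfix : C.x a t ∈ C.Fix := C.mem_Fix'.2 (fun v => by rw [R.one, R.one])
  have h1 : C.x a t ∈ C.G1 := by
    by_cases c : D.pos a
    · exact mem_sup_left (mem_inf.2 ⟨C.toCL.x_mem (Ψ := {a | 1 ≤ D.ht (D.rt a)}) c t, hfix⟩)
    · exact mem_sup_right (mem_inf.2 ⟨C.toCL.x_mem (Ψ := {a | 1 ≤ (-D.ht) (D.rt a)})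
        ((hF.r.r.neg_ht a).2 c) t, hfix⟩)
  rw [← R.emb.range] at h1
  exact h1

theorem all (hF : Fa C) (R : RG C f σ ρ ψ) : ∀ y ∈ C.G, ∃ g, f g = y := fun _ hy =>
  C.toCL.Ux_induction (p := fun y => ∃ g, f g = y) hy ⟨1, map_one f⟩ (fun a _ t => xs hF R a t)
    (fun _ _ ⟨g, e⟩ ⟨g', e'⟩ => ⟨g * g', by rw [map_mul, e, e']⟩)

theorem iff_of (R : RG C f σ ρ ψ) {H : Subgroup (End K V)ˣ}
    (h : ∀ g, f g ∈ H → f (σ g) ∈ H) (g : S) : f (σ g) ∈ H ↔ f g ∈ H :=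
  ⟨fun e => by have := h _ e; rwa [R.inv] at this, h g⟩

theorem of_ex (R : RG C f σ ρ ψ) {H : Subgroup (End K V)ˣ}
    (h : ∀ y ∈ H, ∃ g, f g = y ∧ f (σ g) ∈ H) (g : S) (e : f g ∈ H) : f (σ g) ∈ H := by
  obtain ⟨g', e1, e2⟩ := h _ e
  rwa [R.emb.inj e1] at e2

theorem ux (hF : Fa C) (R : RG C f σ ρ ψ) (Ψ : Set ι) (hΨ : ∀ a ∈ Ψ, ρ a ∈ Ψ) (g : S)
    (e : f g ∈ C.toCL.Ux Ψ) : f (σ g) ∈ C.toCL.Ux Ψ :=
  of_ex R (fun _ hy => C.toCL.Ux_induction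
    (p := fun y => ∃ g, f g = y ∧ f (σ g) ∈ C.toCL.Ux Ψ) hy
    ⟨1, map_one f, by rw [map_one, map_one]; exact one_mem _⟩
    (fun a ha t => by
      obtain ⟨g, e⟩ := xs hF R a t
      exact ⟨g, e, by rw [R.xx a t g e]; exact C.toCL.x_mem (hΨ a ha) _⟩)
    (fun _ _ ⟨g, e, m⟩ ⟨g', e', m'⟩ =>
      ⟨g * g', by rw [map_mul, e, e'], by rw [map_mul, map_mul]; exact mul_mem m m'⟩)) g e

theorem psi_ne (R : RG C f σ ρ ψ) (a : ι) {t : K} (ht : t ≠ 0) : ψ a t ≠ 0 := fun e => by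
  have := R.mul a t ht
  rw [e, zero_mul] at this
  exact one_ne_zero (neg_eq_zero.1 this.symm)

theorem nn (hF : Fa C) (R : RG C f σ ρ ψ) (g : S) (e : f g ∈ C.Nn) : f (σ g) ∈ C.Nn := by
  refine of_ex R (fun y hy => ?_) g e
  induction hy using closure_induction with
  | mem y hy =>
    obtain ⟨a, t, ht, rfl⟩ := hy
    obtain ⟨g1, e1⟩ := xs hF R a t
    obtain ⟨g2, e2⟩ := xs hF R (D.ng a) (-t⁻¹)
    refine ⟨g1 * g2 * g1, by rw [map_mul, map_mul, e1, e2]; rfl, ?_⟩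
    have h1 : ψ (D.ng a) (-t⁻¹) = -(ψ a t)⁻¹ := by
      rw [← neg_one_mul (ψ a t)⁻¹, ← R.mul a t ht, mul_comm (ψ a t),
        mul_inv_cancel_right₀ (psi_ne R a ht)]
    rw [map_mul, map_mul, map_mul, map_mul, R.xx _ _ _ e1, R.xx _ _ _ e2, R.ng, h1]
    exact subset_closure ⟨ρ a, ψ a t, psi_ne R a ht, rfl⟩
  | one => exact ⟨1, map_one f, by rw [map_one, map_one]; exact one_mem _⟩
  | mul y z _ _ hy hz =>
    obtain ⟨g, e, m⟩ := hy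
    obtain ⟨g', e', m'⟩ := hz
    exact ⟨g * g', by rw [map_mul, e, e'], by rw [map_mul, map_mul]; exact mul_mem m m'⟩
  | inv y _ hy =>
    obtain ⟨g, e, m⟩ := hy
    exact ⟨g⁻¹, by rw [map_inv, e], by rw [map_inv, map_inv]; exact inv_mem m⟩

theorem tt (hF : Fa C) (h3 : ∀ a c t u, a ≠ c → C.x a t = C.x c u → t = 0) (R : RG C f σ ρ ψ)
    (g : S) (e : f g ∈ C.T) : f (σ g) ∈ C.T := by
  have hN := nn hF R g e.1
  obtain ⟨w, -, hw⟩ := hF.b1.N_mon _ hN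
  have h1 : w = 1 := by
    refine Equiv.ext (fun d => ?_)
    obtain ⟨c, rfl⟩ := ρ.surjective d
    obtain ⟨gc, ec⟩ := xs hF R c 1
    obtain ⟨k, -, -, hk⟩ := e.2.2 c
    obtain ⟨l, l0, -, hl⟩ := hw.2 (ρ c)
    have e1 : f (g * gc * g⁻¹) = C.x c (k * 1) := by
      rw [map_mul, map_mul, map_inv, ec]; exact hk 1
    have e2 := R.xx _ _ _ e1
    rw [map_mul, map_mul, map_mul, map_mul, map_inv, map_inv, R.xx _ _ _ ec, hl] at e2
    by_contra ne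
    exact mul_ne_zero l0 (psi_ne R c one_ne_zero) (h3 _ _ _ _ ne e2)
  exact ⟨hN, h1 ▸ hw⟩

theorem bb (hF : Fa C) (h3 : ∀ a c t u, a ≠ c → C.x a t = C.x c u → t = 0) (R : RG C f σ ρ ψ)
    (g : S) (e : f g ∈ C.U ⊔ C.T) : f (σ g) ∈ C.U ⊔ C.T := by
  refine of_ex R (fun y hy => ?_) g e
  obtain ⟨u, hu, t, ht, rfl⟩ := (hF.b2.mem_B y).1 hy
  obtain ⟨gu, rfl⟩ := all hF R u (C.toCL.Ux_mono (fun _ _ => Set.mem_univ _) hu)
  obtain ⟨gt, rfl⟩ := all hF R t (hF.b1.N_le t ht.1)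
  refine ⟨gu * gt, map_mul _ _ _, ?_⟩
  rw [map_mul, map_mul]
  exact mul_mem (mem_sup_left (ux hF R _ (fun a ha => (R.pos a).2 ha) gu hu))
    (mem_sup_right (tt hF h3 R gt ht))

theorem fp [Finite S] (h3 : ∀ a c t u, a ≠ c → C.x a t = C.x c u → t = 0) (R : RG C f σ ρ ψ)
    (X : Subgroup S) (hX : ∀ g ∈ X, σ g ∈ X) (g : S) (hg : g ∈ X) (a : ι) (t : K) (ht : t ≠ 0)
    (e : f g = C.x a t) : ∃ v ∈ X, v ≠ 1 ∧ σ v = v := by
  by_contra hc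
  let φ : X →* X := (σ.toMonoidHom.comp X.subtype).codRestrict X (fun v => hX v v.2)
  have h1 : MonoidHom.FixedPointFree φ := fun v hv => by
    by_contra ne
    exact hc ⟨v, v.2, fun e1 => ne (Subtype.ext e1), congrArg Subtype.val hv⟩
  have h2 : Function.Involutive φ := fun v => Subtype.ext (R.inv v)
  have h4 : σ g = g⁻¹ :=
    congrArg Subtype.val (congrFun (h1.coe_eq_inv_of_involutive h2) ⟨g, hg⟩)
  have h5 := R.xx a t g e
  rw [h4, map_inv, e, ← C.toCL.x_neg] at h5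
  exact ht (neg_eq_zero.1 (h3 _ _ _ _ (R.ne a).symm h5))

end Rea

theorem reaS (h : FrmS) : ReaS := by
  intro ι Λ K V _ _ _ _ D C hF S _ _ f σ ρ ψ R
  have h3 := h.2.2 ι Λ K V D C hF
  exact ⟨Rea.all hF R, Rea.iff_of R (Rea.ux hF R _ (fun a ha => (R.pos a).2 ha)),
    Rea.iff_of R (Rea.ux hF R _ (fun a ha => (hF.r.r.neg_ht _).2
      (fun c => (hF.r.r.neg_ht a).1 ha ((R.pos a).1 c)))),
    Rea.iff_of R (Rea.nn hF R), Rea.iff_of R (Rea.tt hF h3 R), Rea.iff_of R (Rea.bb hF h3 R),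
    Rea.fp h3 R⟩

end Pool.Agent.MP_adf6dd_al.LT
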