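import Pool.Agent.MP_adf6dd_al.lt.SpecB

/-! The split BN-pair of the fixed points of an involution. -/

set_option autoImplicit false

namespace Pool.Agent.MP_adf6dd_al.LT

open Subgroup Module Pool.Agent.MP_983df8_al Pool.Agent.MP_983df8_al.CH

namespace Reb

variable {ι Λ K V S : Type} [AddCommGroup Λ] [Field K] [LieRing V] [LieAlgebra K V] {D : RD ι Λ}
  {C : CG D K V} [Group S] {f : S →* (End K V)ˣ} {σ : MulAut S}

theorem U_le {y : (End K V)ˣ} (h : y ∈ C.U) : y ∈ C.G := C.Ux_mono (fun _ _ => trivial) h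

theorem um_B (F : Fa C) {y : (End K V)ˣ} (h : y ∈ C.Um) (h' : y ∈ C.U ⊔ C.T) : y = 1 := by
  obtain ⟨u, hu, t, ht, e⟩ := (F.b2.mem_B y).1 h'
  exact (F.b2.UV u⁻¹ (inv_mem hu) y h (by rw [e, inv_mul_cancel_left]; exact ht.1)).2

/-- a root element that a monomial element moves to the negative side -/
theorem move (F : Fa C) (P : RP C f σ) {n : S} {w : Equiv.Perm ι} (hm : C.Mon (f n) w) {a : ι}
    (ha : a ∈ D.Δ) (hw : ¬ D.pos (w a)) : ∃ g k, k ≠ 0 ∧ f g = C.x a 1 ∧ f g ∈ C.U ∧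
      f (n * g * n⁻¹) = C.x (w a) k ∧ f (n * g * n⁻¹) ∈ C.Um := by
  obtain ⟨g, hg⟩ := P.all (C.x a 1) (C.x_mem (Set.mem_univ a) 1)
  obtain ⟨k, k0, -, hk⟩ := hm.2 a
  have e : f (n * g * n⁻¹) = C.x (w a) k := by
    rw [map_mul, map_mul, map_inv, hg, hk, mul_one]
  exact ⟨g, k, k0, hg, hg ▸ C.x_mem (((F.r.r.ht_one a).2 ha).ge) 1, e,
    e ▸ C.x_mem ((F.r.r.neg_ht _).2 hw) k⟩

theorem h1 (F : Fa C) (E : Emb C f) (P : RP C f σ) (g : S) (h : σ g = g) :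
    ∃ b ∈ (C.U ⊔ C.T).comap f, ∃ n ∈ C.Nn.comap f, ∃ b' ∈ (C.U ⊔ C.T).comap f,
      σ b = b ∧ σ n = n ∧ σ b' = b' ∧ g = b * n * b' := by
  obtain ⟨u, hu, n, hn, u', hu', hm, e⟩ :=
    F.b2.bruhat (f g) (F.b2.G1_le _ (E.range ▸ ⟨g, rfl⟩)).1
  obtain ⟨u, rfl⟩ := P.all u (U_le hu)
  obtain ⟨n, rfl⟩ := P.all n (F.b1.N_le n hn)
  obtain ⟨u', rfl⟩ := P.all u' (U_le hu')
  obtain rfl : g = u * n * u' := E.inj (by rw [e, map_mul, map_mul])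
  have hm' := (P.Um (n * u' * n⁻¹)).2 (by simpa using hm)
  obtain ⟨a, b, c⟩ := F.b2.uniq _ ((P.U u).2 hu) _ ((P.N n).2 hn) _ ((P.U u').2 hu') _ hu _ hn _ hu'
    (by simpa using hm') hm (by simpa using congrArg f h)
  exact ⟨u, mem_sup_left hu, n, hn, u', mem_sup_left hu', E.inj a, E.inj b, E.inj c, rfl⟩

theorem h2 (F : Fa C) (E : Emb C f) (P : RP C f σ) (hi : ∀ g, σ (σ g) = g) (r : S)
    (hr : r ∈ RS C f) : ∃ v ∈ closure {r, σ r} ⊔ (C.U ⊔ C.T).comap f, σ v = v ∧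
      v ∉ (C.U ⊔ C.T).comap f := by
  obtain ⟨a, ha, -, -, w, -, hm, -, hw⟩ := hr
  obtain ⟨g, k, k0, -, gU, e, gm⟩ := move F P hm ha (hw a ⟨((F.r.r.ht_one a).2 ha).ge,
    (F.r.s.zt_simple a a ha).2 (Or.inl rfl)⟩)
  have r1 : r ∈ closure {r, σ r} ⊔ (C.U ⊔ C.T).comap f := mem_sup_left (subset_closure (Or.inl rfl))
  have st : closure {r, σ r} ⊔ (C.U ⊔ C.T).comap f ≤
      (closure {r, σ r} ⊔ (C.U ⊔ C.T).comap f).comap σ.toMonoidHom := by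
    refine sup_le ((closure_le _).2 ?_) fun x hx => mem_sup_right ((P.B x).2 hx)
    rintro x (rfl | rfl)
    · exact mem_sup_left (subset_closure (Or.inr rfl))
    · change σ (σ r) ∈ closure {r, σ r} ⊔ (C.U ⊔ C.T).comap f
      rw [hi]
      exact r1
  have r2 : r * g * r⁻¹ ∈ closure {r, σ r} ⊔ (C.U ⊔ C.T).comap f :=
    mul_mem (mul_mem r1 (mem_sup_right (mem_sup_left gU : f g ∈ C.U ⊔ C.T))) (inv_mem r1)
  obtain ⟨v, ⟨v1, v2⟩, v0, hv⟩ := P.fp (C.Um.comap f ⊓ (closure {r, σ r} ⊔ (C.U ⊔ C.T).comap f))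
    (fun x hx => ⟨(P.Um x).2 hx.1, st hx.2⟩) (r * g * r⁻¹) ⟨gm, r2⟩ _ k k0 e
  exact ⟨v, v2, hv, fun b => v0 (E.inj ((um_B F v1 b).trans (map_one f).symm))⟩

theorem h3 (F : Fa C) (E : Emb C f) (P : RP C f σ) (n : S) (hn : n ∈ C.Nn.comap f) (h : σ n = n)
    (hb : n ∉ (C.U ⊔ C.T).comap f) : ∃ u ∈ (C.U ⊔ C.T).comap f, σ u = u ∧
      n * u * n⁻¹ ∉ (C.U ⊔ C.T).comap f := by
  obtain ⟨w, hw, hm⟩ := F.b1.N_mon (f n) hn
  obtain ⟨a, ha, hp⟩ : ∃ a ∈ D.Δ, ¬ D.pos (w a) := by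
    by_contra c
    push Not at c
    obtain rfl := F.r.r.W_one w hw c
    exact hb (mem_sup_right (⟨hn, hm⟩ : f n ∈ C.T) : f n ∈ C.U ⊔ C.T)
  obtain ⟨g, k, -, e, gU, -, gm⟩ := move F P hm ha hp
  obtain ⟨v, ⟨v1, v2⟩, v0, hv⟩ := P.fp (C.U.comap f ⊓ conjBy (C.Um.comap f) n)
    (fun x hx => ⟨(P.U x).2 hx.1, mem_conjBy.2 (by
      have := (P.Um _).2 (mem_conjBy.1 hx.2)
      rwa [map_mul σ, map_mul σ, map_inv σ, h] at this)⟩) g ⟨gU, mem_conjBy.2 gm⟩ a 1 one_ne_zero e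
  refine ⟨v, (mem_sup_left v1 : f v ∈ C.U ⊔ C.T), hv, fun b => v0 ?_⟩
  have v3 : n * v * n⁻¹ ∈ C.Um.comap f := mem_conjBy.1 v2
  have : n * v * n⁻¹ = 1 := E.inj ((um_B F (y := f (n * v * n⁻¹)) v3 b).trans (map_one f).symm)
  simpa using this

theorem split (F : Fa C) (E : Emb C f) (P : RP C f σ) (b : S) (hb : f b ∈ C.U ⊔ C.T)
    (h : σ b = b) : ∃ u t, f u ∈ C.U ∧ f t ∈ C.T ∧ σ u = u ∧ σ t = t ∧ b = u * t := by
  obtain ⟨u, hu, t, ht, e⟩ := (F.b2.mem_B _).1 hb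
  obtain ⟨u, rfl⟩ := P.all u (U_le hu)
  obtain ⟨t, rfl⟩ := P.all t (F.b1.N_le t ht.1)
  obtain rfl : b = u * t := E.inj (by rw [e, map_mul])
  rw [map_mul] at h
  have e1 : u⁻¹ * σ u = t * (σ t)⁻¹ := by
    rw [inv_mul_eq_iff_eq_mul, ← mul_assoc, ← h, mul_inv_cancel_right]
  have e2 := (F.b2.UV (f (u⁻¹ * σ u)) (by
    rw [map_mul, map_inv]
    exact mul_mem (inv_mem hu) ((P.U u).2 hu)) 1 (one_mem _) (by
    rw [mul_one, e1, map_mul, map_inv]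
    exact mul_mem ht.1 (inv_mem ((P.T t).2 ht).1))).1
  have e3 : σ u = u := (inv_mul_eq_one.1 (E.inj (e2.trans (map_one f).symm))).symm
  rw [e3] at h
  exact ⟨u, t, hu, ht, e3, mul_left_cancel h, rfl⟩

end Reb

open Reb in
theorem rebS (h : FixS) : RebS := by
  intro ι Λ K V _ _ _ _ D C F S _ _ f σ ρ ψ G P p _ _ sb
  obtain ⟨R1, ne, bn⟩ := h S _ _ _ σ sb.toBN G.inv P.B P.N (h1 F G.emb P) (h2 F G.emb P G.inv)
    (h3 F G.emb P) sb.ne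
  refine ⟨_, _, (C.U.comap f).subgroupOf (fx σ), R1, bn, sb.pg.comap_subtype, ?_, ?_, ?_, ne⟩
  · refine le_antisymm (sup_le (fun x hx => (mem_sup_left hx : f x ∈ C.U ⊔ C.T)) inf_le_left) ?_
    rintro ⟨b, hf⟩ hb
    obtain ⟨u, t, hu, ht, su, st, rfl⟩ := split F G.emb P b hb hf
    have a1 : (⟨u, su⟩ : fx σ) ∈ (C.U.comap f).subgroupOf (fx σ) := hu
    have a2 : (⟨t, st⟩ : fx σ) ∈ ((C.U ⊔ C.T).comap f).subgroupOf (fx σ) ⊓
      (C.Nn.comap f).subgroupOf (fx σ) := ⟨(mem_sup_right ht : f t ∈ C.U ⊔ C.T), ht.1⟩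
    exact mul_mem_sup a1 a2
  · exact fun b hb => mem_normalizer_iff.2 fun x => mem_normalizer_iff.1 (sb.nor hb) x.1
  · exact fun c => sb.cop (c.trans (card_comap_dvd_of_injective
      ((C.U ⊔ C.T).comap f ⊓ C.Nn.comap f) (fx σ).subtype (fx σ).subtype_injective))

end Pool.Agent.MP_adf6dd_al.LT
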