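import Pool.Agent.MP_adf6dd_al.lt.SpecB

/-! The torus of the fixed points of the involution. -/

set_option autoImplicit false

namespace Pool.Agent.MP_adf6dd_al.LT

open Subgroup Module Multiplicative Pool.Agent.MP_983df8_al Pool.Agent.MP_983df8_al.CH

namespace RECx

theorem abs_part {S K : Type} [Group S] [Field K] [Finite K] (p : ℕ) [CharP K p] (σ : MulAut S)
    (hσ : ∀ g, σ (σ g) = g) (g : K → S) (h : S) (μ : Kˣ) (hadd : ∀ t u, g (t + u) = g t * g u)
    (hc : ∀ t u, Commute (g t) (σ (g u))) (hinj : ∀ t, g t * σ (g t) = 1 → t = 0)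
    (hh : Commute h (σ h)) (h1 : ∀ t, h * g t * h⁻¹ = g (μ * t))
    (h2 : ∀ t, Commute h (σ (g t))) : Fb (fx σ) p (orderOf μ) := by
  have fix : ∀ a : S, Commute a (σ a) → a * σ a ∈ fx σ := fun a ha => by
    show σ (a * σ a) = a * σ a
    rw [map_mul, hσ, ha.eq]
  have g0 : g 0 = 1 := by simpa using hadd 0 0
  let j : Multiplicative K →* fx σ :=
    { toFun := fun t => ⟨g t.toAdd * σ (g t.toAdd), fix _ (hc _ _)⟩
      map_one' := Subtype.ext (by simp [g0])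
      map_mul' := fun t u => Subtype.ext (by
        show g (t.toAdd + u.toAdd) * σ (g (t.toAdd + u.toAdd)) =
          g t.toAdd * σ (g t.toAdd) * (g u.toAdd * σ (g u.toAdd))
        rw [hadd, map_mul, mul_assoc, mul_assoc, ← mul_assoc (g u.toAdd), (hc _ _).eq,
          mul_assoc]) }
  refine ⟨K, inferInstance, inferInstance, inferInstance, j, ⟨h * σ h, fix _ hh⟩, μ,
    (injective_iff_map_eq_one j).2 fun t ht => ?_, fun t => Subtype.ext ?_, le_rfl⟩
  · exact hinj t.toAdd (congrArg Subtype.val ht)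
  · show h * σ h * (g t * σ (g t)) * (h * σ h)⁻¹ = g (μ * t) * σ (g (μ * t))
    have a1 : σ h * g t = g t * σ h := by
      have := congrArg σ (h2 t).eq
      simpa only [map_mul, hσ] using this
    have a2 : σ h * σ (g t) * (σ h)⁻¹ = σ (g (μ * t)) := by
      rw [← h1, map_mul, map_mul, map_inv]
    have a3 : h * σ (g (μ * t)) * h⁻¹ = σ (g (μ * t)) := by
      rw [(h2 _).eq, mul_inv_cancel_right]
    calc h * σ h * (g t * σ (g t)) * (h * σ h)⁻¹
        = h * (σ h * g t) * σ (g t) * (σ h)⁻¹ * h⁻¹ := by group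
      _ = h * g t * (σ h * σ (g t) * (σ h)⁻¹) * h⁻¹ := by rw [a1]; group
      _ = h * g t * h⁻¹ * (h * σ (g (μ * t)) * h⁻¹) := by rw [a2]; group
      _ = _ := by rw [h1, a3]

theorem size {K : Type} [Field K] [Finite K] (l : Kˣ) (hl : orderOf l = Nat.card Kˣ) (e : ℤ)
    (e1 : 1 ≤ e) (e4 : e ≤ 4) : Nat.card K ≤ (2 * orderOf (l ^ e) + 1) ^ 3 := by
  have m0 : 0 < orderOf (l ^ e) := orderOf_pos _
  have a : (orderOf l : ℤ) ∣ e * orderOf (l ^ e) := by
    rw [orderOf_dvd_iff_zpow_eq_one, zpow_mul, zpow_natCast, pow_orderOf_eq_one]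
  have b := Int.le_of_dvd (by positivity) a
  rw [hl, Nat.card_units] at b
  generalize orderOf (l ^ e) = m at *
  have c : (e * m : ℤ) ≤ 4 * m := mul_le_mul_of_nonneg_right e4 (by positivity)
  have d : Nat.card K ≤ 4 * m + 1 := by omega
  exact d.trans (by nlinarith [Nat.zero_le (m ^ 3), Nat.zero_le (m ^ 2)])

end RECx

theorem recS (h : FrmS) : RecS := by
  intro ι Λ K V _ _ _ _ D C F S _ _ f σ ρ ψ G P p _
  have := C.fin
  have po : D.pos C.o := F.r.t.pos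
  have pc : D.pos (ρ C.o) := (G.pos _).2 po
  have n1 : ρ C.o ≠ C.o := G.ne _
  have n2 : ρ C.o ≠ D.ng C.o := fun e => (F.r.r.pos_ng _).1 (e ▸ pc) po
  have cm : ∀ t u, Commute (C.x C.o t) (C.x (ρ C.o) u) := fun t u =>
    F.u2.comm D.ht _ _ t u po pc fun d i j hi hj e => by
      have a := C.top d
      rw [e, map_add, map_zsmul, map_zsmul, smul_eq_mul, smul_eq_mul] at a
      unfold RD.pos at po pc
      nlinarith
  choose g hg using fun t => P.all (C.x C.o t) (C.x_mem (Set.mem_univ _) t)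
  have hs : ∀ t, f (σ (g t)) = C.x (ρ C.o) (ψ C.o t) := fun t => G.xx _ t _ (hg t)
  obtain ⟨l, hl⟩ := IsCyclic.exists_ofOrder_eq_natCard (α := Kˣ)
  set α := D.cv C.o (D.rt (ρ C.o)) with hα
  set β := D.cv (ρ C.o) (D.rt C.o) with hβ
  have he : 1 ≤ 4 - α * β ∧ 4 - α * β ≤ 4 := by
    have := D.pair C.o (ρ C.o) n1 n2
    rw [← hα, ← hβ] at this
    simp only [Set.mem_insert_iff, Set.mem_singleton_iff, Prod.mk.injEq] at this
    rcases this with e | e | e | e | e | e | e | e | e | e | e <;> rw [e.1, e.2] <;> norm_num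
  have l0 : (l : K) ≠ 0 := l.ne_zero
  obtain ⟨t1, s1⟩ := F.b1.tor C.o 1 ((l : K) ^ (2 : ℤ)) one_ne_zero (zpow_ne_zero _ l0)
  obtain ⟨t2, s2⟩ := F.b1.tor (ρ C.o) 1 ((l : K) ^ (-α)) one_ne_zero (zpow_ne_zero _ l0)
  generalize C.n C.o ((l : K) ^ (2 : ℤ) * 1) * (C.n C.o 1)⁻¹ = y1 at t1 s1
  generalize C.n (ρ C.o) ((l : K) ^ (-α) * 1) * (C.n (ρ C.o) 1)⁻¹ = y2 at t2 s2
  have ty : y1 * y2 ∈ C.T := mul_mem t1 t2
  have sy : ∀ d, (y1 * y2).1 (C.e d) =
      (l : K) ^ (2 * D.cv C.o (D.rt d) + -α * D.cv (ρ C.o) (D.rt d)) • C.e d := fun d => by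
    rw [Units.val_mul, End.mul_apply, s2, map_smul, s1, smul_smul, ← zpow_mul, ← zpow_mul,
      ← zpow_add₀ l0, add_comm]
  obtain ⟨z, hz⟩ := P.all _ (F.b1.N_le _ ty.1)
  refine ⟨orderOf (l ^ (4 - α * β)), RECx.abs_part p σ G.inv g z _ (fun t u => G.emb.inj ?_)
    (fun t u => G.emb.inj ?_) (fun t e => ?_) (G.emb.inj ?_) (fun t => G.emb.inj ?_)
    fun t => G.emb.inj ?_, RECx.size l hl _ he.1 he.2⟩
  · rw [map_mul, hg, hg, hg, C.x_add]
  · rw [map_mul, map_mul, hg, hs]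
    exact (cm _ _).eq
  · have a := congrArg f e
    rw [map_mul, map_one, hg, hs] at a
    exact h.2.2 ι Λ K V D C F C.o (ρ C.o) t (-ψ C.o t) n1.symm
      (by rw [C.x_neg]; exact eq_inv_of_mul_eq_one_left a)
  · rw [map_mul, map_mul]
    exact F.b1.T_comm _ (hz ▸ ty) _ ((P.T z).2 (hz ▸ ty))
  · rw [map_mul, map_mul, map_inv, hz, hg, hg]
    refine F.b1.T_x _ ty _ _ t ?_
    rw [sy, D.two, ← hβ, Units.val_zpow_eq_zpow_val]
    congr 2
    ring
  · have a := F.b1.T_x _ ty (ρ C.o) 1 (ψ C.o t) (by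
      rw [sy, D.two, ← hα, show 2 * α + -α * 2 = 0 by ring, zpow_zero])
    rw [map_mul, map_mul, hz, hs]
    rw [one_mul] at a
    exact mul_inv_eq_iff_eq_mul.1 a

end Pool.Agent.MP_adf6dd_al.LT
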