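import Pool.Agent.MP_adf6dd_al.lt.SpecB

/-! The commutator relations along a family of roots at sixty degrees. -/

set_option autoImplicit false

namespace Pool.Agent.MP_adf6dd_al.LT

open Subgroup Module Pool.Agent.MP_983df8_al Pool.Agent.MP_983df8_al.CH

namespace Relx

variable {ι Λ : Type} [AddCommGroup Λ] {D : RD ι Λ}

theorem dual {a d : ι} {n : ℤ} (h : D.cv a (D.rt d) = n) (hn : 2 ≤ n) (ne : d ≠ a) :
    D.cv d (D.rt a) = 1 := by
  have := D.pair a d ne fun e => by
    rw [e, D.rt_ng, map_neg, D.two] at h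
    omega
  simp only [Set.mem_insert_iff, Set.mem_singleton_iff, Prod.mk.injEq] at this
  omega

theorem three (R : RDF D) {b b' d : ι} (h1 : D.cv b (D.rt b') = 1) (h2 : D.cv b' (D.rt b) = 1)
    (h : D.cv b (D.rt d) = 3) : 3 ∣ D.cv b' (D.rt d) := by
  obtain ⟨l, l0, hl⟩ := R.len
  have e1 := hl b d
  have e2 := hl b b'
  have e3 := hl b' d
  rw [dual h (by omega) fun e => by rw [e, D.two] at h; omega, h] at e1
  rw [h1, h2] at e2
  refine ⟨D.cv d (D.rt b'), mul_right_cancel₀ (l0 b).ne' ?_⟩
  linear_combination -e3 + D.cv d (D.rt b') * e1 - D.cv b' (D.rt d) * e2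

theorem fresh {k : ℕ} (hk : 4 ≤ k) (i j m : Fin k) : ∃ n, n ≠ i ∧ n ≠ j ∧ n ≠ m := by
  by_contra h
  have : (Finset.univ : Finset (Fin k)) ⊆ {i, j, m} := fun n _ => by
    simp only [Finset.mem_insert, Finset.mem_singleton]
    by_contra c
    exact h ⟨n, by tauto⟩
  have a := (Finset.card_le_card this).trans Finset.card_le_three
  simp only [Finset.card_univ, Fintype.card_fin] at a
  omega

theorem rt {k : ℕ} {b : Fin k → ι} (hb : Cf D b) {i j : Fin k} (h : i ≠ j) :
    D.rt (D.rf (b j) (b i)) = D.rt (b i) - D.rt (b j) := by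
  rw [D.rt_rf, hb j i h.symm, one_smul]

theorem cv {k : ℕ} {b : Fin k → ι} (hb : Cf D b) {i j : Fin k} (h : i ≠ j) :
    D.cv (D.rf (b j) (b i)) = D.cv (b i) - D.cv (b j) := by
  rw [D.cv_rf, hb i j h, one_smul]

end Relx

open Relx

theorem ortS : OrtS := by
  intro ι Λ K V _ _ _ _ D C F a c a' h0 h1 h2 t u
  obtain ⟨l, l0, hl⟩ := F.r.r.len
  have h0' : D.cv c (D.rt a) = 0 := by
    have := hl a c
    rw [h0, zero_mul] at this
    exact (mul_eq_zero.1 this).resolve_right (l0 c).ne'
  refine F.u2.comm (D.cv a + D.cv c) a c t u (by simp [D.two, h0']) (by simp [D.two, h0])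
    fun d i j hi hj e => ?_
  have e1 : D.cv a (D.rt d) = 2 * i := by simp [e, D.two, h0, mul_comm]
  have e2 : D.cv c (D.rt d) = 2 * j := by simp [e, D.two, h0', mul_comm]
  have e3 : D.cv a' (D.rt d) = i * D.cv a' (D.rt a) := by simp [e, h2]
  have b1 := (F.r.r.bound a d).2
  obtain rfl : i = 1 := by omega
  have e4 := hl a d
  rw [dual e1 (by omega) fun z => by rw [z, h0'] at e2; omega, e1] at e4
  have e5 := hl a a'
  have e6 := hl a' d
  have p := l0 a
  rw [e3] at e6
  rcases Int.eq_one_or_neg_one_of_mul_eq_one' h1 with ⟨x, y⟩ | ⟨x, y⟩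
  · rw [x, y] at e5
    rw [x] at e6
    have : (2 * D.cv d (D.rt a') - 1) * l a = 0 := by
      linear_combination e6 - D.cv d (D.rt a') * e4 + e5
    have := (mul_eq_zero.1 this).resolve_right p.ne'
    omega
  · rw [x, y] at e5
    rw [x] at e6
    have : (2 * D.cv d (D.rt a') + 1) * l a = 0 := by
      linear_combination e6 - D.cv d (D.rt a') * e4 + e5
    have := (mul_eq_zero.1 this).resolve_right p.ne'
    omega

theorem relS (h : OrtS) : RelS := by
  intro ι Λ K V _ _ _ _ D C F k b hk hb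
  have R := F.r.r
  have th : ∀ i n d, n ≠ i → D.cv (b i) (D.rt d) = 3 → 3 ∣ D.cv (b n) (D.rt d) :=
    fun i n d e => three R (hb i n e.symm) (hb n i e)
  refine ⟨fun i j s t => ?_, fun i j ij => ?_, fun i j m ij mj t u => ?_⟩
  · by_cases ij : i = j
    · rw [ij, Commute, SemiconjBy, ← C.x_add, ← C.x_add, add_comm]
    obtain ⟨n, n1, n2, -⟩ := fresh hk i j j
    refine F.u2.comm (D.cv (b i)) _ _ s t (by simp [D.two]) (hb i j ij).ge fun d p q hp hq e => ?_
    have e1 : D.cv (b i) (D.rt d) = p * 2 + q := by simp [e, D.two, hb i j ij]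
    have e2 : D.cv (b n) (D.rt d) = p + q := by simp [e, hb n i n1, hb n j n2]
    have b1 := (R.bound (b i) d).2
    have := th i n d n1 (by omega)
    omega
  · obtain ⟨n, n1, n2, -⟩ := fresh hk i j j
    have r := rt hb ij
    have s : D.rt (b i) = D.rt (b j) + D.rt (D.rf (b j) (b i)) := by rw [r]; abel
    have v : D.cv (D.rf (b j) (b i)) (D.rt (b j)) = -1 := by simp [cv hb ij, hb i j ij, D.two]
    have z : D.bot (D.rf (b j) (b i)) (b j) = 0 := by
      by_contra z
      obtain ⟨d, e⟩ := (D.str (D.rf (b j) (b i)) (b j)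
        (fun e => by rw [← e, D.two] at v; omega)
        (fun e => by
          have := congrArg (fun x => D.cv (D.rf (b j) (b i)) (D.rt x)) e
          simp only [D.rt_ng, map_neg, D.two] at this
          omega) (-1)).2 ⟨by omega, by omega⟩
      have e1 : D.cv (b j) (D.rt d) = 3 := by simp [e, r, D.two, hb j i ij.symm]
      have e2 : D.cv (b n) (D.rt d) = 1 := by simp [e, r, hb n i n1, hb n j n2]
      have := th j n d n2 e1
      omega
    have w := C.N_abs _ _ _ s
    rw [z] at w
    refine ⟨C.N (D.rf (b j) (b i)) (b j), ?_, fun t u => ?_⟩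
    · rcases Int.natAbs_eq_iff.1 w with w | w <;> simp [w]
    rw [← F.u2.comm2 (D.cv (b i)) _ _ _ t u (by simp [r, D.two, hb i j ij]) (hb i j ij) s
      fun d p q hp hq e => ?_, inv_mul_cancel_right]
    have e1 : D.cv (b i) (D.rt d) = p + q := by
      simp [e, r, D.two, hb i j ij]
    have e2 : D.cv (b n) (D.rt d) = q := by simp [e, r, hb n i n1, hb n j n2]
    have b1 := (R.bound (b i) d).2
    by_cases c : p + q = 3
    · have := th i n d n1 (by omega)
      omega
    obtain rfl : p = 1 := by omega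
    obtain rfl : q = 1 := by omega
    exact D.inj (by rw [e, s, one_smul, one_smul, add_comm])
  · obtain ⟨n, n1, n2, n3⟩ := fresh hk i j m
    have r := rt hb ij
    by_cases mi : m = i
    · subst mi
      refine F.u2.comm (D.cv (b m)) _ _ t u (by simp [r, D.two, hb m j ij]) (by simp [D.two])
        fun d p q hp hq e => ?_
      have e1 : D.cv (b m) (D.rt d) = p + q * 2 := by simp [e, r, D.two, hb m j ij]
      have e2 : D.cv (b n) (D.rt d) = q := by simp [e, r, hb n m n1, hb n j n2]
      have b1 := (R.bound (b m) d).2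
      have := th m n d n1 (by omega)
      omega
    refine h ι Λ K V D C F _ _ (D.rf (b n) (b i)) ?_ ?_ ?_ t u
    · simp [cv hb ij, hb i m (Ne.symm mi), hb j m mj.symm]
    · simp [cv hb ij, cv hb n1.symm, r, rt hb n1.symm, D.two, hb i j ij, hb j i ij.symm,
        hb n i n1, hb n j n2, hb i n n1.symm, hb j n n2.symm]
    · simp [cv hb n1.symm, hb i m (Ne.symm mi), hb n m n3]

end Pool.Agent.MP_adf6dd_al.LT
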