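import Pool.Agent.MP_adf6dd_al.lt.SpecA

/-! The character of an invariant space of functions. -/

set_option autoImplicit false

namespace Pool.Agent.MP_adf6dd_al.LT

open Module Representation

namespace RepX

variable {G Ω : Type} [Group G]

/-- the permutation representation -/
def lam (β : G →* Equiv.Perm Ω) : Representation ℚ G (Ω → ℚ) where
  toFun g := LinearMap.funLeft ℚ ℚ (β g⁻¹)
  map_one' := by
    refine LinearMap.ext fun f => funext fun a => ?_
    simp [LinearMap.funLeft]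
  map_mul' g h := by
    refine LinearMap.ext fun f => funext fun a => ?_
    simp [LinearMap.funLeft]

theorem lam_apply (β : G →* Equiv.Perm Ω) (g : G) (f : Ω → ℚ) (a : Ω) :
    lam β g f a = f (β g⁻¹ a) := rfl

/-- its restriction to an invariant subspace -/
def rho (β : G →* Equiv.Perm Ω) (V : Submodule ℚ (Ω → ℚ))
    (hV : ∀ g, ∀ f ∈ V, (fun a => f (β g a)) ∈ V) : Representation ℚ G V where
  toFun g := (lam β g).restrict (p := V) (q := V) (fun f hf => hV g⁻¹ f hf)
  map_one' := by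
    refine LinearMap.ext fun f => Subtype.ext ?_
    simp
  map_mul' g h := by
    refine LinearMap.ext fun f => Subtype.ext ?_
    simp

theorem rho_coe (β : G →* Equiv.Perm Ω) (V : Submodule ℚ (Ω → ℚ))
    (hV : ∀ g, ∀ f ∈ V, (fun a => f (β g a)) ∈ V) (g : G) (f : V) :
    (rho β V hV g f : Ω → ℚ) = lam β g f := rfl

theorem fin0 (β : G →* Equiv.Perm Ω) (V : Submodule ℚ (Ω → ℚ))
    (hV : ∀ g, ∀ f ∈ V, (fun a => f (β g a)) ∈ V) (ω : Ω) (tr : ∀ a, ∃ t, β t ω = a)
    (hc : ∀ f ∈ V, (∀ a b, f a = f b) → f = 0) : invariants (rho β V hV) = ⊥ := by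
  rw [eq_bot_iff]
  intro f hf
  rw [mem_invariants] at hf
  have h : ∀ a, (f : Ω → ℚ) a = (f : Ω → ℚ) ω := by
    intro a
    obtain ⟨t, rfl⟩ := tr a
    have := congrFun (congrArg Subtype.val (hf t⁻¹)) ω
    rw [rho_coe, lam_apply, inv_inv] at this
    exact this
  exact Subtype.ext (hc f f.2 fun a b => (h a).trans (h b).symm)

theorem proj [Fintype G] (β : G →* Equiv.Perm Ω) (V : Submodule ℚ (Ω → ℚ))
    (hV : ∀ g, ∀ f ∈ V, (fun a => f (β g a)) ∈ V) :
    ∃ π : (Ω → ℚ) →ₗ[ℚ] V, (∀ v : V, π v = v) ∧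
      ∀ g f, π (lam β g f) = rho β V hV g (π f) := by
  obtain ⟨p, hp⟩ := V.subtype.exists_leftInverse_of_injective V.ker_subtype
  have hp' : ∀ v : V, p v = v := fun v => LinearMap.congr_fun hp v
  have hc : (Fintype.card G : ℚ) ≠ 0 := by exact_mod_cast Fintype.card_ne_zero
  refine ⟨(Fintype.card G : ℚ)⁻¹ • ∑ t : G, (rho β V hV t) ∘ₗ p ∘ₗ (lam β t⁻¹), ?_, ?_⟩
  · intro v
    have : ∀ t : G, rho β V hV t (p (lam β t⁻¹ v)) = v := by
      intro t
      rw [← rho_coe β V hV, hp', ← Module.End.mul_apply, ← map_mul, mul_inv_cancel, map_one]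
      rfl
    simp only [LinearMap.smul_apply, LinearMap.sum_apply, LinearMap.comp_apply, this,
      Finset.sum_const, Finset.card_univ]
    rw [← Nat.cast_smul_eq_nsmul ℚ, smul_smul, inv_mul_cancel₀ hc, one_smul]
  · intro g f
    simp only [LinearMap.smul_apply, LinearMap.sum_apply, LinearMap.comp_apply, map_smul, map_sum]
    congr 1
    rw [← Equiv.sum_comp (Equiv.mulLeft g)]
    refine Finset.sum_congr rfl fun t _ => ?_
    have e : lam β (g * t)⁻¹ (lam β g f) = lam β t⁻¹ f := by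
      rw [← Module.End.mul_apply, ← map_mul]
      congr 2
      group
    rw [Equiv.coe_mulLeft, e, map_mul, Module.End.mul_apply]

/-- the equivariant endomorphisms -/
noncomputable def EI {W : Type} [AddCommGroup W] [Module ℚ W] (ρ : Representation ℚ G W) :
    Submodule ℚ (W →ₗ[ℚ] W) := invariants (linHom ρ ρ)

theorem mem_EI {W : Type} [AddCommGroup W] [Module ℚ W] (ρ : Representation ℚ G W)
    (φ : W →ₗ[ℚ] W) : φ ∈ EI ρ ↔ ∀ g v, ρ g (φ (ρ g⁻¹ v)) = φ v := by
  rw [EI, mem_invariants]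
  exact forall_congr' fun g => LinearMap.ext_iff

theorem chr [Fintype G] {W : Type} [AddCommGroup W] [Module ℚ W] [FiniteDimensional ℚ W]
    (ρ : Representation ℚ G W) (h1 : finrank ℚ (EI ρ) = 1) :
    ∑ t, ρ.character t * ρ.character t⁻¹ = Nat.card G := by
  have hcard : (Nat.card G : ℚ) ≠ 0 := by exact_mod_cast Nat.card_pos.ne'
  have := invertibleOfNonzero hcard
  have h := card_inv_mul_sum_char_eq_finrank (linHom ρ ρ)
  rw [EI] at h1
  rw [h1] at h
  simp only [char_linHom] at h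
  rw [inv_mul_eq_iff_eq_mul₀ hcard] at h
  simp only [Nat.cast_one, mul_one] at h
  rw [← h]
  exact Finset.sum_congr rfl fun t _ => mul_comm _ _

theorem one {W : Type} [AddCommGroup W] [Module ℚ W] [FiniteDimensional ℚ W]
    (ρ : Representation ℚ G W) (l : W →ₗ[ℚ] ℚ) (e : W)
    (h0 : ∀ φ : W →ₗ[ℚ] W, (∀ g v, φ (ρ g v) = ρ g (φ v)) → l (φ e) = 0 → ∀ v, φ v = 0)
    (v : W) (hv : v ≠ 0) : finrank ℚ (EI ρ) = 1 := by
  let Φ : EI ρ →ₗ[ℚ] ℚ :=
    { toFun := fun φ => l ((φ : W →ₗ[ℚ] W) e)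
      map_add' := fun φ ψ => by simp
      map_smul' := fun c φ => by simp }
  have hinj : Function.Injective Φ := by
    rw [injective_iff_map_eq_zero]
    intro φ h
    refine Subtype.ext (LinearMap.ext (h0 φ (fun t w => ?_) h))
    have h := (mem_EI _ _).1 φ.2 t (ρ t w)
    rw [← Module.End.mul_apply (ρ t⁻¹), ← map_mul, inv_mul_cancel, map_one,
      Module.End.one_apply] at h
    exact h.symm
  have hle := LinearMap.finrank_le_finrank_of_injective hinj
  rw [finrank_self] at hle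
  have hid : (LinearMap.id : W →ₗ[ℚ] W) ∈ EI ρ := by
    rw [mem_EI]
    intro g w
    rw [LinearMap.id_apply, ← Module.End.mul_apply, ← map_mul, mul_inv_cancel, map_one]
    rfl
  have hpos : 0 < finrank ℚ (EI ρ) := by
    rw [finrank_pos_iff_exists_ne_zero]
    exact ⟨⟨_, hid⟩, fun h => hv (LinearMap.congr_fun (congrArg Subtype.val h) v)⟩
  omega

theorem fin1 [Fintype G] [Finite Ω] (β : G →* Equiv.Perm Ω) (V : Submodule ℚ (Ω → ℚ))
    (hV : ∀ g, ∀ f ∈ V, (fun a => f (β g a)) ∈ V) (ω : Ω) (tr : ∀ a, ∃ t, β t ω = a)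
    (hne : V ≠ ⊥)
    (hf : ∀ f ∈ V, (∀ t, β t ω = ω → ∀ a, f (β t a) = f a) → f ω = 0 → f = 0) :
    finrank ℚ (EI (rho β V hV)) = 1 := by
  classical
  obtain ⟨π, h1, h2⟩ := proj β V hV
  have hδ : ∀ (t : G) (a : Ω), lam β t (Pi.single a (1 : ℚ)) = Pi.single (β t a) (1 : ℚ) := by
    intro t a
    funext b
    rw [lam_apply, Pi.single_apply, Pi.single_apply]
    refine if_congr ?_ rfl rfl
    rw [map_inv, Equiv.Perm.inv_eq_iff_eq]
  obtain ⟨v, hv, hv0⟩ := (Submodule.ne_bot_iff V).1 hne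
  refine one (rho β V hV) (LinearMap.proj ω ∘ₗ V.subtype) (π (Pi.single ω 1)) ?_ ⟨v, hv⟩
    (fun h => hv0 (congrArg Subtype.val h))
  intro φ hcomm h0
  have e0 : φ (π (Pi.single ω 1)) = 0 := by
    refine Subtype.ext (hf _ (φ (π (Pi.single ω 1))).2 ?_ h0)
    intro t ht a
    have ht' : β t⁻¹ ω = ω := by rw [map_inv, Equiv.Perm.inv_eq_iff_eq, ht]
    have h := hcomm t⁻¹ (π (Pi.single ω 1))
    rw [← h2, hδ, ht'] at h
    have h' := congrFun (congrArg Subtype.val h) a
    rw [rho_coe, lam_apply, inv_inv] at h'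
    exact h'.symm
  have e1 : ∀ a, φ (π (Pi.single a 1)) = 0 := by
    intro a
    obtain ⟨t, rfl⟩ := tr a
    rw [← hδ, h2, hcomm, e0, map_zero]
  have e2 : φ ∘ₗ π = 0 := by
    refine LinearMap.pi_ext' fun a => LinearMap.ext_ring ?_
    simpa using e1 a
  intro w
  have := LinearMap.congr_fun e2 w
  rw [LinearMap.comp_apply, h1] at this
  exact this

end RepX

open RepX in
theorem repS : RepS := by
  intro T _ _ ⟨Ω, _, β, V, ω, hV, tr, hne, hf, hc⟩
  classical
  have := Fintype.ofFinite T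
  have hcard : (Nat.card T : ℚ) ≠ 0 := by exact_mod_cast Nat.card_pos.ne'
  have := invertibleOfNonzero hcard
  let b := Module.finBasis ℚ V
  let γ : T →* Equiv.Perm Ω := β.comp MulAut.conj
  have hV' : ∀ g, ∀ f ∈ V, (fun a => f (γ g a)) ∈ V := fun g => hV (MulAut.conj g)
  let M : MulAut T →* Matrix (Fin (finrank ℚ V)) (Fin (finrank ℚ V)) ℚ :=
    (LinearMap.toMatrixAlgEquiv b).toRingEquiv.toMonoidHom.comp (rho β V hV)
  have hM : ∀ t : T, (M (MulAut.conj t)).trace = (rho γ V hV').character t := by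
    intro t
    have e : rho β V hV (MulAut.conj t) = rho γ V hV' t := by
      refine LinearMap.ext fun f => Subtype.ext (funext fun a => ?_)
      rw [rho_coe, rho_coe, lam_apply, lam_apply, ← map_inv]
      rfl
    rw [Representation.character, ← e, LinearMap.trace_eq_matrix_trace ℚ b]
    rfl
  refine ⟨_, M, ?_, ?_⟩
  · rw [finsum_eq_sum_of_fintype]
    simp only [hM]
    exact chr _ (fin1 γ V hV' ω tr hne hf)
  · rw [finsum_eq_sum_of_fintype]
    simp only [hM]
    have h := card_inv_mul_sum_char_eq_finrank (rho γ V hV')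
    rw [fin0 γ V hV' ω tr hc, finrank_bot, inv_mul_eq_iff_eq_mul₀ hcard] at h
    simpa using h

end Pool.Agent.MP_adf6dd_al.LT
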