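import Pool.Agent.MP_adf6dd_al.lt.SpecA

/-! A Singer element of determinant one. -/

set_option autoImplicit false

namespace Pool.Agent.MP_adf6dd_al.LT

open Multiplicative Matrix

namespace Slk

variable {T : Type} [Group T] {K : Type} [Field K] {k : ℕ}

/-- an elementary transvection on vectors -/
def tv (i j : Fin k) (a : K) (v : Fin k → K) : Fin k → K := v + Pi.single i (a * v j)

/-- the map is induced by a conjugation -/
def Q (e : (Fin k → K) → T) (L : (Fin k → K) → Fin k → K) : Prop :=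
  ∃ y : T, ∀ v, y * e v * y⁻¹ = e (L v)

omit [Field K] in
theorem Q.comp {e : (Fin k → K) → T} {L L' : (Fin k → K) → Fin k → K} (h : Q e L) (h' : Q e L') :
    Q e fun v => L (L' v) := by
  obtain ⟨y, hy⟩ := h
  obtain ⟨z, hz⟩ := h'
  refine ⟨y * z, fun v => ?_⟩
  rw [← hy, ← hz]
  group

theorem frame (h : Fr T K k) : ∃ e : (Fin k → K) → T, (∀ v w, e (v + w) = e v * e w) ∧
    (∀ i, e (Pi.single i 1) ≠ 1) ∧ ∀ i j, i ≠ j → ∀ a, Q e (tv i j a) := by
  obtain ⟨ξ, h1, h2, h3, h4⟩ := h
  let φ : Fin k → Multiplicative K →* T := fun i =>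
    MonoidHom.mk' (fun s => ξ i s.toAdd) fun s t => h1 i _ _
  let E := MonoidHom.noncommPiCoprod φ fun i j _ s t => h2 i j _ _
  let e : (Fin k → K) → T := fun v => E fun i => ofAdd (v i)
  have e1 : ∀ v w, e (v + w) = e v * e w := fun v w => E.map_mul _ _
  have e0 : e 0 = 1 := E.map_one
  have e2 : ∀ i s, e (Pi.single i s) = ξ i s := by
    intro i s
    have : (fun j => ofAdd (Pi.single (M := fun _ => K) i s j)) =
        Pi.mulSingle (M := fun _ => Multiplicative K) i (ofAdd s) := by
      ext j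
      by_cases hj : j = i
      · simp [hj]
      · simp [hj]
    simp only [e, this, E, MonoidHom.noncommPiCoprod_mulSingle]
    rfl
  refine ⟨e, e1, fun i => e2 i 1 ▸ h3 i, fun i j hij a => ?_⟩
  obtain ⟨y, y1, y2⟩ := h4 i j hij a
  refine ⟨y, fun v => ?_⟩
  induction v using Pi.single_induction with
  | zero => simp [tv, e0]
  | add v w hv hw =>
    have : tv i j a (v + w) = tv i j a v + tv i j a w := by
      simp only [tv, Pi.add_apply, mul_add, Pi.single_add]
      abel
    rw [this, e1, e1, ← hv, ← hw]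
    group
  | single m u =>
    by_cases hm : m = j
    · subst hm
      rw [tv, e1, e2, e2, y1, Pi.single_eq_same, (h2 _ _ _ _).eq]
    · rw [tv, Pi.single_eq_of_ne' hm, mul_zero, Pi.single_zero, add_zero, e2, y2 m hm]

theorem all_sl {e : (Fin k → K) → T} (hk : 2 ≤ k) (h : ∀ i j, i ≠ j → ∀ a, Q e (tv i j a))
    (M : SpecialLinearGroup (Fin k) K) : Q e fun v => M.1 *ᵥ v := by
  have : Nontrivial (Fin k) := Fin.nontrivial_iff_two_le.2 hk
  refine SpecialLinearGroup.diagonal_transvection_induction' (fun M => Q e fun v => M.1 *ᵥ v) M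
    (fun i j hij c hc => ?_) (fun i j hij a => ?_) fun A B hA hB => ?_
  · have := (h i j hij c).comp ((h j i hij.symm (-c⁻¹)).comp ((h i j hij c).comp
      ((h i j hij (-1)).comp ((h j i hij.symm 1).comp (h i j hij (-1))))))
    convert this using 2 with v
    ext m
    rw [SpecialLinearGroup.diag2n_coe, mulVec_diagonal]
    by_cases h1 : m = i
    · subst h1
      simp [tv, hij, hij.symm]
      field_simp
      ring
    · by_cases h2 : m = j
      · subst h2
        simp [tv, hij, hij.symm]
        field_simp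
        ring
      · simp [tv, h1, h2]
  · convert h i j hij a using 2 with v
    rw [SpecialLinearGroup.transvection_coe, add_mulVec, one_mulVec, tv, single_mulVec_eq]
    ext m
    simp [Pi.single_apply]
  · convert hA.comp hB using 2 with v
    exact (mulVec_mulVec v A.1 B.1).symm

theorem inj {e : (Fin k → K) → T} (hk : 2 ≤ k) (e1 : ∀ v w, e (v + w) = e v * e w)
    (e2 : ∀ i, e (Pi.single i 1) ≠ 1) (h : ∀ i j, i ≠ j → ∀ a, Q e (tv i j a)) (v : Fin k → K)
    (hv : e v = 1) : v = 0 := by
  have : Nontrivial (Fin k) := Fin.nontrivial_iff_two_le.2 hk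
  ext j
  by_contra hj
  obtain ⟨i, hi⟩ := exists_ne j
  obtain ⟨y, hy⟩ := h i j hi (v j)⁻¹
  have := hy v
  rw [tv, e1, hv, inv_mul_cancel₀ hj] at this
  exact e2 i (by simpa using this.symm)

end Slk

open Slk in
theorem slkS : SlkS := by
  intro T _ p _ K _ _ _ k hk h
  obtain ⟨e, e1, e2, e3⟩ := frame h
  have : NeZero k := ⟨by omega⟩
  let F := FiniteField.Extension K p k
  have : CharP F p := charP_of_injective_algebraMap (algebraMap K F).injective p
  let b : Module.Basis (Fin k) K F :=
    Module.finBasisOfFinrankEq K F (FiniteField.finrank_extension K p k)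
  obtain ⟨g, hg⟩ := IsCyclic.exists_ofOrder_eq_natCard (α := Fˣ)
  obtain ⟨r, hr⟩ : ∃ r, Nat.card K = r + 1 := ⟨_, (Nat.succ_pred_eq_of_pos Nat.card_pos).symm⟩
  have r1 : 1 ≤ r := by
    have := Finite.one_lt_card (α := K)
    omega
  have hdet : (Algebra.leftMulMatrix b ((g ^ r : Fˣ) : F)).det = 1 := by
    rw [← Algebra.norm_eq_matrix_det, Units.val_pow_eq_pow_val, map_pow]
    have := Fintype.ofFinite K
    have h1 := FiniteField.pow_card_sub_one_eq_one (Algebra.norm K (g : F))
      (Algebra.norm_ne_zero_iff.2 g.ne_zero)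
    rwa [Fintype.card_eq_nat_card, hr, Nat.add_sub_cancel] at h1
  obtain ⟨x, hx⟩ := all_sl hk e3 ⟨_, hdet⟩
  let j : Multiplicative F →* T :=
    MonoidHom.mk' (fun t => e (b.repr t.toAdd)) fun s t => by
      rw [toAdd_mul, map_add, Finsupp.coe_add, e1]
  refine ⟨F, inferInstance, inferInstance, this, j, x, g ^ r, ?_, fun t => ?_, ?_⟩
  · refine (injective_iff_map_eq_one j).2 fun t ht => ?_
    have h1 := inj hk e1 e2 e3 _ ht
    have h2 : b.repr t.toAdd = 0 := DFunLike.coe_injective h1
    exact toAdd.injective (b.repr.map_eq_zero_iff.1 h2)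
  · refine (hx _).trans (congrArg e ?_)
    exact Algebra.leftMulMatrix_mulVec_repr b _ _
  · by_contra hn
    have h1 : orderOf g ∣ r * orderOf (g ^ r) :=
      orderOf_dvd_of_pow_eq_one (by rw [pow_mul, pow_orderOf_eq_one])
    have h2 := Nat.le_of_dvd (Nat.mul_pos r1 (orderOf_pos _)) h1
    obtain ⟨m, rfl⟩ : ∃ m, k = m + 1 := ⟨k - 1, by omega⟩
    rw [hg, Nat.card_units, FiniteField.natCard_extension, hr, pow_succ] at h2
    have h3 : 2 ^ m ≤ (r + 1) ^ m := Nat.pow_le_pow_left (by omega) m
    have h4 : 0 < (r + 1) ^ m := by positivity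
    rw [Nat.add_sub_cancel] at hn
    have h5 : orderOf (g ^ r) + 1 ≤ (r + 1) ^ m := by omega
    have h6 := Nat.mul_le_mul_left r h5
    rw [mul_add, mul_one, mul_comm _ r] at h2
    rw [mul_add, mul_one] at h6
    omega

end Pool.Agent.MP_adf6dd_al.LT
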