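import Pool.Agent.MP_adf6dd_al.lt.SpecA

/-! Row SYL: in a finite group with a split BN-pair the subgroup `U` is a Sylow subgroup with
normaliser `B`; the automorphism group acts on the Sylow subgroups. -/

set_option autoImplicit false

namespace Pool.Agent.MP_adf6dd_al.LT

open Subgroup

namespace SylX

variable {S : Type} [Group S] {B N U : Subgroup S} {R : Set S} {p : ℕ} {g : S}

theorem le (H : SB p B N U R) : U ≤ B := le_sup_left.trans H.split.le

theorem conj (H : SB p B N U R) (a : g ∈ B) (u : S) : g * u * g⁻¹ ∈ U ↔ u ∈ U :=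
  (mem_normalizer_iff.1 (H.nor a) u).symm

theorem dec (H : SB p B N U R) (a : g ∈ B) : ∃ u ∈ U, ∃ t ∈ B ⊓ N, u * t = g :=
  (coe_mul_of_right_le_normalizer_left U _ (inf_le_left.trans H.nor)).le (H.split.ge a)

theorem mem_U [Finite S] (hp : p.Prime) (H : SB p B N U R) (a : g ∈ B) {k : ℕ}
    (b : g ^ p ^ k = 1) : g ∈ U := by
  obtain ⟨u, hu, t, ht, rfl⟩ := dec H a
  have c : ∀ m : ℕ, (u * t) ^ m * (t ^ m)⁻¹ ∈ U := fun m => by
    induction m with
    | zero => simp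
    | succ m ih => simpa [pow_succ', mul_assoc] using mul_mem hu ((conj H ht.1 _).2 ih)
  obtain ⟨m, hm⟩ := exists_pow_eq_self_of_coprime (x := u * t) (n := Nat.card ↥(B ⊓ N))
    (Nat.Coprime.coprime_dvd_right (orderOf_dvd_of_pow_eq_one b)
      ((hp.coprime_iff_not_dvd.2 H.cop).symm.pow_right k))
  have := c (Nat.card ↥(B ⊓ N))
  rw [show t ^ _ = 1 from congrArg Subtype.val (pow_card_eq_one' (x := (⟨t, ht⟩ : ↥(B ⊓ N)))),
    inv_one, mul_one] at this
  exact hm ▸ pow_mem this m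

theorem mem_B (H : SB p B N U R) (b : ∀ u ∈ U, g * u * g⁻¹ ∈ U) : g ∈ B := by
  by_contra hg
  obtain ⟨n, hn, c, hc, d, hd, rfl⟩ := H.toBN.bruhat g
  obtain ⟨r, hr, l⟩ := H.toBN.desc hn fun e => hg (mul_mem (mul_mem hc e) hd)
  obtain ⟨b0, b1, x, hx, y, hy, e⟩ := H.toBN.exists_down hr hn (by omega)
  obtain ⟨u, hu, t, ht, rfl⟩ := dec H hy
  have h1 : n * u * n⁻¹ ∈ U := by
    have h2 := (conj H (inv_mem hc) _).2 (b _ ((conj H (inv_mem hd) u).2 hu))
    have h3 : c⁻¹ * (c * n * d * (d⁻¹ * u * d⁻¹⁻¹) * (c * n * d)⁻¹) * c⁻¹⁻¹ = n * u * n⁻¹ := by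
      group
    rwa [h3] at h2
  have h4 : r = x * (n * u * n⁻¹) * (n * t * n⁻¹) * b0⁻¹ := by
    have h5 : r = x * n * (u * t) * n⁻¹ * b0⁻¹ := by rw [← e]; group
    rw [h5]; group
  exact H.toBN.not_mem hr (h4 ▸ mul_mem (mul_mem (mul_mem hx (le H h1))
    (H.toBN.conj_mem hn ht.1 ht.2)) (inv_mem b1))

theorem sylow [Finite S] [hp : Fact p.Prime] (H : SB p B N U R) :
    ∃ P : Sylow p S, (P : Subgroup S) = U := by
  obtain ⟨P, hP⟩ := H.pg.exists_le_sylow
  refine ⟨P, le_antisymm ?_ hP⟩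
  by_contra hn
  have := P.isPGroup'.isNilpotent
  have h1 : U.subgroupOf (P : Subgroup S) < ⊤ :=
    lt_top_iff_ne_top.2 fun e => hn (subgroupOf_eq_top.1 e)
  obtain ⟨g, h2, h3⟩ := SetLike.exists_of_lt (Group.normalizerCondition_of_isNilpotent _ h1)
  obtain ⟨k, hk⟩ := P.isPGroup' g
  refine h3 (mem_subgroupOf.2 (mem_U hp.out H (mem_B H fun u hu => ?_) (k := k)
    (congrArg Subtype.val hk)))
  exact mem_subgroupOf.1 ((mem_normalizer_iff.1 h2 ⟨u, hP hu⟩).1 (mem_subgroupOf.2 hu))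

end SylX

theorem sylS : SylS := by
  intro S _ _ p _ B N U R H
  obtain ⟨P, hP⟩ := SylX.sylow H
  refine ⟨Sylow p S, inferInstance, MulAction.toPermHom (MulAut S) (Sylow p S), P,
    fun a => MulAction.exists_smul_eq S P a, fun t => ?_⟩
  refine (Sylow.smul_eq_iff_mem_normalizer (g := t) (P := P)).trans ?_
  rw [← P.coe_coe, hP]
  exact ⟨fun h => SylX.mem_B H fun u hu => (mem_normalizer_iff.1 h u).1 hu, fun h => H.nor h⟩

end Pool.Agent.MP_adf6dd_al.LT
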