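import Pool.Agent.MP_adf6dd_al.lt.SpecB

/-! Row TOR: the torus on the highest root subgroup; the split BN-pair. -/

set_option autoImplicit false

namespace Pool.Agent.MP_adf6dd_al.LT

open Subgroup Module Multiplicative Pool.Agent.MP_983df8_al Pool.Agent.MP_983df8_al.CH

namespace Torx

theorem card_le {K : Type} [Field K] [Finite K] (θ : RingAut K) (h : orderOf θ ≤ 3)
    (h0 : 0 < orderOf θ) :
    Nat.card K ≤ Nat.card (FixedPoints.subfield (zpowers θ) K) ^ 3 := by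
  classical
  have : Finite (zpowers θ) := (finite_zpowers.2 (orderOf_pos_iff.1 h0)).to_subtype
  let : Fintype (zpowers θ) := Fintype.ofFinite _
  have h1 := FixedPoints.finrank_le_card (zpowers θ) K
  rw [← Nat.card_eq_fintype_card, Nat.card_zpowers] at h1
  rw [Module.natCard_eq_pow_finrank (K := FixedPoints.subfield (zpowers θ) K) (V := K)]
  exact Nat.pow_le_pow_right Nat.card_pos (h1.trans h)

theorem gen_sq (F : Type) [Field F] [Finite F] :
    ∃ l : Fˣ, Nat.card F ≤ 2 * orderOf (l ^ 2) + 1 := by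
  obtain ⟨l, hl⟩ := IsCyclic.exists_ofOrder_eq_natCard (α := Fˣ)
  refine ⟨l, ?_⟩
  have h1 : orderOf l ∣ 2 * orderOf (l ^ 2) :=
    orderOf_dvd_of_pow_eq_one (by rw [pow_mul, pow_orderOf_eq_one])
  have h2 : orderOf l ≤ 2 * orderOf (l ^ 2) :=
    Nat.le_of_dvd (Nat.mul_pos two_pos (orderOf_pos _)) h1
  rw [hl, Nat.card_units] at h2
  omega

end Torx

theorem torS (h : CH.S_BN.{0}) : TorS := by
  intro ι Λ K V _ _ _ _ D C hF S _ _ f hf p _ _
  obtain ⟨h1, h2, -⟩ := h ι Λ K V D C hF.r hF.u1 hF.u2 hF.b1 hF.b2 hF.t S f hf p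
  have pre : ∀ y ∈ C.G1, ∃ g, f g = y := fun y hy => by
    rw [← hf.range] at hy
    exact hy
  refine ⟨?_, BN.of_tits h1, h2.1, h2.2.1, h2.2.2.1, h2.2.2.2.2.1, ?_⟩
  · have := C.fin
    have ho : C.τ C.o = C.o := hF.r.s.top _ C.top
    obtain ⟨w, w0, hw⟩ := hF.b1.fixr _ ho
    have hd : orderOf C.θ ≤ 3 ∧ 0 < orderOf C.θ := by
      rw [C.θ_ord]
      rcases C.dd_val with e | e | e <;> omega
    have hc := Torx.card_le C.θ hd.1 hd.2
    set F := FixedPoints.subfield (zpowers C.θ) K with hFd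
    have hfix : ∀ s : F, C.θ (s : K) = s := fun s => s.2 ⟨C.θ, mem_zpowers _⟩
    have hws : ∀ s : F, C.ε C.o * C.θ ((s : K) * w) = s * w := fun s => by
      rw [map_mul, hfix, mul_left_comm, hw]
    have hx : ∀ s : F, C.x C.o ((s : K) * w) ∈ C.G1 := fun s =>
      mem_sup_left ⟨C.x_mem hF.r.t.pos _, C.mem_Fix.2 (by rw [C.σ_x, ho, hws])⟩
    choose j0 hj0 using fun s : F => pre _ (hx s)
    obtain ⟨l, hl⟩ := Torx.gen_sq F
    have l0 : ((l : F) : K) ≠ 0 := by simp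
    obtain ⟨hT, hact⟩ := hF.b1.tor C.o w ((l : F) : K) w0 l0
    obtain ⟨x, hxx⟩ := pre _ (mul_mem (hF.b1.fix_n _ _ ho (hws l)) (inv_mem (hF.b1.fix_n _ _ ho hw)))
    refine ⟨orderOf (l ^ 2), ⟨F, inferInstance, inferInstance, inferInstance,
      MonoidHom.mk' (fun s => j0 (toAdd s)) fun a b => hf.inj ?_, x, l ^ 2, fun a b e => ?_,
      fun t => hf.inj ?_, le_rfl⟩, hc.trans (Nat.pow_le_pow_left hl 3)⟩
    · rw [f.map_mul, hj0, hj0, hj0, ← C.x_add, toAdd_mul]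
      push_cast
      rw [add_mul]
    · have e' : f (j0 (toAdd a)) = f (j0 (toAdd b)) := congrArg f e
      rw [hj0, hj0] at e'
      exact toAdd.injective (Subtype.ext (mul_right_cancel₀ w0 (hF.u1.x_inj _ _ _ e')))
    · simp only [map_mul, map_inv, MonoidHom.mk'_apply, toAdd_ofAdd]
      rw [hj0, hj0, hxx, hF.b1.T_x _ hT _ _ _ (hact C.o), D.two]
      congr 1
      push_cast
      rw [mul_assoc, zpow_two, pow_two]
  · obtain ⟨a, ha⟩ := Finset.card_pos.1 (lt_trans one_pos D.rank)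
    obtain ⟨-, -, y, hy, -, y1, -⟩ := hF.t.orb a ha
    obtain ⟨-, -, r, -, -, hr, -⟩ := hF.t.low a ha y hy y1
    obtain ⟨g, hg⟩ := pre r hr.2.1
    exact ⟨g, a, ha, hg ▸ hr⟩

end Pool.Agent.MP_adf6dd_al.LT
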