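import Pool.Agent.MP_adf6dd_al.lt.Glue
import Pool.Agent.MP_adf6dd_al.lt.Syl
import Pool.Agent.MP_adf6dd_al.lt.Apa
import Pool.Agent.MP_adf6dd_al.lt.Blk
import Pool.Agent.MP_adf6dd_al.lt.Rep
import Pool.Agent.MP_adf6dd_al.lt.Par
import Pool.Agent.MP_adf6dd_al.lt.Fix
import Pool.Agent.MP_adf6dd_al.lt.Cor
import Pool.Agent.MP_adf6dd_al.lt.Slk
import Pool.Agent.MP_adf6dd_al.lt.Idp
import Pool.Agent.MP_adf6dd_al.lt.Frm
import Pool.Agent.MP_adf6dd_al.lt.Gro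
import Pool.Agent.MP_adf6dd_al.lt.Cn2
import Pool.Agent.MP_adf6dd_al.lt.Exc
import Pool.Agent.MP_adf6dd_al.lt.Hom
import Pool.Agent.MP_adf6dd_al.lt.Rel
import Pool.Agent.MP_adf6dd_al.lt.Frf
import Pool.Agent.MP_adf6dd_al.lt.Frs
import Pool.Agent.MP_adf6dd_al.lt.Tor
import Pool.Agent.MP_adf6dd_al.lt.Rea
import Pool.Agent.MP_adf6dd_al.lt.Reb
import Pool.Agent.MP_adf6dd_al.lt.Rec

/-! All rows together. -/

set_option autoImplicit false

namespace Pool.Agent.MP_adf6dd_al.LT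

theorem rows : Rows :=
  ⟨sylS, apaS, blkS, repS, slkS, ariS, frmS, cntS2 groS, homS excS idpS, relS ortS, frfS,
    frsS ortS, torS MP_983df8_al.CH.bn, reaS frmS, rebS (fixS parS), recS frmS⟩

end Pool.Agent.MP_adf6dd_al.LT
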