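import Pool.Agent.MP_adf6dd_al.lt.BN

/-! Groups of Lie type as composition factors: abstract part, definitions and row statements. -/

set_option autoImplicit false

namespace Pool.Agent.MP_adf6dd_al.LT

open Subgroup Multiplicative

/-- a split BN-pair that is not trivial -/
structure SB {S : Type} [Group S] (p : ℕ) (B N U : Subgroup S) (R : Set S) : Prop
    extends BN B N R where
  pg : IsPGroup p U
  split : U ⊔ B ⊓ N = B
  nor : B ≤ normalizer U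
  cop : ¬ p ∣ Nat.card ↥(B ⊓ N)
  ne : R.Nonempty

/-- existence of a split BN-pair -/
def HasSB (p : ℕ) (S : Type) [Group S] : Prop := ∃ B N U : Subgroup S, ∃ R, SB p B N U R

/-- the automorphism group acts, the inner ones transitively with point stabiliser `B` -/
structure Act {S Ω : Type} [Group S] (B : Subgroup S) (β : MulAut S →* Equiv.Perm Ω) (ω : Ω) :
    Prop where
  tr : ∀ a, ∃ t, β (MulAut.conj t) ω = a
  st : ∀ t, β (MulAut.conj t) ω = ω ↔ t ∈ B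

/-- blocks with at least two points -/
def Blk {S Ω : Type} [Group S] (β : MulAut S →* Equiv.Perm Ω) (X : Finset Ω) : Prop :=
  (∃ a ∈ X, ∃ b ∈ X, a ≠ b) ∧
    ∀ t : S, ∀ a ∈ X, β (MulAut.conj t) a ∈ X → ∀ b ∈ X, β (MulAut.conj t) b ∈ X

/-- functions with sum zero on every block -/
def VV {S Ω : Type} [Group S] (β : MulAut S →* Equiv.Perm Ω) : Submodule ℚ (Ω → ℚ) where
  carrier := {f | ∀ X, Blk β X → ∑ a ∈ X, f a = 0}
  zero_mem' := fun _ _ => by simp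
  add_mem' := fun a b X h => by simp [Finset.sum_add_distrib, a X h, b X h]
  smul_mem' := fun c f a X h => by simp [← Finset.mul_sum, a X h]

/-- an invariant space of functions whose vectors fixed by a point stabiliser form a line -/
def StD (T : Type) [Group T] : Prop :=
  ∃ (Ω : Type) (_ : Finite Ω) (β : MulAut T →* Equiv.Perm Ω) (V : Submodule ℚ (Ω → ℚ)) (ω : Ω),
    (∀ α, ∀ f ∈ V, (fun a => f (β α a)) ∈ V) ∧ (∀ a, ∃ t, β (MulAut.conj t) ω = a) ∧ V ≠ ⊥ ∧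
    (∀ f ∈ V, (∀ t, β (MulAut.conj t) ω = ω → ∀ a, f (β (MulAut.conj t) a) = f a) → f ω = 0 →
      f = 0) ∧
    ∀ f ∈ V, (∀ a b, f a = f b) → f = 0

/-- a rational representation of the automorphism group, irreducible and nontrivial on `T` -/
def RatRep (T : Type) [Group T] : Prop :=
  ∃ (n : ℕ) (M : MulAut T →* Matrix (Fin n) (Fin n) ℚ),
    ∑ᶠ t : T, (M (MulAut.conj t)).trace * (M (MulAut.conj t⁻¹)).trace = Nat.card T ∧
    ∑ᶠ t : T, (M (MulAut.conj t)).trace = 0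

/-- the additive group of a field of characteristic `p` inside `T`, and an element that acts on it
as a scalar of order at least `n` -/
def Fb (T : Type) [Group T] (p n : ℕ) : Prop :=
  ∃ (F : Type) (_ : Field F) (_ : Finite F) (_ : CharP F p) (j : Multiplicative F →* T) (x : T)
    (μ : Fˣ), Function.Injective j ∧ (∀ t : F, x * j (ofAdd t) * x⁻¹ = j (ofAdd (μ * t))) ∧
      n ≤ orderOf μ

/-- `T` lies in a finite ring of characteristic `p` that is small against such a scalar -/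
def Lin (k : ℕ) (T : Type) [Group T] : Prop :=
  ∃ (p : ℕ) (_ : Fact p.Prime) (A : Type) (_ : Ring A) (_ : Finite A) (_ : CharP A p)
    (ρ : T →* A) (n : ℕ), Function.Injective ρ ∧ Fb T p n ∧
      Nat.card A ≤ 2 ^ (Nat.log 2 n + 1) ^ k

/-- a copy of `K ^ k` on which all elementary transvections are induced by conjugation -/
def Fr (T : Type) [Group T] (K : Type) [Field K] (k : ℕ) : Prop :=
  ∃ ξ : Fin k → K → T, (∀ i s t, ξ i (s + t) = ξ i s * ξ i t) ∧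
    (∀ i j s t, Commute (ξ i s) (ξ j t)) ∧ (∀ i, ξ i 1 ≠ 1) ∧
    ∀ i j, i ≠ j → ∀ t, ∃ y : T, (∀ u, y * ξ j u * y⁻¹ = ξ i (t * u) * ξ j u) ∧
      ∀ m, m ≠ j → ∀ u, y * ξ m u * y⁻¹ = ξ m u

/-- the fixed points of an automorphism -/
abbrev fx {S : Type} [Group S] (σ : MulAut S) : Subgroup S :=
  σ.toMonoidHom.eqLocus (MonoidHom.id S)

/-- SYL: the action on the Sylow subgroups. -/
def SylS : Prop :=
  ∀ (S : Type) [Group S] [Finite S] (p : ℕ) [Fact p.Prime] (B N U : Subgroup S) (R : Set S),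
    SB p B N U R → ∃ (Ω : Type) (_ : Finite Ω) (β : MulAut S →* Equiv.Perm Ω) (ω : Ω), Act B β ω

/-- APA: the signed sum over an apartment. -/
def ApaS : Prop :=
  ∀ (S Ω : Type) [Group S] [Finite S] [Finite Ω] (B N : Subgroup S) (R : Set S)
    (β : MulAut S →* Equiv.Perm Ω) (ω : Ω), BN B N R → Act B β ω → ∃ f ∈ VV β, f ω ≠ 0

/-- BLK: the Steinberg space. -/
def BlkS : Prop :=
  ∀ (S Ω : Type) [Group S] [Finite S] [Finite Ω] (B N : Subgroup S) (R : Set S)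
    (β : MulAut S →* Equiv.Perm Ω) (ω : Ω), BN B N R → R.Nonempty → Act B β ω →
    (∃ f ∈ VV β, f ω ≠ 0) → StD S

/-- REP: the character. -/
def RepS : Prop := ∀ (T : Type) [Group T] [Finite T], StD T → RatRep T

/-- PAR: parabolic subgroups. -/
def ParS : Prop :=
  ∀ (S : Type) [Group S] (B N : Subgroup S) (R J : Set S), BN B N R → J ⊆ R →
    (∀ g ∈ closure J ⊔ B, ∀ n ∈ N, ∀ h, DC B h n →
      ∃ m ∈ closure J ⊔ B ⊓ N, DC B (g * h) (m * n)) ∧
    (∀ v ∈ closure J ⊔ B ⊓ N, v ∉ B → ∃ s ∈ J, len B R (s * v) + 1 = len B R v) ∧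
    ∀ n ∈ N, (∀ s ∈ J, len B R (s * n) ≤ len B R n) → ∀ v ∈ closure J ⊔ B ⊓ N,
      ∃ u ∈ N, len B R v + len B R u ≤ len B R n ∧ n = v * u

/-- FIX: fixed points of an involution. -/
def FixS : Prop :=
  ∀ (S : Type) [Group S] (B N : Subgroup S) (R : Set S) (σ : MulAut S), BN B N R →
    (∀ g, σ (σ g) = g) → (∀ g, σ g ∈ B ↔ g ∈ B) → (∀ g, σ g ∈ N ↔ g ∈ N) →
    (∀ g, σ g = g → ∃ b ∈ B, ∃ n ∈ N, ∃ b' ∈ B, σ b = b ∧ σ n = n ∧ σ b' = b' ∧ g = b * n * b') →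
    (∀ r ∈ R, ∃ v ∈ closure {r, σ r} ⊔ B, σ v = v ∧ v ∉ B) →
    (∀ n ∈ N, σ n = n → n ∉ B → ∃ u ∈ B, σ u = u ∧ n * u * n⁻¹ ∉ B) → R.Nonempty →
    ∃ R1 : Set (fx σ), R1.Nonempty ∧ BN (B.subgroupOf (fx σ)) (N.subgroupOf (fx σ)) R1

/-- COR: one polynomial has all scalars by which a unit acts on such subgroups as roots. -/
def CorS : Prop :=
  ∀ (p : ℕ) [Fact p.Prime] (A : Type) [Ring A] [Finite A] [CharP A p] (F : Type) [Field F]
    [CharP F p] (u : Aˣ), ∃ g : Polynomial F, g ≠ 0 ∧ 2 ^ g.natDegree ≤ Nat.card A ∧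
      ∀ (j : Multiplicative F →* A) (ν : F), Function.Injective j →
        (∀ t : F, (u : A) * j (ofAdd t) * (u⁻¹ : Aˣ) = j (ofAdd (ν * t))) → g.IsRoot ν

/-- SLK: a Singer element of determinant one. -/
def SlkS : Prop :=
  ∀ (T : Type) [Group T] (p : ℕ) [Fact p.Prime] (K : Type) [Field K] [Finite K] [CharP K p]
    (k : ℕ), 2 ≤ k → Fr T K k → Fb T p (2 ^ (k - 1))

/-- IDP: independent sets. -/
def IdpS : Prop :=
  ∀ (α : Type) [DecidableEq α] (r : α → α → Prop) [DecidableRel r] (E : ℕ) (X : Finset α),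
    (∀ j ∈ X, (X.filter fun i => r i j).card ≤ E) →
    ∃ Y ⊆ X, X.card ≤ (2 * E + 1) * Y.card ∧ ∀ i ∈ Y, ∀ j ∈ Y, i ≠ j → ¬ r i j

/-- ARI: arithmetic. -/
def AriS : Prop :=
  ∀ c : ℕ, 0 < c → ∃ k0 b0 : ℕ, ∀ n Q m : ℕ, Q ≤ (2 * m + 1) ^ 3 →
    Q ^ (2 * n) ^ 2 ≤ b0 ∨ Q ^ (2 * n) ^ 2 ≤ 2 ^ (Nat.log 2 m + 1) ^ k0 ∨
      ∃ k, 4 ≤ k ∧ (c * (k + 1)) ^ 4 < n ∧ Q ^ (2 * n) ^ 2 ≤ 2 ^ (Nat.log 2 (2 ^ (k - 1)) + 1) ^ k0

end Pool.Agent.MP_adf6dd_al.LT
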