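import Pool.Agent.MP_adf6dd_al.lt.SpecA
import Pool.Agent.MP_983df8_al.ch.TOP

/-! Groups of Lie type as composition factors: roots and root subgroups, row statements. -/

set_option autoImplicit false

namespace Pool.Agent.MP_adf6dd_al.LT

open Subgroup Module Pool.Agent.MP_983df8_al Pool.Agent.MP_983df8_al.CH

section

variable {ι Λ : Type} [AddCommGroup Λ]

/-- the invariant form -/
structure Form (D : RD ι Λ) (Q : Λ →+ Λ →+ ℤ) : Prop where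
  symm : ∀ x y, Q x y = Q y x
  cs : ∀ x y, Q x y ^ 2 ≤ Q x x * Q y y
  rt : ∀ a x, 2 * Q (D.rt a) x = D.cv a x * Q (D.rt a) (D.rt a)
  pos : ∀ a, 0 < Q (D.rt a) (D.rt a)
  sym : ∀ τ, D.Sym τ → ∀ a, Q (D.rt (τ a)) (D.rt (τ a)) = Q (D.rt a) (D.rt a)

/-- a set of roots that meet pairwise at sixty degrees -/
def Cq (D : RD ι Λ) (X : Finset ι) : Prop := ∀ i ∈ X, ∀ j ∈ X, i ≠ j → D.cv i (D.rt j) = 1

/-- the same for a family -/
def Cf (D : RD ι Λ) {k : ℕ} (b : Fin k → ι) : Prop :=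
  ∀ i j, i ≠ j → D.cv (b i) (D.rt (b j)) = 1

variable {K V : Type} [Field K] [LieRing V] [LieAlgebra K V] {D : RD ι Λ}

/-- the commutator relations along such a family -/
structure Rl (C : CG D K V) {k : ℕ} (b : Fin k → ι) : Prop where
  bb : ∀ i j s t, Commute (C.x (b i) s) (C.x (b j) t)
  rj : ∀ i j, i ≠ j → ∃ ν : K, ν * ν = 1 ∧ ∀ t u,
    C.x (D.rf (b j) (b i)) t * C.x (b j) u * (C.x (D.rf (b j) (b i)) t)⁻¹ =
      C.x (b i) (ν * t * u) * C.x (b j) u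
  rm : ∀ i j m, i ≠ j → m ≠ j → ∀ t u, Commute (C.x (D.rf (b j) (b i)) t) (C.x (b m) u)

/-- all facts of the library -/
structure Fa (C : CG D K V) : Prop where
  r : RF C
  u1 : UF1 C
  u2 : UF2 C
  b1 : BF1 C
  b2 : BF2 C
  t : TF C

/-- an involution of an untwisted group that permutes the root subgroups, fixing none -/
structure RG (C : CG D K V) {S : Type} [Group S] (f : S →* (End K V)ˣ) (σ : MulAut S)
    (ρ : Equiv.Perm ι) (ψ : ι → K → K) : Prop where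
  emb : Emb C f
  one : ∀ v, C.s v = v
  inv : ∀ g, σ (σ g) = g
  xx : ∀ a t g, f g = C.x a t → f (σ g) = C.x (ρ a) (ψ a t)
  ne : ∀ a, ρ a ≠ a
  pos : ∀ a, D.pos (ρ a) ↔ D.pos a
  ng : ∀ a, ρ (D.ng a) = D.ng (ρ a)
  mul : ∀ a t, t ≠ 0 → ψ a t * ψ (D.ng a) (-t⁻¹) = -1

/-- what such an involution preserves -/
structure RP (C : CG D K V) {S : Type} [Group S] (f : S →* (End K V)ˣ) (σ : MulAut S) : Prop where
  all : ∀ y ∈ C.G, ∃ g, f g = y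
  U : ∀ g, f (σ g) ∈ C.U ↔ f g ∈ C.U
  Um : ∀ g, f (σ g) ∈ C.Um ↔ f g ∈ C.Um
  N : ∀ g, f (σ g) ∈ C.Nn ↔ f g ∈ C.Nn
  T : ∀ g, f (σ g) ∈ C.T ↔ f g ∈ C.T
  B : ∀ g, f (σ g) ∈ C.U ⊔ C.T ↔ f g ∈ C.U ⊔ C.T
  fp : ∀ X : Subgroup S, (∀ g ∈ X, σ g ∈ X) → ∀ g ∈ X, ∀ a t, t ≠ 0 → f g = C.x a t →
    ∃ v ∈ X, v ≠ 1 ∧ σ v = v

end

/-- FRM: the form exists; root subgroups meet trivially; few roots in small rank. -/
def FrmS : Prop :=
  (∀ (ι Λ : Type) [AddCommGroup Λ] (D : RD ι Λ), ∃ Q, Form D Q) ∧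
  (∀ (ι Λ : Type) [AddCommGroup Λ] (D : RD ι Λ), RDF D → Nat.card ι ≤ 7 ^ D.Δ.card) ∧
  AllC fun {_ _ _ _} _ _ _ _ _ C => Fa C → ∀ a c t u, a ≠ c → C.x a t = C.x c u → t = 0

/-- GRO: many roots at one angle to a root contain a large clique. -/
def GroS : Prop :=
  ∀ (ι Λ : Type) [AddCommGroup Λ] (D : RD ι Λ) (Q : Λ →+ Λ →+ ℤ), RDF D → Form D Q →
    ∀ (k : ℕ) (a : ι) (α β : ℤ) (X : Finset ι), α ≠ 0 →
    (∀ c ∈ X, D.cv a (D.rt c) = α ∧ D.cv c (D.rt a) = β) → 2 * k ^ 2 + 4 ≤ X.card →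
    ∃ Y : Finset ι, Y.card = k ∧ Cq D Y

/-- CNT: many roots give a large clique. -/
def CntS : Prop :=
  ∀ (ι Λ : Type) [AddCommGroup Λ] (D : RD ι Λ) (Q : Λ →+ Λ →+ ℤ), RDF D → Form D Q →
    ∀ k : ℕ, (14 * (k + 1)) ^ 4 < Nat.card ι → ∃ Y : Finset ι, Y.card = k ∧ Cq D Y

/-- EXC: a root of the same length meets all but a few members of a clique at one angle. -/
def ExcS : Prop :=
  ∀ (ι Λ : Type) [AddCommGroup Λ] (D : RD ι Λ) (Q : Λ →+ Λ →+ ℤ), RDF D → Form D Q →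
    ∀ (X : Finset ι) (d : ι), Cq D X → (∀ i ∈ X, Q (D.rt d) (D.rt d) = Q (D.rt i) (D.rt i)) →
    ∃ c : ℤ, -3 ≤ c ∧ c ≤ 3 ∧ (X.filter fun i => D.cv i (D.rt d) ≠ c).card ≤ 24

/-- HOM: a clique that is fixed by the symmetry or orthogonal to its image. -/
def HomS : Prop :=
  ∀ (ι Λ : Type) [AddCommGroup Λ] (D : RD ι Λ) (Q : Λ →+ Λ →+ ℤ) (τ : Equiv.Perm ι), RDF D →
    Form D Q → D.Sym τ → SymF D τ → ∀ (k : ℕ) (X : Finset ι), Cq D X → 2401 * (k + 1) ≤ X.card →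
    ∃ b : Fin k → ι, Cf D b ∧
      ((∀ i, τ (b i) = b i) ∨ ∀ i j, D.cv (b i) (D.rt (τ (b j))) = 0)

/-- ORT: orthogonal roots with a witness give commuting root subgroups. -/
def OrtS : Prop :=
  AllC fun {_ _ _ _} _ _ _ _ D C => Fa C → ∀ a c a', D.cv a (D.rt c) = 0 →
    D.cv a' (D.rt a) * D.cv a (D.rt a') = 1 → D.cv a' (D.rt c) = 0 →
    ∀ t u, Commute (C.x a t) (C.x c u)

/-- REL: the relations. -/
def RelS : Prop :=
  AllC fun {ι _ _ _} _ _ _ _ D C => Fa C → ∀ (k : ℕ) (b : Fin k → ι), 4 ≤ k → Cf D b → Rl C b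

/-- FRF: the fixed case. -/
def FrfS : Prop :=
  AllC fun {ι _ K _} _ _ _ _ D C => Fa C → ∀ (S : Type) [Group S] (f : S →* _), Emb C f →
    ∀ (p : ℕ) [CharP K p] (k : ℕ) (b : Fin k → ι), Cf D b → Rl C b → (∀ i, C.τ (b i) = b i) →
    ∃ (K0 : Type) (_ : Field K0) (_ : Finite K0) (_ : CharP K0 p), Fr S K0 k

/-- FRS: the orthogonal case. -/
def FrsS : Prop :=
  AllC fun {ι _ K _} _ _ _ _ D C => Fa C → ∀ (S : Type) [Group S] (f : S →* _), Emb C f →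
    ∀ (k : ℕ) (b : Fin k → ι), 4 ≤ k → Cf D b → Rl C b →
    (∀ i j, D.cv (b i) (D.rt (C.τ (b j))) = 0) → Fr S K k

/-- TOR: the torus on the highest root subgroup; the split BN-pair. -/
def TorS : Prop :=
  AllC fun {_ _ K _} _ _ _ _ _ C => Fa C → ∀ (S : Type) [Group S] [Finite S] (f : S →* _),
    Emb C f → ∀ (p : ℕ) [Fact p.Prime] [CharP K p],
    (∃ m, Fb S p m ∧ Nat.card K ≤ (2 * m + 1) ^ 3) ∧
    SB p ((C.U ⊔ C.T).comap f) (C.Nn.comap f) (C.U.comap f) (RS C f)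

/-- REA: what the involution preserves. -/
def ReaS : Prop :=
  AllC fun {_ _ _ _} _ _ _ _ _ C => Fa C → ∀ (S : Type) [Group S] [Finite S] (f : S →* _) σ ρ ψ,
    RG C f σ ρ ψ → RP C f σ

/-- REB: the split BN-pair of the fixed points. -/
def RebS : Prop :=
  AllC fun {_ _ K _} _ _ _ _ _ C => Fa C → ∀ (S : Type) [Group S] [Finite S] (f : S →* _) σ ρ ψ,
    RG C f σ ρ ψ → RP C f σ → ∀ (p : ℕ) [Fact p.Prime] [CharP K p],
    SB p ((C.U ⊔ C.T).comap f) (C.Nn.comap f) (C.U.comap f) (RS C f) → HasSB p (fx σ)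

/-- REC: the torus of the fixed points. -/
def RecS : Prop :=
  AllC fun {_ _ K _} _ _ _ _ _ C => Fa C → ∀ (S : Type) [Group S] [Finite S] (f : S →* _) σ ρ ψ,
    RG C f σ ρ ψ → RP C f σ → ∀ (p : ℕ) [CharP K p],
    ∃ m, Fb (fx σ) p m ∧ Nat.card K ≤ (2 * m + 1) ^ 3

end Pool.Agent.MP_adf6dd_al.LT
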